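import Pool.Agent.Lib.MP_ae5b4e_an_A1.Slow
import Pool.Agent.Lib.MP_ae5b4e_an_BX.Box

/-! # A1: exact families over boxes -/

noncomputable section

namespace Pool.Agent.MP_ae5b4e_an_A1

open Complex Set Filter Topology Metric
open Pool.Agent.MP_ae5b4e_an_BX (Rec Exa exists_box)

variable {U : Ultrafilter ℕ} {ε : ℕ → ℝ} {M Ω : Set (ℂ × ℂ)} {g : ℂ × ℂ → ℂ × ℂ}
  {gn : ℕ → ℂ × ℂ → ℂ × ℂ} {z : ℂ × ℂ → ℂ × ℂ}

/-- EXACT FAMILIES over a box of any length and small height.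

Proof. `S := {p | a₁ ≤ Re p.1 ≤ a₂, Im p.1 = y, p.2 ∈ closedBall g₀ r}` is compact and `⊆ Ω`; take
`τ > 0` with `S' := cthickening (4 τ) S ⊆ Ω` (`IsCompact.exists_cthickening_subset_open`); `S'` is
compact, so `K := z '' S'` is a compact subset of `M`. Take `ρ' > 0` with `cthickening ρ' K ⊆ M` and
`M' := thickening ρ' K` (open, contains `K`); `exists_box` for `M', K, g` gives `b₀, ρ`.
`h₀ := min τ (b₀ / 2)`. Let `0 < h ≤ h₀`; `D := ball g₀ r`; the rectangle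
`Rec (a₁ - τ) (a₂ + τ) (y - h - τ) (y + h + τ) ×ˢ D ⊆ S'` (the norm of `ℂ × ℂ` is the maximum; move the
first variable to its nearest point of the segment, distance `≤ 3 τ`), so the hypotheses on `z` hold
(`Fw.z_an`, `Fw.ode`).
For `j` let `η_j, ε_j` be given by the box lemma for `δ = 1 / (j + 1)`. `P j n Z :=
Exa (gn n) (ε n) (Rec a₁ a₂ (y - h) (y + h)) D Z ∧ ∀ p ∈ Rec .. ×ˢ D, ‖Z p - z p‖ ≤ 1 / (j + 1)`
is antitone in `j`, and for almost all `n` there is a `Z`: `ε n < ε_j`, `gn n` is analytic on `M'`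
and `‖gn n - g‖ ≤ η_j` on `cthickening ρ K` (`VF.gn_an`, `VF.conv` on the compact
`cthickening ρ' K ⊆ M`, which contains `M'` and `cthickening ρ K ⊆ M'`). `slow` (`ev_ge`) gives `Z n`.
`Ex.eq`: for a compact `K' ⊆ Rec ×ˢ D` and `ε n` small, `p.1 + ε n ∈ Rec` for all `p ∈ K'`
(`exists_cthickening_subset_open`). -/
theorem exists_ex (hV : VF U ε M g gn) (hz : Fw M g Ω z) {a₁ a₂ y : ℝ} (ha : a₁ < a₂) {g₀ : ℂ} {r : ℝ}
    (hr : 0 < r) (hsub : ∀ p : ℂ × ℂ, a₁ ≤ p.1.re → p.1.re ≤ a₂ → p.1.im = y →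
      p.2 ∈ closedBall g₀ r → p ∈ Ω) :
    ∃ h₀ : ℝ, 0 < h₀ ∧ ∀ h : ℝ, 0 < h → h ≤ h₀ →
      Rec a₁ a₂ (y - h) (y + h) ×ˢ ball g₀ r ⊆ Ω ∧
        ∃ Z, Ex U ε gn (Rec a₁ a₂ (y - h) (y + h) ×ˢ ball g₀ r) z Z := by
  classical
  -- the compact neighbourhood of the segment
  let S : Set (ℂ × ℂ) := (Icc a₁ a₂ ×ℂ {y}) ×ˢ closedBall g₀ r
  have hS : IsCompact S :=
    (isCompact_Icc.reProdIm isCompact_singleton).prod (isCompact_closedBall g₀ r)
  have hSΩ : S ⊆ Ω := by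
    rintro p ⟨⟨⟨h1, h2⟩, h3⟩, h4⟩
    exact hsub p h1 h2 h3 h4
  obtain ⟨κ, hκ, hκΩ⟩ := hS.exists_cthickening_subset_open hz.Ω_open hSΩ
  have hS' : IsCompact (cthickening κ S) := hS.cthickening
  have hK : IsCompact (z '' cthickening κ S) :=
    hS'.image_of_continuousOn (hz.z_an.continuousOn.mono hκΩ)
  have hKM : z '' cthickening κ S ⊆ M := by
    rintro _ ⟨p, hp, rfl⟩
    exact hz.maps p (hκΩ hp)
  obtain ⟨ρ', hρ', hρM⟩ := hK.exists_cthickening_subset_open hV.M_open hKM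
  obtain ⟨b₀, ρ, hb₀, hρ, hρK, hbox⟩ := exists_box isOpen_thickening hK
    (self_subset_thickening hρ' _)
    (hV.g_an.mono ((thickening_subset_cthickening _ _).trans hρM))
  obtain ⟨τ, hτ, hτκ⟩ : ∃ τ : ℝ, 0 < τ ∧ 4 * τ = κ := ⟨κ / 4, by positivity, by ring⟩
  refine ⟨min τ (b₀ / 2), lt_min hτ (by positivity), fun h hh hle => ?_⟩
  obtain ⟨hle1, hle2⟩ := le_min_iff.1 hle
  have hin : Rec (a₁ - τ) (a₂ + τ) (y - h - τ) (y + h + τ) ×ˢ ball g₀ r ⊆ cthickening κ S := by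
    rintro p ⟨⟨h1, h2, h3, h4⟩, h5⟩
    have hq : ((⟨max a₁ (min a₂ p.1.re), y⟩ : ℂ), p.2) ∈ S := by
      refine ⟨⟨⟨le_max_left _ _, max_le ha.le (min_le_left _ _)⟩, rfl⟩, ball_subset_closedBall h5⟩
    refine mem_cthickening_of_dist_le p _ κ S hq ?_
    rw [Prod.dist_eq, dist_self, max_eq_left dist_nonneg, dist_eq_norm]
    refine (Complex.norm_le_abs_re_add_abs_im _).trans ?_
    have e1 : |(p.1 - (⟨max a₁ (min a₂ p.1.re), y⟩ : ℂ)).re| ≤ τ := by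
      show |p.1.re - max a₁ (min a₂ p.1.re)| ≤ τ
      rcases le_total p.1.re a₁ with h6 | h6
      · rw [min_eq_right (h6.trans ha.le), max_eq_left h6, abs_le]
        constructor <;> linarith
      · rcases le_total p.1.re a₂ with h7 | h7
        · rw [min_eq_right h7, max_eq_right h6, sub_self, abs_zero]
          exact hτ.le
        · rw [min_eq_left h7, max_eq_right ha.le, abs_le]
          constructor <;> linarith
    have e2 : |(p.1 - (⟨max a₁ (min a₂ p.1.re), y⟩ : ℂ)).im| ≤ 2 * τ := by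
      show |p.1.im - y| ≤ 2 * τ
      rw [abs_le]
      constructor <;> linarith
    linarith
  have hRs : Rec a₁ a₂ (y - h) (y + h) ⊆ Rec (a₁ - τ) (a₂ + τ) (y - h - τ) (y + h + τ) :=
    Pool.Agent.MP_ae5b4e_an_BX.Rec_mono (by linarith) (by linarith) (by linarith) (by linarith)
  have hOΩ : Rec a₁ a₂ (y - h) (y + h) ×ˢ ball g₀ r ⊆ Ω :=
    (prod_mono_left hRs).trans (hin.trans hκΩ)
  refine ⟨hOΩ, ?_⟩
  have hO : IsOpen (Rec a₁ a₂ (y - h) (y + h) ×ˢ ball g₀ r) :=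
    (Pool.Agent.MP_ae5b4e_an_BX.isOpen_Rec _ _ _ _).prod isOpen_ball
  have key := hbox a₁ a₂ (y - h) (y + h) τ ha (by linarith) (by linarith) hτ (ball g₀ r)
    isOpen_ball z (hz.z_an.mono (hin.trans hκΩ)) (fun p hp => mem_image_of_mem z (hin hp))
    (fun p hp => hz.ode p (hκΩ (hin hp)))
  have hKc : IsCompact (cthickening ρ' (z '' cthickening κ S)) := hK.cthickening
  obtain ⟨Z, hZ⟩ := slow (X := ℂ × ℂ → ℂ × ℂ) (ev_ge hV.ε_pos hV.ε_lim)
    (P := fun j n Z => Exa (gn n) (ε n) (Rec a₁ a₂ (y - h) (y + h)) (ball g₀ r) Z ∧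
      ∀ p ∈ Rec a₁ a₂ (y - h) (y + h) ×ˢ ball g₀ r, ‖Z p - z p‖ ≤ 1 / ((j : ℝ) + 1))
    (fun j n Z hP => ⟨hP.1, fun p hp => (hP.2 p hp).trans (by
      push_cast
      gcongr
      linarith)⟩)
    (fun j => by
      obtain ⟨η, ε₀, hη, hε₀, hkey⟩ := key (1 / ((j : ℝ) + 1)) (by positivity)
      filter_upwards [hV.ε_lim.eventually (gt_mem_nhds hε₀), hV.gn_an _ hρM hKc,
        hV.conv _ hρM hKc η hη] with n h1 h2 h3
      exact hkey (ε n) (hV.ε_pos n) h1 (gn n) (h2.mono (thickening_subset_cthickening _ _))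
        fun w hw => h3 w (thickening_subset_cthickening _ _ (hρK hw)))
  refine ⟨Z, ?_, ?_, ?_⟩
  · intro K' hK' _
    filter_upwards [hZ 0] with n hn
    exact hn.1.an.mono hK'
  · intro K' hK' hK'c
    obtain ⟨κ', hκ', hκO⟩ := hK'c.exists_cthickening_subset_open hO hK'
    filter_upwards [hZ 0, hV.ε_lim.eventually (gt_mem_nhds hκ')] with n hn h1 p hp
    have h2 : tr (ε n) p ∈ Rec a₁ a₂ (y - h) (y + h) ×ˢ ball g₀ r := by
      apply hκO
      refine mem_cthickening_of_dist_le _ p κ' K' hp ?_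
      rw [Prod.dist_eq, tr_fst, tr_snd, dist_self, max_eq_left dist_nonneg, dist_eq_norm,
        add_sub_cancel_left, Complex.norm_real, Real.norm_of_nonneg (hV.ε_pos n).le]
      exact h1.le
    exact hn.1.eq p (hK' hp) h2.1
  · intro K' hK' _ δ hδ
    obtain ⟨j, hj⟩ := exists_nat_one_div_lt hδ
    filter_upwards [hZ j] with n hn p hp
    exact (hn.2 p (hK' hp)).trans hj.le

end Pool.Agent.MP_ae5b4e_an_A1
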