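import Pool.Agent.Lib.MP_ae5b4e_an_A1.Slow
import Pool.Agent.Lib.MP_ae5b4e_an_BX.Inv

/-! # A1: exact coordinates -/

noncomputable section

namespace Pool.Agent.MP_ae5b4e_an_A1

open Complex Set Filter Topology Metric
open Pool.Agent.MP_ae5b4e_an_BX (loc_inv)

variable {U : Ultrafilter ℕ} {ε : ℕ → ℝ} {M Ω : Set (ℂ × ℂ)} {g : ℂ × ℂ → ℂ × ℂ}
  {gn : ℕ → ℂ × ℂ → ℂ × ℂ} {z : ℂ × ℂ → ℂ × ℂ}

private theorem Coord_dist (t : ℂ) (p : ℂ × ℂ) : dist (tr t p) p = ‖t‖ := by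
  have h : tr t p - p = (t, 0) := by
    ext <;> simp [tr]
  rw [dist_eq_norm, h, Prod.norm_mk, norm_zero, max_eq_left (norm_nonneg _)]

/-- local injectivity, uniform. Proof. `ρ₁` with `K₁ := cthickening ρ₁ K ⊆ O` (compact),
`W₁ := thickening ρ₁ K` (open). `BX.loc_inv` for `z`, `W₁`, `K` (`Fw.inj`): `r₀`; `r := r₀` gives
`ρ, δ₀`. For almost all `n` `Z n` is analytic on `K₁` and `‖Z n - z‖ ≤ min δ₀ (ρ / 4)` on `K₁`. Let
`r₁ ≤ r` be so small that `‖z q - z p‖ < ρ / 2` for `p ∈ K`, `‖q - p‖ < r₁` (uniform continuity of `z`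
on `K₁`). If `‖q - p‖, ‖q' - p‖ < r₁` and `Z n q = Z n q' = w` then `w ∈ ball (z p) ρ`, so `q = S w = q'`. -/
theorem Ex.uniq (hz : Fw M g Ω z) {O : Set (ℂ × ℂ)} (hO : IsOpen O) (hOΩ : O ⊆ Ω)
    {Z : ℕ → ℂ × ℂ → ℂ × ℂ} (hZ : Ex U ε gn O z Z) {K : Set (ℂ × ℂ)} (hK : IsCompact K) (hKO : K ⊆ O) :
    ∃ r : ℝ, 0 < r ∧ ∀ᶠ n in (U : Filter ℕ), ∀ p ∈ K, ∀ q q' : ℂ × ℂ, ‖q - p‖ < r → ‖q' - p‖ < r →
      Z n q = Z n q' → q = q' := by
  obtain ⟨δ, hδ, hδO⟩ := hK.exists_cthickening_subset_open hO hKO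
  have hK1 : IsCompact (cthickening δ K) := hK.cthickening
  have hW1K : thickening δ K ⊆ cthickening δ K := thickening_subset_cthickening δ K
  have hKW1 : K ⊆ thickening δ K := self_subset_thickening hδ K
  obtain ⟨r₀, hr₀, hball, hloc⟩ := loc_inv (isOpen_thickening (δ := δ) (E := K))
    (hz.z_an.mono ((hW1K.trans hδO).trans hOΩ)) hK hKW1 (fun p hp => hz.inj p (hOΩ (hKO hp)))
  obtain ⟨ρ, δ₀, hρ, hδ₀, hS⟩ := hloc r₀ hr₀ le_rfl
  have huc := hK1.uniformContinuousOn_of_continuous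
    ((hz.z_an.mono (hδO.trans hOΩ)).continuousOn)
  obtain ⟨r1, hr1, h1⟩ := Metric.uniformContinuousOn_iff.1 huc (ρ / 2) (by positivity)
  refine ⟨min r₀ r1, lt_min hr₀ hr1, ?_⟩
  filter_upwards [hZ.an _ hδO hK1, hZ.conv _ hδO hK1 (min δ₀ (ρ / 4)) (by positivity)]
    with n hn1 hn2 p hp q q' hq hq' heq
  obtain ⟨S, -, hS2⟩ := hS (Z n) (hn1.mono hW1K)
    (fun x hx => (hn2 x (hW1K hx)).trans (min_le_left _ _)) p hp
  have hin : ∀ x : ℂ × ℂ, ‖x - p‖ < min r₀ r1 → Z n x ∈ ball (z p) ρ := by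
    intro x hx
    have hxr : ‖x - p‖ < r₀ := hx.trans_le (min_le_left _ _)
    have hx1 : dist x p < r1 := by
      rw [dist_eq_norm]
      exact hx.trans_le (min_le_right _ _)
    have hxK : x ∈ cthickening δ K := hW1K (hball p hp (by
      rw [mem_closedBall, dist_eq_norm]
      exact hxr.le))
    have h2 := h1 x hxK p (self_subset_cthickening K hp) hx1
    have h3 := (hn2 x hxK).trans (min_le_right _ _)
    rw [dist_eq_norm] at h2
    rw [mem_ball, dist_eq_norm]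
    have h4 := norm_sub_le_norm_sub_add_norm_sub (Z n x) (z x) (z p)
    linarith
  have e1 := (hS2 (Z n q) (hin q hq)).2.2 q (hq.trans_le (min_le_left _ _)) rfl
  have e2 := (hS2 (Z n q) (hin q hq)).2.2 q' (hq'.trans_le (min_le_left _ _)) heq.symm
  rw [e1, e2]

/-- EXACT COORDINATES of a family `W` in the family `Z`.

Proof. Exhaustion `K j` of `O` (`exhaust`). `P j n F := AnalyticOnNhd ℂ F (K j) ∧
(∀ p ∈ K j, F (tr (ε n) p) = tr (ε n) (F p)) ∧ (∀ p ∈ K j, ‖F p - p‖ ≤ 1 / (j + 1)) ∧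
(∀ p ∈ K j, Z n (F p) = W n p)`, antitone. `slow` and `exhaust` give the claim once `∃ F, P j n F` for
almost all `n` is shown. Let `K := K j`, `K' := K (j + 1)` (`K ⊆ interior K'`), `K'' := K (j + 2)`,
`W₁ := interior K''`. `BX.loc_inv` for `z, W₁, K'`: `r₀`. Choose `0 < r ≤ min r₀ (1 / (j + 1))`, and
`(ρ, δ₀)` for `r`, `(ρ', δ₀')` for `r / 2`, all for the compact `K'`. For almost all `n`: `Z n, W n` are
analytic on `K''`, `‖Z n - z‖ ≤ min δ₀ δ₀'`, `‖W n - z‖ ≤ min ρ ρ' / 4` on `K''`, `ε n` small.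
For `p ∈ K'` there is exactly one `q` with `‖q - p‖ < r / 2` and `Z n q = W n p`
(`q = S' (W n p)`); `F p := q` (`F p := p` for `p ∉ K'`). Analyticity at `p ∈ K`: for `q'` near `p`
(`q' ∈ K'`, `‖q' - p‖ < r / 4`, `W n q' ∈ ball (z p) ρ`) we have `‖F q' - p‖ < r`, so `F q' = S (W n q')`
with the fixed `S` of `p` for the radius `r`: `F = S ∘ W n` near `p`, analytic. Equivariance at
`p ∈ K` (`tr ε p ∈ K'` for small `ε`): `q := tr ε (F p)` has `‖q - tr ε p‖ = ‖F p - p‖ < r / 2` and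
`Z n q = Φ (Z n (F p)) = Φ (W n p) = W n (tr ε p)` by `Ex.eq` for `Z` on the compact `K''` (`F p ∈ K''`
if `r` is so small that `cthickening r K' ⊆ K''`) and for `W` on `K`; by uniqueness `q = F (tr ε p)`. -/
theorem coord (hV : VF U ε M g gn) (hz : Fw M g Ω z) {O : Set (ℂ × ℂ)} (hO : IsOpen O) (hOΩ : O ⊆ Ω)
    {Z W : ℕ → ℂ × ℂ → ℂ × ℂ} (hZ : Ex U ε gn O z Z) (hW : Ex U ε gn O z W) :
    ∃ F : ℕ → ℂ × ℂ → ℂ × ℂ, Cr U ε O F ∧ ∀ K ⊆ O, IsCompact K → ∀ᶠ n in (U : Filter ℕ), ∀ p ∈ K,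
      Z n (F n p) = W n p := by
  obtain ⟨K, hKc, hKO, hKi, hKe⟩ := exhaust hO
  have hKs : ∀ j, K j ⊆ K (j + 1) := fun j => (hKi j).trans interior_subset
  have hKm : Monotone K := monotone_nat_of_le_succ hKs
  obtain ⟨F, hF⟩ := slow (X := ℂ × ℂ → ℂ × ℂ) (U := U) (ev_ge hV.ε_pos hV.ε_lim)
    (P := fun j n F => AnalyticOnNhd ℂ F (K j) ∧
      (∀ p ∈ K j, F (tr (ε n) p) = tr (ε n) (F p)) ∧
      (∀ p ∈ K j, ‖F p - p‖ ≤ 1 / ((j : ℝ) + 1)) ∧ ∀ p ∈ K j, Z n (F p) = W n p)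
    (by
      rintro j n F ⟨h1, h2, h3, h4⟩
      refine ⟨h1.mono (hKs j), fun p hp => h2 p (hKs j hp), fun p hp => ?_,
        fun p hp => h4 p (hKs j hp)⟩
      refine (h3 p (hKs j hp)).trans ?_
      push_cast
      exact one_div_le_one_div_of_le (by positivity) (by linarith))
    (by
      intro j
      have hc2 := hKc (j + 2)
      have hK2O : K (j + 2) ⊆ O := hKO (j + 2)
      have hWK : interior (K (j + 2)) ⊆ K (j + 2) := interior_subset
      have hK1W : K (j + 1) ⊆ interior (K (j + 2)) := hKi (j + 1)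
      obtain ⟨r₀, hr₀, hball, hloc⟩ := loc_inv (isOpen_interior (s := K (j + 2)))
        (hz.z_an.mono ((hWK.trans hK2O).trans hOΩ)) (hKc (j + 1)) hK1W
        (fun p hp => hz.inj p (hOΩ (hKO (j + 1) hp)))
      obtain ⟨r, hr⟩ : ∃ r : ℝ, r = min r₀ (1 / ((j : ℝ) + 1)) := ⟨_, rfl⟩
      have hr0 : 0 < r := by
        rw [hr]
        positivity
      have hrr : r ≤ r₀ := by
        rw [hr]
        exact min_le_left _ _
      have hrj : r ≤ 1 / ((j : ℝ) + 1) := by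
        rw [hr]
        exact min_le_right _ _
      obtain ⟨ρ, δ₀, hρ, hδ₀, hS⟩ := hloc r hr0 hrr
      obtain ⟨ρ', δ₀', hρ', hδ₀', hS'⟩ := hloc (r / 2) (by positivity) (by linarith)
      obtain ⟨δ₁, hδ₁, hδ₁K⟩ := (hKc j).exists_cthickening_subset_open
        (isOpen_interior (s := K (j + 1))) (hKi j)
      filter_upwards [hZ.an _ hK2O hc2, hW.an _ hK2O hc2,
        hZ.conv _ hK2O hc2 (min δ₀ δ₀') (by positivity),
        hW.conv _ hK2O hc2 (min ρ ρ' / 2) (by positivity),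
        hZ.eq _ hK2O hc2, hW.eq _ (hKO j) (hKc j),
        hV.ε_lim.eventually (gt_mem_nhds hδ₁)] with n a1 a2 a3 a4 a5 a6 a7
      have hex : ∀ p : ℂ × ℂ, ∃ q : ℂ × ℂ, p ∈ K (j + 1) → ‖q - p‖ < r / 2 ∧ Z n q = W n p ∧
          ∀ q' : ℂ × ℂ, ‖q' - p‖ < r / 2 → Z n q' = W n p → q' = q := by
        intro p
        by_cases hp : p ∈ K (j + 1)
        · obtain ⟨S, -, hS2⟩ := hS' (Z n) (a1.mono hWK)
            (fun x hx => (a3 x (hWK hx)).trans (min_le_right _ _)) p hp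
          have hw : W n p ∈ ball (z p) ρ' := by
            rw [mem_ball, dist_eq_norm]
            have h1 := a4 p (hKs (j + 1) hp)
            have h2 := min_le_right ρ ρ'
            linarith
          obtain ⟨b1, b2, b3⟩ := hS2 _ hw
          exact ⟨S (W n p), fun _ => ⟨b1, b2, b3⟩⟩
        · exact ⟨p, fun h => absurd h hp⟩
      choose F hF using hex
      refine ⟨F, ?_, ?_, ?_, ?_⟩
      · -- analyticity
        intro p hp
        have hp' : p ∈ K (j + 1) := hKs j hp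
        obtain ⟨S, hS1, hS2⟩ := hS (Z n) (a1.mono hWK)
          (fun x hx => (a3 x (hWK hx)).trans (min_le_left _ _)) p hp'
        have hw : W n p ∈ ball (z p) ρ := by
          rw [mem_ball, dist_eq_norm]
          have h1 := a4 p (hKs (j + 1) hp')
          have h2 := min_le_left ρ ρ'
          linarith
        have hWp : AnalyticAt ℂ (W n) p := a2 p (hKs (j + 1) hp')
        have h3 : AnalyticAt ℂ (fun q => S (W n q)) p :=
          AnalyticAt.fun_comp (g := S) (f := W n) (hS1 _ hw) hWp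
        refine h3.congr ?_
        have h4 : ∀ᶠ q in 𝓝 p, W n q ∈ ball (z p) ρ :=
          hWp.continuousAt.eventually (isOpen_ball.mem_nhds hw)
        filter_upwards [h4, mem_interior_iff_mem_nhds.1 (hKi j hp),
          ball_mem_nhds p (half_pos hr0)] with q h5 h6 h7
        obtain ⟨c1, c2, c3⟩ := hF q h6
        rw [mem_ball, dist_eq_norm] at h7
        refine ((hS2 _ h5).2.2 (F q) ?_ c2).symm
        have h8 := norm_sub_le_norm_sub_add_norm_sub (F q) q p
        linarith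
      · -- equivariance
        intro p hp
        have hp' : p ∈ K (j + 1) := hKs j hp
        obtain ⟨c1, c2, c3⟩ := hF p hp'
        have htp : tr (ε n) p ∈ K (j + 1) := by
          refine interior_subset (hδ₁K ?_)
          refine mem_cthickening_of_dist_le _ p δ₁ (K j) hp ?_
          rw [Coord_dist, Complex.norm_real, Real.norm_eq_abs, abs_of_pos (hV.ε_pos n)]
          exact a7.le
        obtain ⟨d1, d2, d3⟩ := hF _ htp
        refine (d3 _ ?_ ?_).symm
        · rw [tr_sub]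
          exact c1
        · have hFp : F p ∈ K (j + 2) := by
            refine hWK (hball p hp' ?_)
            rw [mem_closedBall, dist_eq_norm]
            linarith
          rw [a5 _ hFp, c2, ← a6 p hp]
      · intro p hp
        have h1 := (hF p (hKs j hp)).1
        linarith
      · intro p hp
        exact (hF p (hKs j hp)).2.1)
  refine ⟨F, ⟨?_, ?_, ?_⟩, ?_⟩
  · intro S hSO hSc
    obtain ⟨j, hj⟩ := hKe S hSO hSc
    filter_upwards [hF j] with n hn
    exact hn.1.mono hj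
  · intro S hSO hSc
    obtain ⟨j, hj⟩ := hKe S hSO hSc
    filter_upwards [hF j] with n hn p hp
    exact hn.2.1 p (hj hp)
  · intro S hSO hSc δ hδ
    obtain ⟨j, hj⟩ := hKe S hSO hSc
    obtain ⟨i, hi⟩ := exists_nat_one_div_lt hδ
    have hji : S ⊆ K (max i j) := hj.trans (hKm (le_max_right i j))
    filter_upwards [hF (max i j)] with n hn p hp
    refine (hn.2.2.1 p (hji hp)).trans ?_
    refine le_trans ?_ hi.le
    refine one_div_le_one_div_of_le (by positivity) ?_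
    have : (i : ℝ) ≤ ((max i j : ℕ) : ℝ) := by exact_mod_cast le_max_left i j
    linarith
  · intro S hSO hSc
    obtain ⟨j, hj⟩ := hKe S hSO hSc
    filter_upwards [hF j] with n hn p hp
    exact hn.2.2.2 p (hj hp)

end Pool.Agent.MP_ae5b4e_an_A1
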