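import Pool.Agent.Lib.MP_ae5b4e_an_MT.Ls
import Pool.Agent.Lib.MP_ae5b4e_an_BX.Defs

/-!
# MP_ae5b4e_an, block A1 (exact coordinates and passages): definitions

Coordinates `(θ, γ)`; a sequence of maps `u ↦ u + ε n • gn n u` close to the identity, with
`gn n → g` along an ultrafilter; `z` is a family of solutions of `∂z/∂θ = g z`.
`θ = τ / γ` in the windows, the chain is `θ ↦ θ + ε n`.
-/

noncomputable section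

namespace Pool.Agent.MP_ae5b4e_an_A1

open Complex Set Filter Topology Metric

/-- translation of the first variable -/
def tr (t : ℂ) (p : ℂ × ℂ) : ℂ × ℂ := (p.1 + t, p.2)

/-- one step of the map close to the identity -/
def stp (ε : ℝ) (g : ℂ × ℂ → ℂ × ℂ) (u : ℂ × ℂ) : ℂ × ℂ := u + (ε : ℂ) • g u

/-- the vector fields of a sequence of maps close to the identity, converging on `M` -/
structure VF (U : Ultrafilter ℕ) (ε : ℕ → ℝ) (M : Set (ℂ × ℂ)) (g : ℂ × ℂ → ℂ × ℂ)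
    (gn : ℕ → ℂ × ℂ → ℂ × ℂ) : Prop where
  ε_pos : ∀ n, 0 < ε n
  ε_lim : Tendsto ε U (𝓝 0)
  M_open : IsOpen M
  g_an : AnalyticOnNhd ℂ g M
  gn_an : ∀ K ⊆ M, IsCompact K → ∀ᶠ n in (U : Filter ℕ), AnalyticOnNhd ℂ (gn n) K
  conv : ∀ K ⊆ M, IsCompact K → ∀ δ : ℝ, 0 < δ →
    ∀ᶠ n in (U : Filter ℕ), ∀ u ∈ K, ‖gn n u - g u‖ ≤ δ

/-- a family of solutions `θ ↦ z (θ, γ)` of the limit equation with invertible differential -/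
structure Fw (M : Set (ℂ × ℂ)) (g : ℂ × ℂ → ℂ × ℂ) (Ω : Set (ℂ × ℂ)) (z : ℂ × ℂ → ℂ × ℂ) :
    Prop where
  Ω_open : IsOpen Ω
  z_an : AnalyticOnNhd ℂ z Ω
  maps : ∀ p ∈ Ω, z p ∈ M
  ode : ∀ p ∈ Ω, HasDerivAt (fun θ => z (θ, p.2)) (g (z p)) p.1
  inj : ∀ p ∈ Ω, Function.Injective (fderiv ℂ z p)

/-- exact families: `W n` conjugates the translation by `ε n` to the step of `gn n`, and `W n → z`
on the compact subsets of `O` -/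
structure Ex (U : Ultrafilter ℕ) (ε : ℕ → ℝ) (gn : ℕ → ℂ × ℂ → ℂ × ℂ) (O : Set (ℂ × ℂ))
    (z : ℂ × ℂ → ℂ × ℂ) (W : ℕ → ℂ × ℂ → ℂ × ℂ) : Prop where
  an : ∀ K ⊆ O, IsCompact K → ∀ᶠ n in (U : Filter ℕ), AnalyticOnNhd ℂ (W n) K
  eq : ∀ K ⊆ O, IsCompact K → ∀ᶠ n in (U : Filter ℕ), ∀ p ∈ K,
    W n (tr (ε n) p) = stp (ε n) (gn n) (W n p)
  conv : ∀ K ⊆ O, IsCompact K → ∀ δ : ℝ, 0 < δ →
    ∀ᶠ n in (U : Filter ℕ), ∀ p ∈ K, ‖W n p - z p‖ ≤ δ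

/-- changes of coordinates: commute with the translation by `ε n`, tend to the identity -/
structure Cr (U : Ultrafilter ℕ) (ε : ℕ → ℝ) (O : Set (ℂ × ℂ)) (F : ℕ → ℂ × ℂ → ℂ × ℂ) :
    Prop where
  an : ∀ K ⊆ O, IsCompact K → ∀ᶠ n in (U : Filter ℕ), AnalyticOnNhd ℂ (F n) K
  eq : ∀ K ⊆ O, IsCompact K → ∀ᶠ n in (U : Filter ℕ), ∀ p ∈ K,
    F n (tr (ε n) p) = tr (ε n) (F n p)
  lim : ∀ K ⊆ O, IsCompact K → ∀ δ : ℝ, 0 < δ →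
    ∀ᶠ n in (U : Filter ℕ), ∀ p ∈ K, ‖F n p - p‖ ≤ δ

/-- the `m` times pushed family -/
def push (ε : ℝ) (g : ℂ × ℂ → ℂ × ℂ) (m : ℕ) (W : ℂ × ℂ → ℂ × ℂ) (p : ℂ × ℂ) : ℂ × ℂ :=
  (stp ε g)^[m] (W (tr (-((m * ε : ℝ) : ℂ)) p))

/-- periodic extension in the first variable from a neighbourhood of `Re = a` -/
def pe (ε a : ℝ) (D : ℂ × ℂ → ℂ × ℂ) (p : ℂ × ℂ) : ℂ × ℂ :=
  D (tr (-(((round ((p.1.re - a) / ε) : ℤ) : ℝ) * ε : ℝ)) p)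

/-- a horizontal strip over a disc of parameters, of variable height -/
def Str (y₁ : ℝ) (T : ℂ → ℝ) (g₀ : ℂ) (r : ℝ) : Set (ℂ × ℂ) :=
  {p | p.2 ∈ ball g₀ r ∧ y₁ < p.1.im ∧ p.1.im < T p.2}

/-- the closed vertical segments over the closed disc -/
def Sg (a y₁ : ℝ) (T : ℂ → ℝ) (g₀ : ℂ) (r : ℝ) : Set (ℂ × ℂ) :=
  {p | p.2 ∈ closedBall g₀ r ∧ p.1.re = a ∧ y₁ ≤ p.1.im ∧ p.1.im ≤ T p.2}

/-- geometry: boxes at the abscissas `a 0 < ... < a P`, branch heights `Yb (i + 1)` between `a i` and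
`a (i + 1)`, label heights `T i` at `a i`; `Ω` = domain of `z`, `OL` = domain of the true label -/
structure Geo (Ω OL : Set (ℂ × ℂ)) (g₀ : ℂ) (r y₀ y₁ : ℝ) (P : ℕ) (a : ℕ → ℝ)
    (T Yb : ℕ → ℂ → ℝ) : Prop where
  r_pos : 0 < r
  y_lt : y₁ < y₀
  a_lt : ∀ i < P, a i < a (i + 1)
  T_cont : ∀ i ≤ P, ContinuousOn (T i) (closedBall g₀ r)
  Y_cont : ∀ i < P, ContinuousOn (Yb (i + 1)) (closedBall g₀ r)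
  T_le : ∀ i ≤ P, T i g₀ ≤ y₀
  Y_le : ∀ i < P, Yb (i + 1) g₀ ≤ y₀
  box : ∀ i ≤ P, ∀ γ ∈ closedBall g₀ r, ((⟨a i, y₀⟩ : ℂ), γ) ∈ Ω
  pass : ∀ i < P, ∀ γ ∈ closedBall g₀ r, ∀ y : ℝ, y₁ ≤ y → y < Yb (i + 1) γ →
    ∀ s ∈ Icc (a i) (a (i + 1)), ((⟨s, y⟩ : ℂ), γ) ∈ Ω
  labs : ∀ i ≤ P, ∀ γ ∈ closedBall g₀ r, ∀ y : ℝ, y₁ ≤ y → y < T i γ →
    ((⟨a i, y⟩ : ℂ), γ) ∈ OL
  labp : ∀ i < P, ∀ γ ∈ closedBall g₀ r, ∀ y : ℝ, y₁ ≤ y → y < T i γ → y < T (i + 1) γ →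
    ∀ s ∈ Icc (a i) (a (i + 1)), ((⟨s, y⟩ : ℂ), γ) ∈ OL

/-- **The interface.** `ε n`-periodic deviations `(g i, f i)` of the label in the box `i` and kicks
`(A (i + 1), B (i + 1))` of the passage from the box `i` to the box `i + 1`. -/
structure BC (U : Ultrafilter ℕ) (ε : ℕ → ℝ) (g₀ : ℂ) (r y₁ : ℝ) (P : ℕ) (T Yb : ℕ → ℂ → ℝ)
    (f g A B : ℕ → ℕ → ℂ × ℂ → ℂ) : Prop where
  per : ∀ i n p, f i n (tr (ε n) p) = f i n p ∧ g i n (tr (ε n) p) = g i n p ∧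
    A i n (tr (ε n) p) = A i n p ∧ B i n (tr (ε n) p) = B i n p
  box : ∀ i ≤ P, ∀ η : ℝ, 0 < η → ∀ᶠ n in (U : Filter ℕ),
    AnalyticOnNhd ℂ (f i n) (Str y₁ (fun γ => T i γ - η) g₀ r) ∧
    AnalyticOnNhd ℂ (g i n) (Str y₁ (fun γ => T i γ - η) g₀ r)
  box_lim : ∀ i ≤ P, ∀ η : ℝ, 0 < η → ∀ δ : ℝ, 0 < δ → ∀ᶠ n in (U : Filter ℕ),
    ∀ p ∈ Str y₁ (fun γ => T i γ - η) g₀ r, ‖f i n p‖ ≤ δ ∧ ‖g i n p‖ ≤ δ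
  pas : ∀ i < P, ∀ η : ℝ, 0 < η → ∀ᶠ n in (U : Filter ℕ),
    AnalyticOnNhd ℂ (A (i + 1) n) (Str y₁ (fun γ => Yb (i + 1) γ - η) g₀ r) ∧
    AnalyticOnNhd ℂ (B (i + 1) n) (Str y₁ (fun γ => Yb (i + 1) γ - η) g₀ r)
  pas_lim : ∀ i < P, ∀ η : ℝ, 0 < η → ∀ δ : ℝ, 0 < δ → ∀ᶠ n in (U : Filter ℕ),
    ∀ p ∈ Str y₁ (fun γ => Yb (i + 1) γ - η) g₀ r, ‖A (i + 1) n p‖ ≤ δ ∧ ‖B (i + 1) n p‖ ≤ δ
  rel : ∀ i < P, ∀ η : ℝ, 0 < η → ∀ᶠ n in (U : Filter ℕ),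
    ∀ p ∈ Str y₁ (fun γ => min (min (T i γ) (T (i + 1) γ)) (Yb (i + 1) γ) - η) g₀ r,
      f (i + 1) n p = f i n p + B (i + 1) n (p.1 + g i n p, p.2 + f i n p) ∧
      g (i + 1) n p = g i n p + A (i + 1) n (p.1 + g i n p, p.2 + f i n p)

/-- the number of steps between two abscissas -/
def ms (ε : ℕ → ℝ) (a : ℕ → ℝ) (i n : ℕ) : ℕ := ⌊(a (i + 1) - a i) / ε n⌋₊

/-- **The link with the exact families**: `Z i` = normal form family in the box `i`, `W` = family of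
the true labels. -/
structure BZ (U : Ultrafilter ℕ) (ε : ℕ → ℝ) (gn : ℕ → ℂ × ℂ → ℂ × ℂ) (z : ℂ × ℂ → ℂ × ℂ)
    (W : ℕ → ℂ × ℂ → ℂ × ℂ) (g₀ : ℂ) (r y₀ y₁ w : ℝ) (P : ℕ) (a : ℕ → ℝ) (T Yb : ℕ → ℂ → ℝ)
    (Z : ℕ → ℕ → ℂ × ℂ → ℂ × ℂ) (f g A B : ℕ → ℕ → ℂ × ℂ → ℂ) : Prop where
  w_pos : 0 < w
  ex : ∀ i ≤ P, Ex U ε gn
    (Pool.Agent.MP_ae5b4e_an_BX.Rec (a i - w) (a i + w) (y₀ - w) (y₀ + w) ×ˢ ball g₀ (2 * r)) z (Z i)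
  y_gt : y₀ - w < y₁
  T_lt : ∀ i ≤ P, ∀ γ ∈ ball g₀ (2 * r), T i γ < y₀ + w / 2
  Y_lt : ∀ i < P, ∀ γ ∈ ball g₀ (2 * r), Yb (i + 1) γ < y₀ + w / 2
  lab : ∀ i ≤ P, ∀ η : ℝ, 0 < η → ∀ᶠ n in (U : Filter ℕ),
    ∀ p ∈ Str y₁ (fun γ => T i γ - η) g₀ r, |p.1.re - a i| ≤ 4 * ε n →
      W n p = Z i n (p.1 + g i n p, p.2 + f i n p)
  pas : ∀ i < P, ∀ η : ℝ, 0 < η → ∀ᶠ n in (U : Filter ℕ),
    ∀ p ∈ Str y₁ (fun γ => Yb (i + 1) γ - η) g₀ r, |p.1.re - a (i + 1)| ≤ 4 * ε n →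
      Z (i + 1) n (p.1 + A (i + 1) n p, p.2 + B (i + 1) n p) =
        push (ε n) (gn n) (ms ε a i n) (Z i n) p

/-- the field in the limit: state `(λ, α)`, `λ' = α`, `α' = bb q λ α` -/
def gI (q : ℂ → ℂ) (u : ℂ × ℂ) : ℂ × ℂ := (u.2, Pool.Agent.MP_ae5b4e_an_M.bb q u.1 u.2)

/-- the field of the exact step -/
def gx (ε : ℕ → ℝ) (ξ : ℕ → ℂ × ℂ → ℂ) (n : ℕ) (u : ℂ × ℂ) : ℂ × ℂ := (u.2, (ξ n u - u.2) / ε n)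

/-- the state of a limit label in the coordinates `(θ, γ)` -/
def zf (Λ : ℂ × ℂ → ℂ) (p : ℂ × ℂ) : ℂ × ℂ :=
  (Λ (p.1 * p.2, p.2), p.2 * deriv (fun s => Λ (s, p.2)) (p.1 * p.2))

/-- the states of the true labels in the coordinates `(θ, γ)` -/
def lab (ε : ℕ → ℝ) (L : ℕ → ℂ × ℂ → ℂ) (n : ℕ) (p : ℂ × ℂ) : ℂ × ℂ :=
  Pool.Agent.MP_ae5b4e_an_MT.stt (L n) (ε n) (p.1 * p.2, p.2)

@[simp] theorem tr_fst (t : ℂ) (p : ℂ × ℂ) : (tr t p).1 = p.1 + t := rfl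

@[simp] theorem tr_snd (t : ℂ) (p : ℂ × ℂ) : (tr t p).2 = p.2 := rfl

theorem tr_zero (p : ℂ × ℂ) : tr 0 p = p := by
  ext <;> simp [tr]

theorem tr_tr (s t : ℂ) (p : ℂ × ℂ) : tr s (tr t p) = tr (s + t) p := by
  ext
  · simp [tr]; ring
  · simp [tr]

theorem continuous_tr (t : ℂ) : Continuous (tr t) := by
  unfold tr
  fun_prop

theorem analyticAt_tr (t : ℂ) (p : ℂ × ℂ) : AnalyticAt ℂ (tr t) p :=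
  (analyticAt_fst.add analyticAt_const).prod analyticAt_snd

theorem tr_sub (t : ℂ) (p q : ℂ × ℂ) : tr t p - tr t q = p - q := by
  ext
  · simp [tr]
  · simp [tr]

end Pool.Agent.MP_ae5b4e_an_A1
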