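import Pool.Agent.Lib.MP_ae5b4e_an_A1.Slow
import Pool.Agent.Lib.MP_ae5b4e_an_MT.Stp
import Pool.Agent.Lib.MP_ae5b4e_an_M.SB

/-! # A1: the vector fields of the windows -/

noncomputable section

namespace Pool.Agent.MP_ae5b4e_an_A1

open Complex Set Filter Topology Metric
open Pool.Agent.MP_ae5b4e_an_NB2 (Sys)
open Pool.Agent.MP_ae5b4e_an_PB
open Pool.Agent.MP_ae5b4e_an_M
open Pool.Agent.MP_ae5b4e_an_MT (LS Stp GG)
open PorTR (Hm)

/-- `ξ n` is the step function on every box for almost all `n` -/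
def XI (U : Ultrafilter ℕ) (Z : ℕ → Sys) (ε : ℕ → ℝ) (ξ : ℕ → ℂ × ℂ → ℂ) : Prop :=
  ∀ d R A : ℝ, 0 < d → ∃ r C : ℝ, 0 < r ∧ 0 ≤ C ∧
    ∀ᶠ n in (U : Filter ℕ), Stp (Z n) (ε n) d R A r C (ξ n)

/-- Proof. `GG d' R' A' ⊆ GG d R A`; all fields of `Stp` are restrictions. -/
theorem stp_mono {Z : Sys} {ε d R A r C d' R' A' : ℝ} {ξ : ℂ × ℂ → ℂ} (h : Stp Z ε d R A r C ξ)
    (hd : d ≤ d') (hR : R' ≤ R) (hA : A' ≤ A) : Stp Z ε d' R' A' r C ξ := by
  have hsub : GG d' R' A' ⊆ GG d R A := by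
    rintro u ⟨h1, h2, h3⟩
    exact ⟨by linarith, by linarith, by linarith⟩
  exact ⟨h.an.mono hsub, fun u hu => h.bd u (hsub hu), fun u hu => h.node u (hsub hu),
    fun u hu => h.uniq u (hsub hu)⟩

/-- ONE STEP FUNCTION FOR ALL BOXES.

Proof. For `i ∈ ℕ` let `r i, C i` be given by `LS.exists_stp` for `d = 1 / (i + 1)`, `R = A = i + 1`.
`P j n ξ := ∀ i ≤ j, Stp (Z n) (ε n) (1 / (i + 1)) (i + 1) (i + 1) (r i) (C i) ξ`, antitone. For `j` fixed and
almost all `n` take `ξ_i` for every `i ≤ j`; then `ξ := ξ_j` works: on `GG i` (smaller) `ξ_j` is analytic, and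
`‖ξ_j u - u.2‖ ≤ C j ε n ≤ r i` for `ε n` small, so `ξ_j u = ξ_i u` there (`Stp.uniq` of `ξ_i`, `Stp.node`
of `ξ_j`), and all the fields of `Stp` for `i` follow (analyticity: `ξ_j` is analytic itself). `slow` (`ev_ge`).
For `d, R, A`: `i` with `1 / (i + 1) ≤ d`, `R, A ≤ i + 1`; `stp_mono`. -/
theorem exists_xi {U : Ultrafilter ℕ} {Z : ℕ → Sys} {ε : ℕ → ℝ} {D : ℕ → Set (ℂ × ℂ)}
    {L : ℕ → ℂ × ℂ → ℂ} {DI : Set (ℂ × ℂ)} {LI : ℂ × ℂ → ℂ} (h : LS U Z ε D L DI LI) :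
    ∃ ξ : ℕ → ℂ × ℂ → ℂ, XI U Z ε ξ := by
  choose r C hr hC hev using fun i : ℕ =>
    h.exists_stp (d := 1 / ((i : ℝ) + 1)) (by positivity) ((i : ℝ) + 1) ((i : ℝ) + 1)
  obtain ⟨ξ, hξ⟩ := slow (X := ℂ × ℂ → ℂ) (U := U) (fun j => ev_ge h.ε_pos h.ε_lim j)
    (P := fun j n ξ => ∀ i ≤ j, Stp (Z n) (ε n) (1 / ((i : ℝ) + 1)) ((i : ℝ) + 1) ((i : ℝ) + 1)
      (r i) (C i) ξ) (fun j n ξ hP i hi => hP i (hi.trans (Nat.le_succ j))) (by
    intro j
    have h1 : ∀ᶠ n in (U : Filter ℕ), ∀ i ∈ Iic j, ∃ ξ, Stp (Z n) (ε n) (1 / ((i : ℝ) + 1))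
        ((i : ℝ) + 1) ((i : ℝ) + 1) (r i) (C i) ξ :=
      (Filter.eventually_all_finite (finite_Iic j)).2 fun i _ => hev i
    have h2 : ∀ᶠ n in (U : Filter ℕ), ∀ i ∈ Iic j, C j * ε n ≤ r i := by
      refine (Filter.eventually_all_finite (finite_Iic j)).2 fun i _ => ?_
      have h3 : Tendsto (fun n => C j * ε n) U (𝓝 0) := by
        have h4 := h.ε_lim.const_mul (C j)
        rwa [mul_zero] at h4
      filter_upwards [h3.eventually (gt_mem_nhds (hr i))] with n hn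
      exact hn.le
    filter_upwards [h1, h2] with n hn1 hn2
    obtain ⟨ξj, hj⟩ := hn1 j (mem_Iic.2 le_rfl)
    refine ⟨ξj, fun i hi => ?_⟩
    obtain ⟨ξi, hi'⟩ := hn1 i (mem_Iic.2 hi)
    have hij : (i : ℝ) ≤ j := by exact_mod_cast hi
    have hj' : Stp (Z n) (ε n) (1 / ((i : ℝ) + 1)) ((i : ℝ) + 1) ((i : ℝ) + 1) (r j) (C j) ξj :=
      stp_mono hj (one_div_le_one_div_of_le (by positivity) (by linarith)) (by linarith)
        (by linarith)
    have heq : ∀ u ∈ GG (1 / ((i : ℝ) + 1)) ((i : ℝ) + 1) ((i : ℝ) + 1), ξj u = ξi u := by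
      intro u hu
      exact hi'.uniq u hu (ξj u) ((hj'.bd u hu).trans (hn2 i (mem_Iic.2 hi))) (hj'.node u hu)
    refine ⟨hj'.an, fun u hu => ?_, hj'.node, fun u hu x hx hn => ?_⟩
    · rw [heq u hu]
      exact hi'.bd u hu
    · rw [heq u hu]
      exact hi'.uniq u hu x hx hn)
  refine ⟨ξ, fun d R A hd => ?_⟩
  obtain ⟨i, hi⟩ := exists_nat_ge (max (1 / d) (max R A))
  have hi1 : 1 / d ≤ (i : ℝ) := (le_max_left _ _).trans hi
  have hi2 : R ≤ (i : ℝ) := ((le_max_left _ _).trans (le_max_right _ _)).trans hi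
  have hi3 : A ≤ (i : ℝ) := ((le_max_right _ _).trans (le_max_right _ _)).trans hi
  refine ⟨r i, C i, hr i, hC i, ?_⟩
  filter_upwards [hξ i] with n hn
  refine stp_mono (hn i le_rfl) ?_ (by linarith) (by linarith)
  have h4 : 1 / ((i : ℝ) + 1) ≤ 1 / (1 / d) :=
    one_div_le_one_div_of_le (by positivity) (by linarith)
  rwa [one_div_one_div] at h4

variable {Y : Sys} {h R C0 : ℝ} {v : ℂ → ℝ} {G L : ℂ × ℂ → ℂ} {U : Ultrafilter ℕ} {β C1 : ℝ}
  {c V : ℕ → ℝ}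

private theorem Fld_Hm_open : IsOpen Hm := isOpen_lt Complex.continuous_im continuous_const

private theorem Fld_bound {K : Set (ℂ × ℂ)} (hK : K ⊆ Hm ×ˢ univ) (hc : IsCompact K) :
    ∃ d B : ℝ, 0 < d ∧ d ≤ 1 ∧ 1 ≤ B ∧ ∀ u ∈ K, u.1.im ≤ -(4 * d) ∧ ‖u.1‖ ≤ B ∧ ‖u.2‖ ≤ B := by
  rcases K.eq_empty_or_nonempty with rfl | hne
  · exact ⟨1, 1, one_pos, le_rfl, le_rfl, fun u hu => absurd hu (notMem_empty u)⟩
  obtain ⟨u₀, hu₀, hmax⟩ := hc.exists_isMaxOn hne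
    (f := fun u : ℂ × ℂ => u.1.im) (by fun_prop)
  obtain ⟨B, hB⟩ := hc.isBounded.exists_norm_le
  have h0 : u₀.1.im < 0 := (hK hu₀).1
  refine ⟨min 1 (-u₀.1.im / 4), max B 1, lt_min one_pos (by linarith), min_le_left _ _,
    le_max_right _ _, fun u hu => ⟨?_, ?_, ?_⟩⟩
  · have h1 : u.1.im ≤ u₀.1.im := hmax hu
    have h2 : min 1 (-u₀.1.im / 4) ≤ -u₀.1.im / 4 := min_le_right _ _
    linarith
  · exact ((norm_fst_le u).trans (hB u hu)).trans (le_max_left _ _)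
  · exact ((norm_snd_le u).trans (hB u hu)).trans (le_max_left _ _)

private theorem Fld_cpt (d B : ℝ) : IsCompact {z : ℂ | z.im ≤ -d ∧ ‖z‖ ≤ B} := by
  have h1 : {z : ℂ | z.im ≤ -d ∧ ‖z‖ ≤ B} = closedBall 0 B ∩ {z : ℂ | z.im ≤ -d} := by
    ext z
    rw [mem_inter_iff, mem_closedBall_zero_iff]
    exact and_comm
  rw [h1]
  exact (isCompact_closedBall _ _).inter_right
    (isClosed_le Complex.continuous_im continuous_const)

private theorem Fld_on {Z : Sys} {S T : Set ℂ} (h : Z.On T) (hST : S ⊆ T) : Z.On S :=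
  ⟨fun z hz => h.d1 z (hST hz), fun z hz => h.d1' z (hST hz), fun z hz => h.d2 z (hST hz),
    fun z hz => h.d2' z (hST hz), fun z hz => h.wr z (hST hz)⟩

/-- THE FIELDS OF THE WINDOWS CONVERGE.

Proof. `ε n = c n / V n` (`div_pos`, `cV_lim` / `eps_lim`). `M = Hm ×ˢ univ` is open; `gI` is analytic:
`bb_an` (`qI_hol`). `gn_an`: a compact `K ⊆ Hm ×ˢ univ` is contained in some `GG d R' A` with `d > 0`;
`Stp.an`. `conv`: let `K ⊆ GG (2 d) R' A` compact, `δ > 0`. For `u ∈ K` put `l := u.1 + ε u.2`,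
`α := u.2`, `α' := ξ n u`: `Stp.node` says `Zn.node l (l + ε α') u.1`, i.e. (unfold `Sys.node`,
`Pn`, as in `Zn_Pn` of M/ZA.lean) `Pn Zn l (l - ε α) (ε α') = 0`, since `u.1 = l - ε α`; and
`‖α' - α‖ ≤ C ε ≤ ρ₀`. `step_gen` for the compact `K' := {u.1 + s u.2 | u ∈ K, s ∈ [0, s₁]}`
(`s₁` so small that `Im ≤ - d` on `K'`) with `d / 2`, `R = max 1 A`, `η = δ / 2`: its hypotheses hold for
almost all `n`: `Zn_on` and `Zn_lim` on the compact `cthickening (d / 2) K'`. So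
`‖(ξ n u - u.2) / ε - bb q l α‖ ≤ δ / 2`; and `‖bb q (u.1 + ε u.2) u.2 - bb q u.1 u.2‖ ≤ δ / 2` for `ε` small by
uniform continuity of `bb q` (`bb_an`) on a compact neighbourhood of `K`. -/
theorem vf_win (hB : Base Y h R C0 v G L) (HW : Win v U β C1 c V) (x : ℕ → ℝ)
    {ξ : ℕ → ℂ × ℂ → ℂ} (hξ : XI U (fun n => Zn Y h x V n) (fun n => c n / V n) ξ) :
    VF U (fun n => c n / V n) (Hm ×ˢ univ) (gI (qI Y h U x c V)) (gx (fun n => c n / V n) ξ) := by
  have hq := qI_hol hB HW x (U := U)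
  refine ⟨fun n => div_pos (HW.c_pos n) (HW.V_pos n), eps_lim HW,
    Fld_Hm_open.prod isOpen_univ, ?_, ?_, ?_⟩
  · intro p hp
    exact analyticAt_snd.prod (bb_an hq p hp)
  · intro K hK hc
    obtain ⟨d, B, hd, -, hB1, hKb⟩ := Fld_bound hK hc
    obtain ⟨r, C, hr, hC, hev⟩ := hξ d (B + 1) (B + 1) hd
    filter_upwards [hev] with n hn u hu
    obtain ⟨h1, h2, h3⟩ := hKb u hu
    have hu' : u ∈ GG d (B + 1) (B + 1) := ⟨by linarith, by linarith, by linarith⟩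
    exact analyticAt_snd.prod (((hn.an u hu').sub analyticAt_snd).div_const)
  · intro K hK hc δ hδ
    obtain ⟨d, B, hd, hd1, hB1, hKb⟩ := Fld_bound hK hc
    obtain ⟨r, C, hr, hC, hev⟩ := hξ d (B + 1) (B + 1) hd
    obtain ⟨ρ₀, hρ₀, -, hstep⟩ := step_gen hq (Fld_cpt (3 * d) (B + 1)) hd
      (fun l hl => by
        have := hl.1
        linarith) hB1
    obtain ⟨δ₀, hδ₀, hst⟩ := hstep (δ / 2) (half_pos hδ)
    have hK2 : {z : ℂ | z.im ≤ -(2 * d) ∧ ‖z‖ ≤ B + 1 + d} ⊆ Hm := by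
      intro z hz
      have h1 := hz.1
      change z.im < 0
      linarith
    have hZ := Zn_lim hB HW x (Fld_cpt (2 * d) (B + 1 + d)) hK2 hδ₀
    -- uniform continuity
    have hcp : IsCompact ({z : ℂ | z.im ≤ -(3 * d) ∧ ‖z‖ ≤ B + 1} ×ˢ closedBall (0 : ℂ) B) :=
      (Fld_cpt (3 * d) (B + 1)).prod (isCompact_closedBall _ _)
    have hcs : {z : ℂ | z.im ≤ -(3 * d) ∧ ‖z‖ ≤ B + 1} ×ˢ closedBall (0 : ℂ) B ⊆
        Hm ×ˢ univ := by
      intro p hp
      have h1 := hp.1.1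
      refine ⟨?_, mem_univ _⟩
      change p.1.im < 0
      linarith
    have huc := hcp.uniformContinuousOn_of_continuous ((bb_an hq).continuousOn.mono hcs)
    rw [Metric.uniformContinuousOn_iff] at huc
    obtain ⟨κ, hκ, huc⟩ := huc (δ / 2) (half_pos hδ)
    have hε := eps_lim HW
    have e1 : ∀ᶠ n in (U : Filter ℕ), c n / V n * B < min (min d 1) κ := by
      have h1 : Tendsto (fun n => c n / V n * B) U (𝓝 0) := by
        have h2 := hε.mul_const B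
        rwa [zero_mul] at h2
      exact h1.eventually (gt_mem_nhds (lt_min (lt_min hd one_pos) hκ))
    have e2 : ∀ᶠ n in (U : Filter ℕ), c n / V n < δ₀ := hε.eventually (gt_mem_nhds hδ₀)
    have e3 : ∀ᶠ n in (U : Filter ℕ), C * (c n / V n) < ρ₀ := by
      have h1 : Tendsto (fun n => C * (c n / V n)) U (𝓝 0) := by
        have h2 := hε.const_mul C
        rwa [mul_zero] at h2
      exact h1.eventually (gt_mem_nhds hρ₀)
    filter_upwards [hev, hZ, e1, e2, e3] with n hn hZn f1 f2 f3 u hu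
    obtain ⟨ε, hεd⟩ : ∃ ε : ℝ, ε = c n / V n := ⟨_, rfl⟩
    have hε0 : 0 < ε := by rw [hεd]; exact div_pos (HW.c_pos n) (HW.V_pos n)
    rw [← hεd] at hn hZn f1 f2 f3
    obtain ⟨h1, h2, h3⟩ := hKb u hu
    rw [lt_min_iff, lt_min_iff] at f1
    obtain ⟨⟨f11, f12⟩, f13⟩ := f1
    have hεu : ‖(ε : ℂ) * u.2‖ ≤ ε * B := by
      rw [norm_mul, Complex.norm_real, Real.norm_of_nonneg hε0.le]
      exact mul_le_mul_of_nonneg_left h3 hε0.le
    have hu' : u ∈ GG d (B + 1) (B + 1) := ⟨by linarith, by linarith, by linarith⟩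
    have hl : u.1 + ε * u.2 ∈ {z : ℂ | z.im ≤ -(3 * d) ∧ ‖z‖ ≤ B + 1} := by
      refine ⟨?_, ?_⟩
      · rw [Complex.add_im]
        have := (Complex.abs_im_le_norm ((ε : ℂ) * u.2)).trans hεu
        have := le_abs_self ((ε : ℂ) * u.2).im
        linarith
      · refine (norm_add_le _ _).trans ?_
        linarith
    have hsub : ∀ l ∈ {z : ℂ | z.im ≤ -(3 * d) ∧ ‖z‖ ≤ B + 1}, ∀ z ∈ ball l d,
        z ∈ {z : ℂ | z.im ≤ -(2 * d) ∧ ‖z‖ ≤ B + 1 + d} := by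
      rintro l ⟨g1, g2⟩ z hz
      rw [mem_ball, dist_eq_norm] at hz
      have e : z = l + (z - l) := by ring
      refine ⟨?_, ?_⟩
      · have g3 : z.im = l.im + (z - l).im := by rw [← Complex.add_im, ← e]
        have g4 := (le_abs_self (z - l).im).trans (Complex.abs_im_le_norm (z - l))
        linarith
      · rw [e]
        refine (norm_add_le _ _).trans ?_
        linarith
    have hmain := (hst (Zn Y h x V n) ε hε0 f2.le (fun l hl => by
        refine Fld_on (Zn_on hB.h_pos (HW.V_pos n) hB.on) fun z hz => ?_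
        have g := hsub l hl z hz
        exact ⟨by have := g.1; linarith, hZn.1 z g⟩)
      (fun l hl z hz => (hZn.2 z (hsub l hl z hz)).le) (u.1 + ε * u.2) hl u.2 h3).2 (ξ n u)
      ((hn.bd u hu').trans f3.le) (by
        have g := hn.node u hu'
        unfold Sys.node at g
        unfold Pool.Agent.MP_ae5b4e_an_NB5.Pn
        have e : u.1 + (ε : ℂ) * u.2 - ε * u.2 = u.1 := by ring
        rw [e]
        exact g)
    have hc2 : dist (bb (qI Y h U x c V) (u.1 + ε * u.2) u.2)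
        (bb (qI Y h U x c V) u.1 u.2) < δ / 2 := by
      refine huc (u.1 + ε * u.2, u.2) ⟨hl, by rw [mem_closedBall_zero_iff]; exact h3⟩
        (u.1, u.2) ⟨⟨by linarith, by linarith⟩, by rw [mem_closedBall_zero_iff]; exact h3⟩ ?_
      rw [Prod.dist_eq, dist_self, dist_eq_norm]
      have e : u.1 + (ε : ℂ) * u.2 - u.1 = ε * u.2 := by ring
      rw [e]
      exact max_lt (by linarith) hκ
    rw [dist_eq_norm] at hc2
    have hεc : (ε : ℂ) ≠ 0 := by exact_mod_cast hε0.ne'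
    have h5 : ‖(ξ n u - u.2) / ε - bb (qI Y h U x c V) (u.1 + ε * u.2) u.2‖ ≤ δ / 2 := by
      have e : (ξ n u - u.2) / ε - bb (qI Y h U x c V) (u.1 + ε * u.2) u.2 =
          (ξ n u - u.2 - ε * bb (qI Y h U x c V) (u.1 + ε * u.2) u.2) / ε := by
        field_simp
      rw [e, norm_div, Complex.norm_real, Real.norm_of_nonneg hε0.le, div_le_iff₀ hε0]
      linarith
    have h6 : gx (fun n => c n / V n) ξ n u - gI (qI Y h U x c V) u =
        (0, (ξ n u - u.2) / ε - bb (qI Y h U x c V) u.1 u.2) := by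
      unfold gx gI
      rw [hεd]
      ext
      · simp
      · simp
    rw [h6, Prod.norm_def, norm_zero]
    refine max_le hδ.le ?_
    have e : (ξ n u - u.2) / ε - bb (qI Y h U x c V) u.1 u.2 =
        ((ξ n u - u.2) / ε - bb (qI Y h U x c V) (u.1 + ε * u.2) u.2) +
        (bb (qI Y h U x c V) (u.1 + ε * u.2) u.2 - bb (qI Y h U x c V) u.1 u.2) := by ring
    change ‖(ξ n u - u.2) / ε - bb (qI Y h U x c V) u.1 u.2‖ ≤ δ
    rw [e]
    refine (norm_add_le _ _).trans ?_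
    linarith

end Pool.Agent.MP_ae5b4e_an_A1
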