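import Pool.Agent.Lib.MP_ae5b4e_an_A1.Slow
import Pool.Agent.Lib.MP_ae5b4e_an_MT.Gro

/-! # A1: the iterates of the steps follow the flow -/

noncomputable section

namespace Pool.Agent.MP_ae5b4e_an_A1

open Complex Set Filter Topology Metric

variable {U : Ultrafilter ℕ} {ε : ℕ → ℝ} {M Ω : Set (ℂ × ℂ)} {g : ℂ × ℂ → ℂ × ℂ}
  {gn : ℕ → ℂ × ℂ → ℂ × ℂ} {z : ℂ × ℂ → ℂ × ℂ}

/-- Uniform Lipschitz bound near a compact set. Proof. `ρ₀` with `K' := cthickening (2 ρ₀) K ⊆ M`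
(compact); `‖g‖ ≤ B` on `K'`; for almost all `n` `gn n` is analytic on `K'` and `‖gn n - g‖ ≤ 1`, so
`‖gn n‖ ≤ B + 1` on `K'`. `M.lip_of_bdd` for the two components with `δ = 2 ρ₀`, `ρ := ρ₀ / 4`
(`ball w (2 ρ₀) ⊆ K'`, `u, w ∈ ball w (ρ₀ / 2)`): `L := 4 (B + 1) / (2 ρ₀)`. -/
theorem VF.lip (hV : VF U ε M g gn) {K : Set (ℂ × ℂ)} (hK : IsCompact K) (hKM : K ⊆ M) :
    ∃ L ρ : ℝ, 0 < L ∧ 0 < ρ ∧ cthickening ρ K ⊆ M ∧ ∀ᶠ n in (U : Filter ℕ),
      AnalyticOnNhd ℂ (gn n) (cthickening ρ K) ∧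
        ∀ w ∈ K, ∀ u, ‖u - w‖ ≤ ρ → ‖gn n u - gn n w‖ ≤ L * ‖u - w‖ := by
  obtain ⟨δ, hδ, hδM⟩ := hK.exists_cthickening_subset_open hV.M_open hKM
  have hK' : IsCompact (cthickening δ K) := hK.cthickening
  obtain ⟨B₀, hB₀⟩ := hK'.exists_bound_of_continuousOn
    (fun x hx => (hV.g_an x (hδM hx)).continuousAt.continuousWithinAt)
  obtain ⟨B, hB⟩ : ∃ B : ℝ, B = max B₀ 0 := ⟨_, rfl⟩
  have hB0 : 0 ≤ B := by
    rw [hB]
    exact le_max_right _ _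
  have hBg : ∀ x ∈ cthickening δ K, ‖g x‖ ≤ B := fun x hx => by
    rw [hB]
    exact (hB₀ x hx).trans (le_max_left _ _)
  have hsub : cthickening (δ / 8) K ⊆ cthickening δ K := cthickening_mono (by linarith) K
  refine ⟨4 * (B + 1) / δ, δ / 8, by positivity, by positivity, hsub.trans hδM, ?_⟩
  filter_upwards [hV.gn_an _ hδM hK', hV.conv _ hδM hK' 1 one_pos] with n h1 h2
  refine ⟨fun x hx => h1 x (hsub hx), fun w hw u hu => ?_⟩
  have hball : ball w δ ⊆ cthickening δ K := fun x hx =>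
    mem_cthickening_of_dist_le x w δ K hw (le_of_lt hx)
  have hbd : ∀ q ∈ ball w δ, ‖gn n q‖ ≤ B + 1 := by
    intro q hq
    have h3 := h2 q (hball hq)
    have h4 := hBg q (hball hq)
    have h5 : ‖gn n q‖ ≤ ‖gn n q - g q‖ + ‖g q‖ := by
      have := norm_add_le (gn n q - g q) (g q)
      rwa [sub_add_cancel] at this
    linarith
  have hwb : w ∈ ball w (δ / 4) := mem_ball_self (by positivity)
  have hub : u ∈ ball w (δ / 4) := by
    rw [mem_ball, dist_eq_norm]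
    linarith
  have ha1 : AnalyticOnNhd ℂ (fun q => (gn n q).1) (ball w δ) := fun q hq =>
    AnalyticAt.comp (g := fun r : ℂ × ℂ => r.1) analyticAt_fst (h1 q (hball hq))
  have ha2 : AnalyticOnNhd ℂ (fun q => (gn n q).2) (ball w δ) := fun q hq =>
    AnalyticAt.comp (g := fun r : ℂ × ℂ => r.2) analyticAt_snd (h1 q (hball hq))
  have hc1 := Pool.Agent.MP_ae5b4e_an_M.lip_of_bdd hδ ha1
    (fun q hq => (norm_fst_le (gn n q)).trans (hbd q hq)) hwb hub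
  have hc2 := Pool.Agent.MP_ae5b4e_an_M.lip_of_bdd hδ ha2
    (fun q hq => (norm_snd_le (gn n q)).trans (hbd q hq)) hwb hub
  exact max_le hc1 hc2

private theorem Flow_curve {f : ℂ → ℂ × ℂ} {f' : ℂ × ℂ} {a : ℂ} {s : ℝ}
    (h : HasDerivAt f f' (a + s)) : HasDerivAt (fun t : ℝ => f (a + t)) f' s := by
  have h1 : HasDerivAt (fun t : ℝ => a + (t : ℂ)) 1 s :=
    (Complex.ofRealCLM.hasDerivAt (x := s)).const_add a
  have h2 := HasDerivAt.scomp (h := fun t : ℝ => a + (t : ℂ)) s h h1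
  rw [one_smul] at h2
  exact h2

private theorem Flow_dist (s : ℝ) (p : ℂ × ℂ) : dist (tr (s : ℂ) p) p = |s| := by
  have h1 : tr (s : ℂ) p - p = ((s : ℂ), 0) := by
    ext
    · simp [tr]
    · simp [tr]
  rw [dist_eq_norm, h1, Prod.norm_def]
  simp

private theorem Flow_cont : Continuous (fun q : (ℂ × ℂ) × ℝ => tr (q.2 : ℂ) q.1) := by
  unfold tr
  fun_prop

/-- The defect of the limit family. Proof. `S := cthickening ρ K ⊆ Ω` compact. For `p ∈ K`,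
`0 < ε ≤ ρ`: `z (tr ε p) = z p + ∫₀^ε g (z (tr s p)) ds`, and `s ↦ g (z (tr s p))` is uniformly
continuous on the compact `S`: for `ε` small `‖g (z (tr s p)) - g (z p)‖ ≤ κ / 2` (`0 ≤ s ≤ ε`), so
`‖z (tr ε p) - z p - ε g (z p)‖ ≤ ε κ / 2` (`norm_image_sub_le_of_norm_deriv_le_segment'` for
`s ↦ z (tr s p) - s g (z p)`); and `‖gn n - g‖ ≤ κ / 2` on `z '' K` for almost all `n`. -/
theorem defect (hV : VF U ε M g gn) (hz : Fw M g Ω z) {K : Set (ℂ × ℂ)} (hK : IsCompact K)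
    (hKΩ : K ⊆ Ω) {κ : ℝ} (hκ : 0 < κ) : ∀ᶠ n in (U : Filter ℕ), ∀ p ∈ K,
      ‖stp (ε n) (gn n) (z p) - z (tr (ε n) p)‖ ≤ κ * ε n := by
  obtain ⟨ρ, hρ, hρΩ⟩ := hK.exists_cthickening_subset_open hz.Ω_open hKΩ
  have hS : IsCompact (cthickening ρ K) := hK.cthickening
  have hzc : ContinuousOn z Ω := fun x hx => (hz.z_an x hx).continuousAt.continuousWithinAt
  have hgz : ContinuousOn (fun q => g (z q)) (cthickening ρ K) := by
    intro x hx
    have h1 : ContinuousAt g (z x) := (hV.g_an _ (hz.maps x (hρΩ hx))).continuousAt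
    have h2 : ContinuousAt z x := (hz.z_an x (hρΩ hx)).continuousAt
    exact (ContinuousAt.comp (g := g) h1 h2).continuousWithinAt
  have huc := Metric.uniformContinuousOn_iff.1 (hS.uniformContinuousOn_of_continuous hgz)
  obtain ⟨δ₁, hδ₁, huc⟩ := huc (κ / 2) (by positivity)
  have hzK : IsCompact (z '' K) := hK.image_of_continuousOn (hzc.mono hKΩ)
  have hzKM : z '' K ⊆ M := by
    rintro _ ⟨q, hq, rfl⟩
    exact hz.maps q (hKΩ hq)
  filter_upwards [hV.conv _ hzKM hzK (κ / 2) (by positivity), hV.ε_lim.eventually_lt_const hρ,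
    hV.ε_lim.eventually_lt_const hδ₁] with n h1 h2 h3 p hp
  have hε := hV.ε_pos n
  have hmem : ∀ s ∈ Icc (0:ℝ) (ε n), tr (s : ℂ) p ∈ cthickening ρ K := by
    intro s hs
    refine mem_cthickening_of_dist_le _ p ρ K hp ?_
    rw [Flow_dist, abs_of_nonneg hs.1]
    exact hs.2.trans h2.le
  have hpm : p ∈ cthickening ρ K := self_subset_cthickening K hp
  have hder : ∀ s ∈ Icc (0:ℝ) (ε n), HasDerivWithinAt
      (fun s : ℝ => z (tr (s : ℂ) p) - (s : ℂ) • g (z p)) (g (z (tr (s : ℂ) p)) - g (z p))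
      (Icc 0 (ε n)) s := by
    intro s hs
    have h4 := hz.ode _ (hρΩ (hmem s hs))
    have h5 : HasDerivAt (fun s : ℝ => z (tr (s : ℂ) p)) (g (z (tr (s : ℂ) p))) s :=
      Flow_curve (f := fun θ => z (θ, p.2)) h4
    have h6 : HasDerivAt (fun s : ℝ => (s : ℂ) • g (z p)) ((1 : ℂ) • g (z p)) s :=
      (Complex.ofRealCLM.hasDerivAt (x := s)).smul_const (g (z p))
    rw [one_smul] at h6
    exact (h5.sub h6).hasDerivWithinAt
  have hmv := norm_image_sub_le_of_norm_deriv_le_segment' hder (C := κ / 2) (fun s hs => by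
    have h4 := huc _ (hmem s ⟨hs.1, hs.2.le⟩) p hpm (by
      rw [Flow_dist, abs_of_nonneg hs.1]
      exact hs.2.trans h3)
    rw [dist_eq_norm] at h4
    exact h4.le) (ε n) (right_mem_Icc.2 hε.le)
  simp only [Complex.ofReal_zero, zero_smul, sub_zero, tr_zero] at hmv
  have h7 := h1 (z p) (mem_image_of_mem z hp)
  have h8 : stp (ε n) (gn n) (z p) - z (tr (ε n) p) = ((ε n : ℝ) : ℂ) • (gn n (z p) - g (z p)) -
      (z (tr (ε n) p) - ((ε n : ℝ) : ℂ) • g (z p) - z p) := by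
    unfold stp
    rw [smul_sub]
    abel
  rw [h8]
  refine (norm_sub_le _ _).trans ?_
  have h9 : ‖((ε n : ℝ) : ℂ) • (gn n (z p) - g (z p))‖ ≤ ε n * (κ / 2) := by
    rw [norm_smul, Complex.norm_real, Real.norm_of_nonneg hε.le]
    exact mul_le_mul_of_nonneg_left h7 hε.le
  linarith

/-- THE ITERATES FOLLOW THE FLOW.

Proof. `W := {tr s p | p ∈ K, 0 ≤ s ≤ t}` is compact (image of `K ×ˢ Icc 0 t`) and `⊆ Ω`; `z '' W ⊆ M`
compact: `L, ρ` from `VF.lip`. Wlog `δ ≤ ρ / 2`. `κ := δ / ((1 + t) exp (L t))`. For almost all `n`: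
`defect` on `W` with `κ`. Apply `MT.gron` with `Φ := stp (ε n) (gn n)`, `x j := z (tr (j ε) p)`,
`y j := Φ^[j] u`, `s₀ = t`: `‖Φ (x j) - x (j + 1)‖ ≤ κ ε` (`tr ε (tr (j ε) p) = tr ((j + 1) ε) p`),
`‖Φ u - Φ w‖ ≤ (1 + L ε) ‖u - w‖` from `VF.lip`; `κ (1 + t) exp (L t) ≤ δ ≤ ρ`. Analyticity: induction on `j`
(`Function.iterate_succ'`): `Φ` is analytic at `Φ^[j] u` since it is within `δ ≤ ρ` of `z '' W`. -/
theorem iter_close (hV : VF U ε M g gn) (hz : Fw M g Ω z) {K : Set (ℂ × ℂ)} (hK : IsCompact K) {t : ℝ}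
    (ht : 0 ≤ t) (hKΩ : ∀ p ∈ K, ∀ s ∈ Icc 0 t, tr (s : ℂ) p ∈ Ω) {δ : ℝ} (hδ : 0 < δ) :
    ∃ κ : ℝ, 0 < κ ∧ ∀ᶠ n in (U : Filter ℕ), ∀ p ∈ K, ∀ u, ‖u - z p‖ ≤ κ → ∀ j : ℕ, j * ε n ≤ t →
      ‖(stp (ε n) (gn n))^[j] u - z (tr ((j * ε n : ℝ) : ℂ) p)‖ ≤ δ ∧
        AnalyticAt ℂ ((stp (ε n) (gn n))^[j]) u := by
  -- the compact set `W`
  have hWc : IsCompact ((fun q : (ℂ × ℂ) × ℝ => tr (q.2 : ℂ) q.1) '' (K ×ˢ Icc 0 t)) :=
    (hK.prod isCompact_Icc).image Flow_cont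
  have hWΩ : (fun q : (ℂ × ℂ) × ℝ => tr (q.2 : ℂ) q.1) '' (K ×ˢ Icc 0 t) ⊆ Ω := by
    rintro _ ⟨q, ⟨hq1, hq2⟩, rfl⟩
    exact hKΩ q.1 hq1 q.2 hq2
  obtain ⟨W, hW⟩ : ∃ W : Set (ℂ × ℂ),
      W = (fun q : (ℂ × ℂ) × ℝ => tr (q.2 : ℂ) q.1) '' (K ×ˢ Icc 0 t) := ⟨_, rfl⟩
  rw [← hW] at hWc hWΩ
  have hmemW : ∀ p ∈ K, ∀ s ∈ Icc (0:ℝ) t, tr (s : ℂ) p ∈ W := by
    intro p hp s hs
    rw [hW]
    exact ⟨(p, s), ⟨hp, hs⟩, rfl⟩
  have hzc : ContinuousOn z Ω := fun x hx => (hz.z_an x hx).continuousAt.continuousWithinAt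
  have hzW : IsCompact (z '' W) := hWc.image_of_continuousOn (hzc.mono hWΩ)
  have hzWM : z '' W ⊆ M := by
    rintro _ ⟨q, hq, rfl⟩
    exact hz.maps q (hWΩ hq)
  obtain ⟨L, ρ, hL, hρ, -, hlip⟩ := hV.lip hzW hzWM
  have hE : 0 < (1 + t) * Real.exp (L * t) := mul_pos (by linarith) (Real.exp_pos _)
  obtain ⟨κ, hκ⟩ : ∃ κ : ℝ, κ = min δ ρ / ((1 + t) * Real.exp (L * t)) := ⟨_, rfl⟩
  have hκ0 : 0 < κ := by
    rw [hκ]
    exact div_pos (lt_min hδ hρ) hE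
  have hκE : κ * (1 + t) * Real.exp (L * t) = min δ ρ := by
    rw [hκ, mul_assoc]
    exact div_mul_cancel₀ _ hE.ne'
  refine ⟨κ, hκ0, ?_⟩
  filter_upwards [hlip, defect hV hz hWc hWΩ hκ0] with n h1 h2 p hp u hu j hj
  have hε := hV.ε_pos n
  have hji : ∀ i ≤ j, ((i * ε n : ℝ)) ∈ Icc (0:ℝ) t := by
    intro i hi
    refine ⟨by positivity, ?_⟩
    have h3 : (i : ℝ) ≤ j := by exact_mod_cast hi
    exact (mul_le_mul_of_nonneg_right h3 hε.le).trans hj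
  have hg := Pool.Agent.MP_ae5b4e_an_MT.gron (Φ := stp (ε n) (gn n))
    (x := fun i => z (tr ((i * ε n : ℝ) : ℂ) p)) (y := fun i => (stp (ε n) (gn n))^[i] u)
    (ε := ε n) (L := L) (κ := κ) (ρ := ρ) (s₀ := t) (J := j) hε hL.le hκ0.le hj
    (fun i hi => by
      have h3 := h2 _ (hmemW p hp _ (hji i hi.le))
      rw [tr_tr] at h3
      have h4 : ((ε n : ℝ) : ℂ) + ((i * ε n : ℝ) : ℂ) = (((i + 1 : ℕ) * ε n : ℝ) : ℂ) := by
        push_cast
        ring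
      rw [h4] at h3
      exact h3)
    (fun i hi w hw => by
      have h3 := h1.2 _ (mem_image_of_mem z (hmemW p hp _ (hji i hi.le))) w hw
      have h4 : stp (ε n) (gn n) w - stp (ε n) (gn n) (z (tr ((i * ε n : ℝ) : ℂ) p)) =
          (w - z (tr ((i * ε n : ℝ) : ℂ) p)) + ((ε n : ℝ) : ℂ) •
            (gn n w - gn n (z (tr ((i * ε n : ℝ) : ℂ) p))) := by
        unfold stp
        rw [smul_sub]
        abel
      rw [h4]
      refine (norm_add_le _ _).trans ?_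
      rw [norm_smul, Complex.norm_real, Real.norm_of_nonneg hε.le]
      have h5 := mul_le_mul_of_nonneg_left h3 hε.le
      linarith)
    (by
      simp only [Function.iterate_zero, id_eq, Nat.cast_zero, zero_mul, Complex.ofReal_zero,
        tr_zero]
      exact hu)
    (fun i _ _ => Function.iterate_succ_apply' _ _ _)
    (by
      rw [hκE]
      exact min_le_right _ _)
  rw [hκE] at hg
  refine ⟨(hg j le_rfl).trans (min_le_left _ _), ?_⟩
  -- analyticity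
  have han : ∀ i ≤ j, AnalyticAt ℂ ((stp (ε n) (gn n))^[i]) u := by
    intro i
    induction i with
    | zero =>
      intro _
      exact analyticAt_id
    | succ i ih =>
      intro hi
      have h3 := ih (by omega)
      have h4 := hg i (by omega)
      have h5 : (stp (ε n) (gn n))^[i] u ∈ cthickening ρ (z '' W) := by
        refine mem_cthickening_of_dist_le _ _ ρ _
          (mem_image_of_mem z (hmemW p hp _ (hji i (by omega)))) ?_
        rw [dist_eq_norm]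
        exact h4.trans (min_le_right _ _)
      have h60 : ∀ x, AnalyticAt ℂ (gn n) x → AnalyticAt ℂ (stp (ε n) (gn n)) x := by
        intro x hx
        have h61 : AnalyticAt ℂ (fun u => ((ε n : ℝ) : ℂ) • gn n u) x := analyticAt_const.fun_smul hx
        exact analyticAt_id.add h61
      have h6 : AnalyticAt ℂ (stp (ε n) (gn n)) ((stp (ε n) (gn n))^[i] u) := h60 _ (h1.1 _ h5)
      rw [Function.iterate_succ']
      exact h6.comp h3
  exact han j le_rfl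

/-- a chain of an exact family: `W n p = Φ^[j] (W n (tr (- j ε) p))`.

Proof. `K' := {tr (- s) p | p ∈ K, 0 ≤ s ≤ t}` is a compact subset of `O`; `Ex.eq` on `K'` and
induction on `j`: `W n (tr (- j ε) p) = Φ (W n (tr (- (j + 1) ε) p))` since
`tr ε (tr (- (j + 1) ε) p) = tr (- j ε) p`; `Function.iterate_succ_apply`. -/
theorem Ex.iter (h0 : ∀ n, 0 < ε n) {O : Set (ℂ × ℂ)} {W : ℕ → ℂ × ℂ → ℂ × ℂ} (hW : Ex U ε gn O z W)
    {K : Set (ℂ × ℂ)} (hK : IsCompact K) {t : ℝ} (ht : 0 ≤ t)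
    (hKO : ∀ p ∈ K, ∀ s ∈ Icc 0 t, tr (-(s : ℂ)) p ∈ O) :
    ∀ᶠ n in (U : Filter ℕ), ∀ p ∈ K, ∀ j : ℕ, j * ε n ≤ t →
      push (ε n) (gn n) j (W n) p = W n p := by
  have _ := ht
  have hcont : Continuous (fun q : (ℂ × ℂ) × ℝ => tr (-(q.2 : ℂ)) q.1) := by
    unfold tr
    fun_prop
  have hWc : IsCompact ((fun q : (ℂ × ℂ) × ℝ => tr (-(q.2 : ℂ)) q.1) '' (K ×ˢ Icc 0 t)) :=
    (hK.prod isCompact_Icc).image hcont
  have hWO : (fun q : (ℂ × ℂ) × ℝ => tr (-(q.2 : ℂ)) q.1) '' (K ×ˢ Icc 0 t) ⊆ O := by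
    rintro _ ⟨q, ⟨hq1, hq2⟩, rfl⟩
    exact hKO q.1 hq1 q.2 hq2
  filter_upwards [hW.eq _ hWO hWc] with n h1 p hp j
  induction j with
  | zero =>
    intro _
    unfold push
    simp [tr_zero]
  | succ j ih =>
    intro hj
    have hε := h0 n
    have hj' : (j : ℝ) * ε n ≤ t := by
      push_cast at hj
      linarith
    have h2 : tr (-((((j + 1 : ℕ) : ℝ) * ε n : ℝ) : ℂ)) p ∈
        (fun q : (ℂ × ℂ) × ℝ => tr (-(q.2 : ℂ)) q.1) '' (K ×ˢ Icc 0 t) :=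
      ⟨(p, ((j + 1 : ℕ) : ℝ) * ε n), ⟨hp, by positivity, hj⟩, rfl⟩
    have h3 := h1 _ h2
    rw [tr_tr] at h3
    have h4 : ((ε n : ℝ) : ℂ) + -((((j + 1 : ℕ) : ℝ) * ε n : ℝ) : ℂ) =
        -(((j : ℝ) * ε n : ℝ) : ℂ) := by
      push_cast
      ring
    rw [h4] at h3
    have h5 := ih hj'
    unfold push at h5 ⊢
    rw [Function.iterate_succ_apply, ← h3]
    exact h5

end Pool.Agent.MP_ae5b4e_an_A1
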