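import Pool.Agent.Lib.MP_ae5b4e_an_A1.Defs

/-! # A1: geometry of the slit box -/

noncomputable section

namespace Pool.Agent.MP_ae5b4e_an_A1

open Complex Set Filter Topology Metric

/-- the slit box in the coordinates `(τ, γ)`: vertical slits above the branch points `Tb (i + 1) γ` -/
def SB (g₀ r x₁ x₂ v₀ b : ℝ) (P : ℕ) (Tb : ℕ → ℂ → ℂ) : Set (ℂ × ℂ) :=
  {p | p.2 ∈ ball (g₀ : ℂ) r ∧ x₁ < p.1.re ∧ p.1.re < x₂ ∧ |p.1.im + v₀| < b ∧
    ∀ i < P, ¬(p.1.re = (Tb (i + 1) p.2).re ∧ (Tb (i + 1) p.2).im ≤ p.1.im)}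

/-- data of the slit box: boxes at the abscissas `X i`, branch points at `γ = g₀` on the line
`Im τ = - v₀` between them; `vi` = lower boundary function of the limit domain, `Vm` a continuous
majorant -/
structure Sd (vi Vm : ℂ → ℝ) (g₀ r x₁ x₂ v₀ b : ℝ) (P : ℕ) (Tb : ℕ → ℂ → ℂ) (X : ℕ → ℝ) : Prop where
  g_pos : 0 < g₀
  r_pos : 0 < r
  r_lt : r < g₀
  b_pos : 0 < b
  X_l : x₁ < X 0
  X_r : X P < x₂
  X_lt : ∀ i < P, X i < X (i + 1)
  Tb_cont : ∀ i < P, ContinuousOn (Tb (i + 1)) (ball (g₀ : ℂ) r)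
  Tb_im : ∀ i < P, (Tb (i + 1) g₀).im = -v₀
  Tb_l : ∀ i < P, X i < (Tb (i + 1) g₀).re
  Tb_r : ∀ i < P, (Tb (i + 1) g₀).re < X (i + 1)
  Vm_cont : ContinuousOn Vm (ball (g₀ : ℂ) r)
  vi_le : ∀ γ ∈ ball (g₀ : ℂ) r, vi γ ≤ Vm γ
  Tb_vi : ∀ i < P, ∀ γ ∈ ball (g₀ : ℂ) r, -(Tb (i + 1) γ).im ≤ vi γ
  v₀_le : v₀ ≤ Vm g₀

/-- the label heights -/
def TX (Vm : ℂ → ℝ) (g₀ : ℝ) (X : ℕ → ℝ) (i : ℕ) (γ : ℂ) : ℝ := (-Vm γ - X i / g₀ * γ.im) / γ.re

/-- the branch heights -/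
def YB (Tb : ℕ → ℂ → ℂ) (i : ℕ) (γ : ℂ) : ℝ := (Tb i γ / γ).im

theorem Geom_mono {vi Vm : ℂ → ℝ} {g₀ r x₁ x₂ v₀ b : ℝ} {P : ℕ} {Tb : ℕ → ℂ → ℂ} {X : ℕ → ℝ}
    (h : Sd vi Vm g₀ r x₁ x₂ v₀ b P Tb X) {i j : ℕ} (hij : i ≤ j) (hj : j ≤ P) : X i ≤ X j := by
  induction j, hij using Nat.le_induction with
  | base => exact le_rfl
  | succ k hk ih => exact (ih (by omega)).trans (h.X_lt k (by omega)).le

/-- Proof. `(x₁, x₂) × ball` and the strip are open; the slit over the ball is closed in the box: if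
`p_k → p` and `Re p_k.1 = Re Tb (p_k.2)`, `Im Tb (p_k.2) ≤ Im p_k.1` then the same for `p` (`Tb` continuous). -/
theorem isOpen_SB {vi Vm : ℂ → ℝ} {g₀ r x₁ x₂ v₀ b : ℝ} {P : ℕ} {Tb : ℕ → ℂ → ℂ} {X : ℕ → ℝ}
    (h : Sd vi Vm g₀ r x₁ x₂ v₀ b P Tb X) : IsOpen (SB g₀ r x₁ x₂ v₀ b P Tb) := by
  rw [isOpen_iff_mem_nhds]
  rintro p ⟨h1, h2, h3, h4, h5⟩
  have c1 : Continuous fun q : ℂ × ℂ => q.1.re := continuous_re.comp continuous_fst
  have c2 : Continuous fun q : ℂ × ℂ => q.1.im := continuous_im.comp continuous_fst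
  have e1 : ∀ᶠ q : ℂ × ℂ in 𝓝 p, q.2 ∈ ball (g₀ : ℂ) r :=
    (isOpen_ball.preimage continuous_snd).mem_nhds h1
  have e2 : ∀ᶠ q : ℂ × ℂ in 𝓝 p, x₁ < q.1.re := (isOpen_lt continuous_const c1).mem_nhds h2
  have e3 : ∀ᶠ q : ℂ × ℂ in 𝓝 p, q.1.re < x₂ := (isOpen_lt c1 continuous_const).mem_nhds h3
  have e4 : ∀ᶠ q : ℂ × ℂ in 𝓝 p, |q.1.im + v₀| < b :=
    (isOpen_lt (c2.add continuous_const).abs continuous_const).mem_nhds h4
  have e5 : ∀ᶠ q : ℂ × ℂ in 𝓝 p, ∀ i ∈ Finset.range P,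
      ¬(q.1.re = (Tb (i + 1) q.2).re ∧ (Tb (i + 1) q.2).im ≤ q.1.im) := by
    rw [Filter.eventually_all_finset]
    intro i hi
    have hi' := Finset.mem_range.1 hi
    have c3 : ContinuousAt (fun q : ℂ × ℂ => Tb (i + 1) q.2) p :=
      ContinuousAt.comp (f := Prod.snd) (g := Tb (i + 1))
        ((h.Tb_cont i hi').continuousAt (isOpen_ball.mem_nhds h1)) continuous_snd.continuousAt
    have c4 : ContinuousAt (fun q : ℂ × ℂ => (Tb (i + 1) q.2).re) p :=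
      continuous_re.continuousAt.comp c3
    have c5 : ContinuousAt (fun q : ℂ × ℂ => (Tb (i + 1) q.2).im) p :=
      continuous_im.continuousAt.comp c3
    by_cases hre : p.1.re = (Tb (i + 1) p.2).re
    · have him : p.1.im < (Tb (i + 1) p.2).im := by
        by_contra hc
        exact h5 i hi' ⟨hre, not_lt.1 hc⟩
      have := c2.continuousAt.eventually_lt c5 him
      filter_upwards [this] with q hq hq2
      exact absurd hq2.2 (not_le.2 hq)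
    · have : ∀ᶠ q : ℂ × ℂ in 𝓝 p, q.1.re - (Tb (i + 1) q.2).re ≠ 0 :=
        (c1.continuousAt.sub c4).eventually_ne (sub_ne_zero.2 hre)
      filter_upwards [this] with q hq hq2
      exact hq (sub_eq_zero.2 hq2.1)
  filter_upwards [e1, e2, e3, e4, e5] with q q1 q2 q3 q4 q5
  exact ⟨q1, q2, q3, q4, fun i hi => q5 i (Finset.mem_range.2 hi)⟩

/-- Fibres are connected. Proof. The fibre over `γ` is the rectangle `x₁ < Re < x₂`,
`|Im + v₀| < b` minus vertical half lines upwards: every point can be joined by a vertical segment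
downwards to the horizontal line at height `Im = y'` with `y'` in the rectangle and below the imaginary
parts of all `Tb (i + 1) γ` and of the point; the lower part `{τ | x₁ < Re τ < x₂, -v₀ - b < Im τ < y''}` with `y''` below
all `Im Tb` is convex. This needs that no slit fills a whole vertical segment of the rectangle: hypothesis
`hlow`: `- v₀ - b < Im (Tb (i + 1) γ)`. -/
theorem SB_conn {vi Vm : ℂ → ℝ} {g₀ r x₁ x₂ v₀ b : ℝ} {P : ℕ} {Tb : ℕ → ℂ → ℂ} {X : ℕ → ℝ}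
    (h : Sd vi Vm g₀ r x₁ x₂ v₀ b P Tb X) {γ : ℂ}
    (hlow : ∀ i < P, -v₀ - b < (Tb (i + 1) γ).im) :
    IsPreconnected {τ : ℂ | (τ, γ) ∈ SB g₀ r x₁ x₂ v₀ b P Tb} := by
  by_cases hγ : γ ∈ ball (g₀ : ℂ) r
  swap
  · have : {τ : ℂ | (τ, γ) ∈ SB g₀ r x₁ x₂ v₀ b P Tb} = ∅ :=
      Set.eq_empty_of_forall_notMem fun τ hτ => hγ hτ.1
    rw [this]
    exact isPreconnected_empty
  have hX : x₁ < x₂ := by
    have h1 := Geom_mono h (Nat.zero_le P) le_rfl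
    linarith [h.X_l, h.X_r]
  have hb := h.b_pos
  obtain ⟨m, hm1, hm2, hm3⟩ : ∃ m, -v₀ - b < m ∧ m < -v₀ + b ∧
      ∀ i < P, m < (Tb (i + 1) γ).im := by
    have e1 : ∀ᶠ m in 𝓝[>] (-v₀ - b), -v₀ - b < m := self_mem_nhdsWithin
    have e2 : ∀ᶠ m in 𝓝[>] (-v₀ - b), m < -v₀ + b :=
      mem_nhdsWithin_of_mem_nhds (Iio_mem_nhds (by linarith))
    have e3 : ∀ᶠ m in 𝓝[>] (-v₀ - b), ∀ i ∈ Finset.range P, m < (Tb (i + 1) γ).im := by
      rw [Filter.eventually_all_finset]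
      intro i hi
      exact mem_nhdsWithin_of_mem_nhds (Iio_mem_nhds (hlow i (Finset.mem_range.1 hi)))
    obtain ⟨m, q1, q2, q3⟩ := (e1.and (e2.and e3)).exists
    exact ⟨m, q1, q2, fun i hi => q3 i (Finset.mem_range.2 hi)⟩
  set Lw : Set ℂ := {τ | x₁ < τ.re ∧ τ.re < x₂ ∧ -v₀ - b < τ.im ∧ τ.im ≤ m} with hLw
  have hLwc : IsPreconnected Lw := by
    have e : Lw = ({τ : ℂ | x₁ < τ.re} ∩ {τ : ℂ | τ.re < x₂}) ∩
        ({τ : ℂ | -v₀ - b < τ.im} ∩ {τ : ℂ | τ.im ≤ m}) := by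
      ext τ
      simp only [hLw, Set.mem_ofPred_eq, Set.mem_inter_iff]
      tauto
    rw [e]
    exact (((convex_halfSpace_re_gt _).inter (convex_halfSpace_re_lt _)).inter
      ((convex_halfSpace_im_gt _).inter (convex_halfSpace_im_le _))).isPreconnected
  have hLwF : Lw ⊆ {τ : ℂ | (τ, γ) ∈ SB g₀ r x₁ x₂ v₀ b P Tb} := by
    rintro τ ⟨t1, t2, t3, t4⟩
    refine ⟨hγ, t1, t2, abs_lt.2 ⟨?_, ?_⟩, fun i hi ht => ?_⟩
    · show -b < τ.im + v₀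
      linarith
    · show τ.im + v₀ < b
      linarith
    · have := hm3 i hi
      have h2 : (Tb (i + 1) γ).im ≤ τ.im := ht.2
      linarith
  refine isPreconnected_of_forall (⟨(x₁ + x₂) / 2, m⟩ : ℂ) ?_
  have hx : (⟨(x₁ + x₂) / 2, m⟩ : ℂ) ∈ Lw := by
    refine ⟨?_, ?_, ?_, ?_⟩
    · show x₁ < (x₁ + x₂) / 2
      linarith
    · show (x₁ + x₂) / 2 < x₂
      linarith
    · exact hm1
    · exact le_rfl
  intro y hy
  obtain ⟨y1, y2, y3, y4, y5⟩ := hy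
  by_cases hym : y.im ≤ m
  · refine ⟨Lw, hLwF, hx, ⟨y2, y3, ?_, hym⟩, hLwc⟩
    have := (abs_lt.1 y4).1
    show -v₀ - b < y.im
    have h2 : -b < y.im + v₀ := this
    linarith
  · set Sg' : Set ℂ := {τ | τ.re = y.re ∧ m ≤ τ.im ∧ τ.im ≤ y.im} with hSg
    have hSc : IsPreconnected Sg' := by
      have e : Sg' = ({τ : ℂ | τ.re ≤ y.re} ∩ {τ : ℂ | y.re ≤ τ.re}) ∩
          ({τ : ℂ | m ≤ τ.im} ∩ {τ : ℂ | τ.im ≤ y.im}) := by
        ext τ
        simp only [hSg, Set.mem_ofPred_eq, Set.mem_inter_iff, le_antisymm_iff]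
      rw [e]
      exact (((convex_halfSpace_re_le _).inter (convex_halfSpace_re_ge _)).inter
        ((convex_halfSpace_im_ge _).inter (convex_halfSpace_im_le _))).isPreconnected
    have hSF : Sg' ⊆ {τ : ℂ | (τ, γ) ∈ SB g₀ r x₁ x₂ v₀ b P Tb} := by
      rintro τ ⟨t1, t2, t3⟩
      have h2 : y.im + v₀ < b := (abs_lt.1 y4).2
      refine ⟨hγ, ?_, ?_, abs_lt.2 ⟨?_, ?_⟩, fun i hi ht => y5 i hi ⟨?_, ?_⟩⟩
      · show x₁ < τ.re
        rw [t1]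
        exact y2
      · show τ.re < x₂
        rw [t1]
        exact y3
      · show -b < τ.im + v₀
        linarith
      · show τ.im + v₀ < b
        linarith
      · exact t1.symm.trans ht.1
      · exact ht.2.trans t3
    refine ⟨Lw ∪ Sg', Set.union_subset hLwF hSF, Or.inl hx, Or.inr ⟨rfl, (not_le.1 hym).le,
      le_rfl⟩, ?_⟩
    exact IsPreconnected.union (⟨y.re, m⟩ : ℂ) ⟨y2, y3, hm1, le_rfl⟩
      ⟨rfl, le_rfl, (not_le.1 hym).le⟩ hLwc hSc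

/-- THE GEOMETRY of the slit box in the coordinates `(θ, γ)`.

Proof. `y₀ := - v₀ / g₀`, `a i := X i / g₀`. At `γ = g₀` and `s ∈ [a i, a (i + 1)]`, `y` near `y₀`:
`(s + i y) g₀` has real part `s g₀ ∈ [X i, X (i + 1)]` and imaginary part near `- v₀`. Choose `y₁ < y₀` and
`r' > 0` (`r' < r`) such that for all `γ ∈ closedBall g₀ r'` (compactness / explicit estimates
`|(s + i y) (γ - g₀)| ≤ (|s| + |y|) r'`):
(a) `|Im ((s + i y) γ) + v₀| < b` for `s ∈ [a 0, a P]`, `y₁ ≤ y ≤ max y₀ (sup of YB (i + 1) γ, TX i γ)`: all of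
these suprema tend to values `≤ y₀` as `r' → 0` (`TX i g₀ = - Vm g₀ / g₀ ≤ y₀`, `YB (i + 1) g₀ = y₀`), so put
`y₂ := y₀ + b / (4 g₀)` as common upper bound, `y₁ := y₀ - b / (4 g₀)`;
(b) `Re ((a i + i y) γ)` is within `κ` of `X i`, `Re Tb (j + 1) γ` within `κ` of `Re Tb (j + 1) g₀`, `κ` less than a
quarter of all distances between the `X i`, `Re Tb (j + 1) g₀`, `x₁`, `x₂`; `Re γ > 0`.
`box`, and the real parts in `pass`, `labs`, `labp`: for `s ∈ [a i, a (i + 1)]` the real part of `(s + i y) γ` is in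
`[X i - κ, X (i + 1) + κ]`, so it can meet only the slit number `i + 1`, and at `s = a i` none.
`pass`: let `τ := (s + i y) γ`, `Re τ = Re Tb`, `Tb := Tb (i + 1) γ`, `y < Im (Tb / γ)`: `d := τ / γ - Tb / γ` has
`Im d < 0` and `d γ = i κ'` with `κ' = Im τ - Im Tb` real; `Im d = Im (i κ' / γ) = κ' Re γ / |γ|²`, so `κ' < 0`: not
in the slit. `labs`: `Im ((a i + i y) γ) = a i Im γ + y Re γ < - Vm γ ≤ - vi γ` iff `y < TX i γ`; and it is not in
a slit by (b). `labp`: `Im ((s + i y) γ) = s Im γ + y Re γ` is affine in `s` and `< - Vm γ` at both ends, so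
`< - vi γ ≤ Im Tb (i + 1) γ` on `[a i, a (i + 1)]`, in particular not in the slit number `i + 1`.
`T_cont`, `Y_cont`: quotients of continuous functions, `Re γ > 0`. -/
theorem geo_slit {vi Vm : ℂ → ℝ} {g₀ r x₁ x₂ v₀ b : ℝ} {P : ℕ} {Tb : ℕ → ℂ → ℂ} {X : ℕ → ℝ}
    (h : Sd vi Vm g₀ r x₁ x₂ v₀ b P Tb X) :
    ∃ r' y₁ : ℝ, r' < r ∧ Geo {p | (p.1 * p.2, p.2) ∈ SB g₀ r x₁ x₂ v₀ b P Tb}
      {p | (p.1 * p.2, p.2) ∈ SB g₀ r x₁ x₂ v₀ b P Tb ∧ (p.1 * p.2, p.2) ∈ {p : ℂ × ℂ | p.1.im < -vi p.2}}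
      (g₀ : ℂ) r' (-v₀ / g₀) y₁ P (fun i => X i / g₀) (TX Vm g₀ X) (YB Tb) := by
  have hg := h.g_pos
  have hb := h.b_pos
  have hg' : (g₀ : ℝ) ≠ 0 := hg.ne'
  have hbg : 0 < b / (4 * g₀) := by positivity
  obtain ⟨y₀, hy₀⟩ : ∃ y₀, y₀ = -v₀ / g₀ := ⟨_, rfl⟩
  obtain ⟨y₁, hy₁⟩ : ∃ y₁, y₁ = y₀ - b / (4 * g₀) := ⟨_, rfl⟩
  obtain ⟨y₂, hy₂⟩ : ∃ y₂, y₂ = y₀ + b / (4 * g₀) := ⟨_, rfl⟩
  have hy₀g : y₀ * g₀ = -v₀ := by
    rw [hy₀]
    field_simp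
  have hbg4 : b / (4 * g₀) * g₀ = b / 4 := by
    field_simp
  -- the distance `κ`
  obtain ⟨κ, hκ0, hκl, hκr, hκ⟩ : ∃ κ : ℝ, 0 < κ ∧ κ ≤ X 0 - x₁ ∧ κ ≤ x₂ - X P ∧
      ∀ j < P, 2 * κ ≤ (Tb (j + 1) g₀).re - X j ∧ 2 * κ ≤ X (j + 1) - (Tb (j + 1) g₀).re := by
    have hsm : ∀ c : ℝ, 0 < c → ∀ᶠ κ : ℝ in 𝓝[>] 0, 2 * κ ≤ c := by
      intro c hc
      refine mem_nhdsWithin_of_mem_nhds ?_
      filter_upwards [Iio_mem_nhds (show (0 : ℝ) < c / 2 by linarith)] with κ hκ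
      have : κ < c / 2 := hκ
      linarith
    have e0 : ∀ᶠ κ : ℝ in 𝓝[>] 0, 0 < κ := self_mem_nhdsWithin
    have e1 := hsm (X 0 - x₁) (by linarith [h.X_l])
    have e2 := hsm (x₂ - X P) (by linarith [h.X_r])
    have e3 : ∀ᶠ κ : ℝ in 𝓝[>] 0, ∀ j ∈ Finset.range P,
        2 * κ ≤ (Tb (j + 1) g₀).re - X j ∧ 2 * κ ≤ X (j + 1) - (Tb (j + 1) g₀).re := by
      rw [Filter.eventually_all_finset]
      intro j hj
      have hj' := Finset.mem_range.1 hj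
      exact (hsm _ (by linarith [h.Tb_l j hj'])).and (hsm _ (by linarith [h.Tb_r j hj']))
    obtain ⟨κ, q0, q1, q2, q3⟩ := (e0.and (e1.and (e2.and e3))).exists
    exact ⟨κ, q0, by linarith, by linarith, fun j hj => q3 j (Finset.mem_range.2 hj)⟩
  obtain ⟨M, hM⟩ : ∃ M, M = |X 0 / g₀| + |X P / g₀| + (|y₁| + |y₂|) := ⟨_, rfl⟩
  have hball : ball (g₀ : ℂ) r ∈ 𝓝 (g₀ : ℂ) := ball_mem_nhds _ h.r_pos
  have hTXg : ∀ i ≤ P, TX Vm g₀ X i g₀ ≤ y₀ := by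
    intro i _
    unfold TX
    rw [ofReal_im, ofReal_re, mul_zero, sub_zero, hy₀]
    exact div_le_div_of_nonneg_right (by linarith [h.v₀_le]) hg.le
  have hYBg : ∀ i < P, YB Tb (i + 1) g₀ ≤ y₀ := by
    intro i hi
    unfold YB
    rw [div_ofReal_im, h.Tb_im i hi, hy₀]
  have hnr : ∀ γ ∈ ball (g₀ : ℂ) r, 0 < γ.re := by
    intro γ hγ
    have h1 : ‖γ - g₀‖ < r := by simpa [dist_eq_norm] using hγ
    have h2 := (abs_le.1 (abs_re_le_norm (γ - g₀))).1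
    rw [sub_re, ofReal_re] at h2
    linarith [h.r_lt]
  have hTXc : ∀ i ≤ P, ContinuousOn (TX Vm g₀ X i) (ball (g₀ : ℂ) r) := by
    intro i _
    unfold TX
    exact (h.Vm_cont.neg.sub (continuousOn_const.mul continuous_im.continuousOn)).div
      continuous_re.continuousOn fun γ hγ => (hnr γ hγ).ne'
  have hYBc : ∀ i < P, ContinuousOn (YB Tb (i + 1)) (ball (g₀ : ℂ) r) := by
    intro i hi
    unfold YB
    refine continuous_im.comp_continuousOn ((h.Tb_cont i hi).div continuousOn_id fun γ hγ => ?_)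
    intro h0
    have := hnr γ hγ
    have h1 : γ = 0 := h0
    rw [h1, zero_re] at this
    exact lt_irrefl _ this
  have hMt : Tendsto (fun γ : ℂ => M * ‖γ - g₀‖) (𝓝 (g₀ : ℂ)) (𝓝 0) := by
    have hc : Continuous fun γ : ℂ => M * ‖γ - g₀‖ := by fun_prop
    have := hc.tendsto (g₀ : ℂ)
    simpa using this
  have E : ∀ᶠ γ : ℂ in 𝓝 (g₀ : ℂ), γ ∈ ball (g₀ : ℂ) r ∧ M * ‖γ - g₀‖ < κ ∧
      M * ‖γ - g₀‖ < b / 2 ∧
      (∀ j ∈ Finset.range P, |(Tb (j + 1) γ).re - (Tb (j + 1) g₀).re| < κ) ∧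
      (∀ i ∈ Finset.range (P + 1), TX Vm g₀ X i γ < y₂) ∧
      (∀ i ∈ Finset.range P, YB Tb (i + 1) γ < y₂) := by
    refine (Filter.eventually_mem_set.2 hball).and ((hMt.eventually_lt_const hκ0).and
      ((hMt.eventually_lt_const (by linarith)).and (Filter.Eventually.and ?_
        (Filter.Eventually.and ?_ ?_))))
    · rw [Filter.eventually_all_finset]
      intro j hj
      have c1 : ContinuousAt (fun γ : ℂ => |(Tb (j + 1) γ).re - (Tb (j + 1) g₀).re|)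
          (g₀ : ℂ) := by
        have c0 := (h.Tb_cont j (Finset.mem_range.1 hj)).continuousAt hball
        exact ((continuous_re.continuousAt.comp c0).sub continuousAt_const).abs
      have c2 : |(Tb (j + 1) (g₀ : ℂ)).re - (Tb (j + 1) g₀).re| < κ := by
        rw [sub_self, abs_zero]
        exact hκ0
      exact c1.tendsto.eventually_lt_const c2
    · rw [Filter.eventually_all_finset]
      intro i hi
      have hi' : i ≤ P := by
        have := Finset.mem_range.1 hi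
        omega
      exact ((hTXc i hi').continuousAt hball).tendsto.eventually_lt_const
        (by linarith [hTXg i hi'])
    · rw [Filter.eventually_all_finset]
      intro i hi
      have hi' := Finset.mem_range.1 hi
      exact ((hYBc i hi').continuousAt hball).tendsto.eventually_lt_const
        (by linarith [hYBg i hi'])
  obtain ⟨r₀, hr₀, hr₀'⟩ := Metric.nhds_basis_closedBall.mem_iff.1 E
  obtain ⟨r', hr'0, hr'r, hr'⟩ : ∃ r', 0 < r' ∧ r' < r ∧ closedBall (g₀ : ℂ) r' ⊆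
      closedBall (g₀ : ℂ) r₀ := by
    refine ⟨min r₀ (r / 2), lt_min hr₀ (by linarith [h.r_pos]), ?_,
      closedBall_subset_closedBall (min_le_left _ _)⟩
    exact lt_of_le_of_lt (min_le_right _ _) (by linarith [h.r_pos])
  have hcb : closedBall (g₀ : ℂ) r' ⊆ ball (g₀ : ℂ) r := closedBall_subset_ball hr'r
  -- the basic estimates
  have core : ∀ γ ∈ closedBall (g₀ : ℂ) r', ∀ s y : ℝ, X 0 / g₀ ≤ s → s ≤ X P / g₀ → y₁ ≤ y →
      y ≤ y₂ → |((⟨s, y⟩ : ℂ) * γ).re - s * g₀| < κ ∧ x₁ < ((⟨s, y⟩ : ℂ) * γ).re ∧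
        ((⟨s, y⟩ : ℂ) * γ).re < x₂ ∧ |((⟨s, y⟩ : ℂ) * γ).im + v₀| < b := by
    intro γ hγ s y hs1 hs2 hy1 hy2
    obtain ⟨-, e1, e2, -⟩ := hr₀' (hr' hγ)
    have hs : |s| ≤ |X 0 / g₀| + |X P / g₀| := by
      refine abs_le.2 ⟨?_, ?_⟩
      · have := neg_abs_le (X 0 / g₀)
        linarith [abs_nonneg (X P / g₀)]
      · have := le_abs_self (X P / g₀)
        linarith [abs_nonneg (X 0 / g₀)]
    have hy : |y| ≤ |y₁| + |y₂| := by
      refine abs_le.2 ⟨?_, ?_⟩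
      · have := neg_abs_le y₁
        linarith [abs_nonneg y₂]
      · have := le_abs_self y₂
        linarith [abs_nonneg y₁]
    have hγ1 : |γ.re - g₀| ≤ ‖γ - g₀‖ := by
      have := abs_re_le_norm (γ - g₀)
      rwa [sub_re, ofReal_re] at this
    have hγ2 : |γ.im| ≤ ‖γ - g₀‖ := by
      have := abs_im_le_norm (γ - g₀)
      rwa [sub_im, ofReal_im, sub_zero] at this
    have hn := norm_nonneg (γ - g₀)
    have hsy : (|s| + |y|) * ‖γ - g₀‖ ≤ M * ‖γ - g₀‖ :=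
      mul_le_mul_of_nonneg_right (by rw [hM]; exact add_le_add hs hy) hn
    have k1 := mul_le_mul_of_nonneg_left hγ1 (abs_nonneg s)
    have k2 := mul_le_mul_of_nonneg_left hγ2 (abs_nonneg s)
    have k3 := mul_le_mul_of_nonneg_left hγ1 (abs_nonneg y)
    have k4 := mul_le_mul_of_nonneg_left hγ2 (abs_nonneg y)
    have hre : |((⟨s, y⟩ : ℂ) * γ).re - s * g₀| ≤ (|s| + |y|) * ‖γ - g₀‖ := by
      have h1 : ((⟨s, y⟩ : ℂ) * γ).re - s * g₀ = s * (γ.re - g₀) - y * γ.im := by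
        rw [mul_re]
        ring
      rw [h1]
      refine (abs_sub _ _).trans ?_
      rw [abs_mul, abs_mul]
      linarith
    have him : |((⟨s, y⟩ : ℂ) * γ).im - y * g₀| ≤ (|s| + |y|) * ‖γ - g₀‖ := by
      have h1 : ((⟨s, y⟩ : ℂ) * γ).im - y * g₀ = s * γ.im + y * (γ.re - g₀) := by
        rw [mul_im]
        ring
      rw [h1]
      refine (abs_add_le _ _).trans ?_
      rw [abs_mul, abs_mul]
      linarith
    have hκ1 := (hre.trans hsy).trans_lt e1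
    have hb1 := abs_lt.1 ((him.trans hsy).trans_lt e2)
    have hκ2 := abs_lt.1 hκ1
    have s1 : X 0 ≤ s * g₀ := (div_le_iff₀ hg).1 hs1
    have s2 : s * g₀ ≤ X P := (le_div_iff₀ hg).1 hs2
    have z1 : y₁ * g₀ ≤ y * g₀ := mul_le_mul_of_nonneg_right hy1 hg.le
    have z2 : y * g₀ ≤ y₂ * g₀ := mul_le_mul_of_nonneg_right hy2 hg.le
    rw [hy₁, sub_mul, hy₀g, hbg4] at z1
    rw [hy₂, add_mul, hy₀g, hbg4] at z2
    refine ⟨hκ1, by linarith [hκ2.1], by linarith [hκ2.2], abs_lt.2 ⟨?_, ?_⟩⟩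
    · linarith [hb1.1]
    · linarith [hb1.2]
  have hmono : ∀ i j, i ≤ j → j ≤ P → X i ≤ X j := fun i j hij hj => Geom_mono h hij hj
  have ale : ∀ i j, i ≤ j → j ≤ P → X i / g₀ ≤ X j / g₀ := fun i j hij hj =>
    div_le_div_of_nonneg_right (hmono i j hij hj) hg.le
  have slitL : ∀ γ ∈ closedBall (g₀ : ℂ) r', ∀ s y : ℝ, s ≤ X P / g₀ → y₁ ≤ y →
      y ≤ y₂ → ∀ i ≤ P, X i / g₀ ≤ s → ∀ j < i,
        (Tb (j + 1) γ).re < ((⟨s, y⟩ : ℂ) * γ).re := by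
    intro γ hγ s y hs2 hy1 hy2 i hi hs j hj
    have hjP : j < P := by omega
    obtain ⟨e1, -⟩ := core γ hγ s y ((ale 0 i (Nat.zero_le _) hi).trans hs) hs2 hy1 hy2
    obtain ⟨-, -, -, e2, -⟩ := hr₀' (hr' hγ)
    have e3 := (abs_lt.1 (e2 j (Finset.mem_range.2 hjP))).2
    have e4 := (hκ j hjP).2
    have e5 := (abs_lt.1 e1).1
    have e6 : X i ≤ s * g₀ := (div_le_iff₀ hg).1 hs
    have e7 := hmono (j + 1) i hj hi
    linarith
  have slitR : ∀ γ ∈ closedBall (g₀ : ℂ) r', ∀ s y : ℝ, X 0 / g₀ ≤ s → y₁ ≤ y →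
      y ≤ y₂ → ∀ i, s ≤ X i / g₀ → ∀ j, i ≤ j → j < P →
        ((⟨s, y⟩ : ℂ) * γ).re < (Tb (j + 1) γ).re := by
    intro γ hγ s y hs1 hy1 hy2 i hs j hij hjP
    obtain ⟨e1, -⟩ := core γ hγ s y hs1 (hs.trans (ale i P (by omega) le_rfl)) hy1 hy2
    obtain ⟨-, -, -, e2, -⟩ := hr₀' (hr' hγ)
    have e3 := (abs_lt.1 (e2 j (Finset.mem_range.2 hjP))).1
    have e4 := (hκ j hjP).1
    have e5 := (abs_lt.1 e1).2
    have e6 : s * g₀ ≤ X i := (le_div_iff₀ hg).1 hs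
    have e7 := hmono i j hij hjP.le
    linarith
  -- membership at the abscissas
  have atA : ∀ γ ∈ closedBall (g₀ : ℂ) r', ∀ i ≤ P, ∀ y : ℝ, y₁ ≤ y → y ≤ y₂ →
      ((⟨X i / g₀, y⟩ : ℂ) * γ, γ) ∈ SB g₀ r x₁ x₂ v₀ b P Tb := by
    intro γ hγ i hi y hy1 hy2
    have a1 := ale 0 i (Nat.zero_le _) hi
    have a2 := ale i P hi le_rfl
    obtain ⟨-, c2, c3, c4⟩ := core γ hγ (X i / g₀) y a1 a2 hy1 hy2
    refine ⟨hcb hγ, c2, c3, c4, fun j hj hc => ?_⟩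
    have hc1 : ((⟨X i / g₀, y⟩ : ℂ) * γ).re = (Tb (j + 1) γ).re := hc.1
    rcases lt_or_ge j i with hji | hji
    · exact absurd hc1 (slitL γ hγ (X i / g₀) y a2 hy1 hy2 i hi le_rfl j hji).ne'
    · exact absurd hc1 (slitR γ hγ (X i / g₀) y a1 hy1 hy2 i le_rfl j hji hj).ne
  -- membership on the segments
  have atS : ∀ γ ∈ closedBall (g₀ : ℂ) r', ∀ i < P, ∀ s y : ℝ, X i / g₀ ≤ s →
      s ≤ X (i + 1) / g₀ → y₁ ≤ y → y ≤ y₂ →
      (((⟨s, y⟩ : ℂ) * γ).re = (Tb (i + 1) γ).re →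
        ((⟨s, y⟩ : ℂ) * γ).im < (Tb (i + 1) γ).im) →
      ((⟨s, y⟩ : ℂ) * γ, γ) ∈ SB g₀ r x₁ x₂ v₀ b P Tb := by
    intro γ hγ i hi s y hs1 hs2 hy1 hy2 hsl
    have a1 := (ale 0 i (Nat.zero_le _) hi.le).trans hs1
    have a2 := hs2.trans (ale (i + 1) P hi le_rfl)
    obtain ⟨-, c2, c3, c4⟩ := core γ hγ s y a1 a2 hy1 hy2
    refine ⟨hcb hγ, c2, c3, c4, fun j hj hc => ?_⟩
    have hc1 : ((⟨s, y⟩ : ℂ) * γ).re = (Tb (j + 1) γ).re := hc.1
    have hc2 : (Tb (j + 1) γ).im ≤ ((⟨s, y⟩ : ℂ) * γ).im := hc.2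
    rcases lt_trichotomy j i with hji | hji | hji
    · exact absurd hc1 (slitL γ hγ s y a2 hy1 hy2 i hi.le hs1 j hji).ne'
    · subst hji
      exact absurd hc2 (not_le.2 (hsl hc1))
    · exact absurd hc1 (slitR γ hγ s y a1 hy1 hy2 (i + 1) hs2 j hji hj).ne
  have himag : ∀ (γ : ℂ) (s y : ℝ), ((⟨s, y⟩ : ℂ) * γ).im = s * γ.im + y * γ.re := by
    intro γ s y
    rw [mul_im]
  have hTX : ∀ γ ∈ closedBall (g₀ : ℂ) r', ∀ i, ∀ y : ℝ, y < TX Vm g₀ X i γ →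
      X i / g₀ * γ.im + y * γ.re < -Vm γ := by
    intro γ hγ i y hy
    have h1 : y * γ.re < -Vm γ - X i / g₀ * γ.im := (lt_div_iff₀ (hnr γ (hcb hγ))).1 hy
    linarith
  rw [← hy₀]
  refine ⟨r', y₁, hr'r, ?_⟩
  refine
    { r_pos := hr'0
      y_lt := by rw [hy₁]; linarith
      a_lt := fun i hi => div_lt_div_of_pos_right (h.X_lt i hi) hg
      T_cont := fun i hi => (hTXc i hi).mono hcb
      Y_cont := fun i hi => (hYBc i hi).mono hcb
      T_le := hTXg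
      Y_le := hYBg
      box := fun i hi γ hγ => atA γ hγ i hi y₀ (by rw [hy₁]; linarith) (by rw [hy₂]; linarith)
      pass := ?_
      labs := ?_
      labp := ?_ }
  · intro i hi γ hγ y hy1 hy s hs
    obtain ⟨-, -, -, -, -, e6⟩ := hr₀' (hr' hγ)
    have hy2 := (e6 i (Finset.mem_range.2 hi)).le
    refine atS γ hγ i hi s y hs.1 hs.2 hy1 (hy.le.trans hy2) fun hre => ?_
    have hn : 0 < normSq γ := by
      rw [normSq_pos]
      intro h0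
      have := hnr γ (hcb hγ)
      rw [h0, zero_re] at this
      exact lt_irrefl _ this
    have h1 : y < (Tb (i + 1) γ / γ).im := hy
    rw [div_im, ← sub_div, lt_div_iff₀ hn, normSq_apply, ← hre, mul_re] at h1
    rw [himag]
    have hγ0 := hnr γ (hcb hγ)
    have h2 : (s * γ.im + y * γ.re) * γ.re < (Tb (i + 1) γ).im * γ.re := by
      simp only at h1
      linarith
    exact lt_of_mul_lt_mul_right h2 hγ0.le
  · intro i hi γ hγ y hy1 hy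
    obtain ⟨-, -, -, -, e5, -⟩ := hr₀' (hr' hγ)
    have hy2 := (e5 i (Finset.mem_range.2 (by omega))).le
    have hm := atA γ hγ i hi y hy1 (hy.le.trans hy2)
    refine ⟨hm, ?_⟩
    show ((⟨X i / g₀, y⟩ : ℂ) * γ).im < -vi γ
    rw [himag]
    have h1 := hTX γ hγ i y hy
    have h2 := h.vi_le γ (hcb hγ)
    linarith
  · intro i hi γ hγ y hy1 hya hyb s hs
    obtain ⟨-, -, -, -, e5, -⟩ := hr₀' (hr' hγ)
    have hy2 := (e5 i (Finset.mem_range.2 (by omega))).le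
    have him : ((⟨s, y⟩ : ℂ) * γ).im < -vi γ := by
      rw [himag]
      have h1 := hTX γ hγ i y hya
      have h3 := hTX γ hγ (i + 1) y hyb
      have h2 := h.vi_le γ (hcb hγ)
      rcases le_total 0 γ.im with h4 | h4
      · have := mul_le_mul_of_nonneg_right hs.2 h4
        linarith
      · have := mul_le_mul_of_nonpos_right hs.1 h4
        linarith
    refine ⟨atS γ hγ i hi s y hs.1 hs.2 hy1 (hya.le.trans hy2) fun _ => ?_, him⟩
    have h5 := h.Tb_vi i hi γ (hcb hγ)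
    linarith

end Pool.Agent.MP_ae5b4e_an_A1
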