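import Pool.Agent.Lib.MP_ae5b4e_an_A1.Fld
import Pool.Agent.Lib.MP_ae5b4e_an_MT.Chn

/-! # A1: the true labels are an exact family -/

noncomputable section

namespace Pool.Agent.MP_ae5b4e_an_A1

open Complex Set Filter Topology Metric
open Pool.Agent.MP_ae5b4e_an_NB2 (Sys)
open Pool.Agent.MP_ae5b4e_an_MT (LS Stp GG)
open PorTR (Hm)

private theorem Lab_tr (t : ℝ) (p : ℂ × ℂ) :
    ((tr (t : ℂ) p).1 * (tr (t : ℂ) p).2, (tr (t : ℂ) p).2) =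
      Pool.Agent.MP_ae5b4e_an_MT.Sh t (p.1 * p.2, p.2) := by
  rw [tr_fst, tr_snd]
  refine Prod.ext ?_ rfl
  show (p.1 + t) * p.2 = p.1 * p.2 + t * p.2
  ring

private theorem Lab_an (p : ℂ × ℂ) : AnalyticAt ℂ (fun p : ℂ × ℂ => (p.1 * p.2, p.2)) p :=
  (analyticAt_fst.mul analyticAt_snd).prod analyticAt_snd

/-- the partial derivative -/
private theorem Lab_deriv {f : ℂ × ℂ → ℂ} {q : ℂ × ℂ} (hf : AnalyticAt ℂ f q) :
    q.2 * deriv (fun s => f (s, q.2)) q.1 = fderiv ℂ f q (q.2, 0) := by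
  have h1 : HasFDerivAt f (fderiv ℂ f q) (q.1, q.2) := hf.differentiableAt.hasFDerivAt
  have h2 : HasDerivAt (fun s : ℂ => (s, q.2)) (1, 0) q.1 :=
    (hasDerivAt_id q.1).prodMk (hasDerivAt_const q.1 q.2)
  have h3 : HasDerivAt (fun s => f (s, q.2)) (fderiv ℂ f q (1, 0)) q.1 :=
    HasFDerivAt.comp_hasDerivAt (f := fun s : ℂ => (s, q.2)) q.1 h1 h2
  rw [h3.deriv]
  have e : ((q.2, 0) : ℂ × ℂ) = q.2 • ((1, 0) : ℂ × ℂ) := by
    refine Prod.ext ?_ ?_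
    · show q.2 = q.2 * 1
      rw [mul_one]
    · show (0:ℂ) = q.2 * 0
      rw [mul_zero]
  rw [e, map_smul, smul_eq_mul]

/-- the difference quotients of an analytic function converge on compact sets -/
private theorem Lab_unif {U : Ultrafilter ℕ} {ε : ℕ → ℝ} (h0 : ∀ n, 0 < ε n)
    (h1 : Tendsto ε U (𝓝 0)) {DI : Set (ℂ × ℂ)} (hD : IsOpen DI) {LI : ℂ × ℂ → ℂ}
    (hL : AnalyticOnNhd ℂ LI DI) {K : Set (ℂ × ℂ)} (hK : IsCompact K) (hKD : K ⊆ DI) {δ : ℝ}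
    (hδ : 0 < δ) : ∀ᶠ n in (U : Filter ℕ), ∀ q ∈ K,
      ‖(LI (Pool.Agent.MP_ae5b4e_an_MT.Sh (ε n) q) - LI q) / (ε n : ℂ) -
        fderiv ℂ LI q (q.2, 0)‖ ≤ δ := by
  obtain ⟨ρ, hρ, hρD⟩ := hK.exists_cthickening_subset_open hD hKD
  have hK1 : IsCompact (cthickening ρ K) := hK.cthickening
  have hcont : ContinuousOn (fun q : ℂ × ℂ => fderiv ℂ LI q (q.2, 0)) DI := by
    have h2 : ContinuousOn (fderiv ℂ LI) DI := hL.fderiv.continuousOn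
    have h3 : Continuous (fun q : ℂ × ℂ => ((q.2, 0) : ℂ × ℂ)) := by fun_prop
    exact h2.clm_apply h3.continuousOn
  have huc := hK1.uniformContinuousOn_of_continuous (hcont.mono hρD)
  obtain ⟨κ, hκ, hκu⟩ := Metric.uniformContinuousOn_iff.1 huc δ hδ
  obtain ⟨G, hG⟩ := hK.exists_bound_of_continuousOn (f := fun p : ℂ × ℂ => p.2)
    continuous_snd.continuousOn
  have hG0 : 0 < |G| + 1 := by positivity
  have hm : 0 < min ρ κ / (|G| + 1) := div_pos (lt_min hρ hκ) hG0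
  filter_upwards [h1.eventually (gt_mem_nhds hm)] with n hn q hq
  have hεn := h0 n
  have hεc : (ε n : ℂ) ≠ 0 := by exact_mod_cast hεn.ne'
  have hsmall : ∀ s ∈ Icc (0:ℝ) (ε n), s * ‖q.2‖ < min ρ κ := by
    intro s hs
    have h2 : ‖q.2‖ ≤ |G| := (hG q hq).trans (le_abs_self G)
    have h3 : s * ‖q.2‖ ≤ ε n * |G| := mul_le_mul hs.2 h2 (norm_nonneg _) hεn.le
    have h4 : ε n * (|G| + 1) < min ρ κ := (lt_div_iff₀ hG0).1 hn
    linarith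
  have hdist : ∀ s ∈ Icc (0:ℝ) (ε n),
      dist (Pool.Agent.MP_ae5b4e_an_MT.Sh s q) q < min ρ κ := by
    intro s hs
    have e : Pool.Agent.MP_ae5b4e_an_MT.Sh s q - q = ((s : ℂ) * q.2, 0) := by
      ext <;> simp [Pool.Agent.MP_ae5b4e_an_MT.Sh]
    rw [dist_eq_norm, e, Prod.norm_mk, norm_zero, norm_mul, Complex.norm_real,
      Real.norm_of_nonneg hs.1, max_eq_left (mul_nonneg hs.1 (norm_nonneg _))]
    exact hsmall s hs
  have hmemK : ∀ s ∈ Icc (0:ℝ) (ε n), Pool.Agent.MP_ae5b4e_an_MT.Sh s q ∈ cthickening ρ K :=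
    fun s hs => mem_cthickening_of_dist_le _ q ρ K hq
      ((hdist s hs).le.trans (min_le_left _ _))
  have hqK : q ∈ cthickening ρ K := self_subset_cthickening K hq
  have hd : ∀ s ∈ Icc (0:ℝ) (ε n), HasDerivWithinAt
      (fun s : ℝ => LI (Pool.Agent.MP_ae5b4e_an_MT.Sh s q) - s • fderiv ℂ LI q (q.2, 0))
      (fderiv ℂ LI (Pool.Agent.MP_ae5b4e_an_MT.Sh s q) (q.2, 0) - fderiv ℂ LI q (q.2, 0))
      (Icc (0:ℝ) (ε n)) s := by
    intro s hs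
    have h2 : HasFDerivAt LI (fderiv ℂ LI (Pool.Agent.MP_ae5b4e_an_MT.Sh s q))
        (Pool.Agent.MP_ae5b4e_an_MT.Sh s q) :=
      (hL _ (hρD (hmemK s hs))).differentiableAt.hasFDerivAt
    have h3 : HasDerivAt (fun s : ℝ => Pool.Agent.MP_ae5b4e_an_MT.Sh s q)
        ((q.2, 0) : ℂ × ℂ) s := by
      have h4 : HasDerivAt (fun s : ℝ => (s : ℂ)) 1 s := Complex.ofRealCLM.hasDerivAt
      have h5 : HasDerivAt (fun s : ℝ => q.1 + (s : ℂ) * q.2) q.2 s := by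
        have h6 := (h4.mul_const q.2).const_add q.1
        rwa [one_mul] at h6
      exact h5.prodMk (hasDerivAt_const s q.2)
    have h4 : HasDerivAt (fun s : ℝ => LI (Pool.Agent.MP_ae5b4e_an_MT.Sh s q))
        (fderiv ℂ LI (Pool.Agent.MP_ae5b4e_an_MT.Sh s q) (q.2, 0)) s :=
      HasFDerivAt.comp_hasDerivAt (f := fun s : ℝ => Pool.Agent.MP_ae5b4e_an_MT.Sh s q) s
        (h2.restrictScalars ℝ) h3
    have h5 : HasDerivAt (fun s : ℝ => s • fderiv ℂ LI q (q.2, 0))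
        (fderiv ℂ LI q (q.2, 0)) s := by
      have h6 := (hasDerivAt_id s).smul_const (fderiv ℂ LI q (q.2, 0))
      rwa [one_smul] at h6
    exact (h4.sub h5).hasDerivWithinAt
  have hb : ∀ s ∈ Ico (0:ℝ) (ε n),
      ‖fderiv ℂ LI (Pool.Agent.MP_ae5b4e_an_MT.Sh s q) (q.2, 0) -
        fderiv ℂ LI q (q.2, 0)‖ ≤ δ := by
    intro s hs
    have hs' : s ∈ Icc (0:ℝ) (ε n) := ⟨hs.1, hs.2.le⟩
    have h2 := hκu _ (hmemK s hs') q hqK ((hdist s hs').trans_le (min_le_right _ _))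
    rw [dist_eq_norm] at h2
    exact h2.le
  have hfin := norm_image_sub_le_of_norm_deriv_le_segment' hd hb (ε n) ⟨hεn.le, le_rfl⟩
  have e1 : (LI (Pool.Agent.MP_ae5b4e_an_MT.Sh (ε n) q) - LI q) / (ε n : ℂ) -
      fderiv ℂ LI q (q.2, 0) =
      (LI (Pool.Agent.MP_ae5b4e_an_MT.Sh (ε n) q) - ε n • fderiv ℂ LI q (q.2, 0) -
        (LI (Pool.Agent.MP_ae5b4e_an_MT.Sh 0 q) - (0:ℝ) • fderiv ℂ LI q (q.2, 0))) /
        (ε n : ℂ) := by
    rw [Pool.Agent.MP_ae5b4e_an_MT.Sh_zero, zero_smul, Complex.real_smul, sub_zero]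
    field_simp
    ring
  rw [e1, norm_div, Complex.norm_real, Real.norm_of_nonneg hεn.le, div_le_iff₀ hεn]
  rw [sub_zero (ε n)] at hfin
  exact hfin

private theorem Lab_stp (e : ℝ) (he : 0 < e) (x : ℂ × ℂ → ℂ) (u : ℂ × ℂ) :
    Pool.Agent.MP_ae5b4e_an_MT.Ph e x u =
      stp e (fun u => (u.2, (x u - u.2) / (e : ℂ))) u := by
  have hεc : (e : ℂ) ≠ 0 := by exact_mod_cast he.ne'
  refine Prod.ext rfl ?_
  show x u = u.2 + e * ((x u - u.2) / e)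
  rw [mul_div_cancel₀ _ hεc]
  ring

/-- THE TRUE LABELS in the coordinates `(θ, γ)`.

Proof. `j (θ, γ) := (θ γ, γ)` is analytic; `j (tr ε p) = Sh ε (j p)`. For a compact `K ⊆ O :=
{p | j p ∈ DI}` (open) also `j '' K ⊆ DI` is compact. `an`: `LS.near` on `j '' K`: `j p, Sh ε (j p) ∈ D n`, so
`L n` is analytic at both points and `stt (L n) ε` is analytic at `j p`. `eq`: `MT.exists_box` for `LI` on
`j '' K` gives `d, R, A, δ` with `stt LI (ε n) q ∈ GG (d + δ) (R - δ) (A - δ)` for `q ∈ j '' K`, almost all `n`;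
`hξ d R A` gives `r, C` and `Stp` for almost all `n`; `LS.chain`: `stt (L n) ε (Sh ε q) = Ph ε (ξ n) (stt (L n) ε q)`
and `Ph ε ξ u = stp ε (gx ..) u` (`ε ((ξ u - u.2) / ε) = ξ u - u.2`). `conv`: `LS.near` gives
`‖stt (L n) ε q - stt LI ε q‖ ≤ δ / 2`; and `(LI (Sh ε q) - LI q) / ε → q.2 ∂₁ LI q` uniformly on the compact
`j '' K`: `LI` is analytic near it; e.g. the difference quotient is
`∫₀¹ q.2 ∂₁ LI (Sh (s ε) q) ds` and `∂₁ LI` is uniformly continuous on a compact neighbourhood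
(`norm_image_sub_le_of_norm_deriv_le_segment_01'` for `s ↦ LI (Sh (s ε) q) - s ε q.2 ∂₁ LI q`). -/
theorem lab_ex {U : Ultrafilter ℕ} {Z : ℕ → Sys} {ε : ℕ → ℝ} {D : ℕ → Set (ℂ × ℂ)}
    {L : ℕ → ℂ × ℂ → ℂ} {DI : Set (ℂ × ℂ)} {LI : ℂ × ℂ → ℂ} (h : LS U Z ε D L DI LI)
    {ξ : ℕ → ℂ × ℂ → ℂ} (hξ : XI U Z ε ξ) :
    Ex U ε (gx ε ξ) {p | (p.1 * p.2, p.2) ∈ DI} (zf LI) (lab ε L) := by
  have hj : Continuous (fun p : ℂ × ℂ => (p.1 * p.2, p.2)) := by fun_prop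
  have hsub : ∀ K ⊆ {p : ℂ × ℂ | (p.1 * p.2, p.2) ∈ DI},
      (fun p : ℂ × ℂ => (p.1 * p.2, p.2)) '' K ⊆ DI := by
    rintro K hK _ ⟨p, hp, rfl⟩
    exact hK hp
  refine ⟨?_, ?_, ?_⟩
  · intro K hK hKc
    filter_upwards [h.near (hKc.image hj) (hsub K hK) one_pos] with n hn p hp
    obtain ⟨d1, d2, _⟩ := hn _ (mem_image_of_mem _ hp)
    have a1 : AnalyticAt ℂ (L n) (p.1 * p.2, p.2) := h.an n _ d1
    have a2 : AnalyticAt ℂ (L n) (Pool.Agent.MP_ae5b4e_an_MT.Sh (ε n) (p.1 * p.2, p.2)) :=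
      h.an n _ d2
    have a3 : AnalyticAt ℂ (fun q => L n (Pool.Agent.MP_ae5b4e_an_MT.Sh (ε n) q))
        (p.1 * p.2, p.2) :=
      AnalyticAt.comp (g := L n) (f := Pool.Agent.MP_ae5b4e_an_MT.Sh (ε n)) a2
        (Pool.Agent.MP_ae5b4e_an_MT.analyticAt_Sh _ _)
    have a4 : AnalyticAt ℂ (Pool.Agent.MP_ae5b4e_an_MT.stt (L n) (ε n)) (p.1 * p.2, p.2) :=
      a1.prod ((a3.sub a1).div_const)
    exact AnalyticAt.comp (g := Pool.Agent.MP_ae5b4e_an_MT.stt (L n) (ε n))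
      (f := fun p : ℂ × ℂ => (p.1 * p.2, p.2)) a4 (Lab_an p)
  · intro K hK hKc
    obtain ⟨d, R, A, δ, C, hd, hδ, hC, hbox⟩ := Pool.Agent.MP_ae5b4e_an_MT.exists_box h.ε_pos
      h.ε_lim h.DI_open h.LI_an h.LI_im (hKc.image hj) (hsub K hK)
    obtain ⟨r, C', hr, _, hstp⟩ := hξ d R A hd
    have hch := h.chain (hKc.image hj) (hsub K hK) (d := d) (R := R) (A := A) hδ hr (by
      filter_upwards [hbox] with n hn p hp
      exact (hn p hp).1)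
    filter_upwards [hch, hstp] with n hn hs p hp
    have h1 := (hn _ (mem_image_of_mem _ hp)).2 C' (ξ n) hs
    rw [Lab_stp _ (h.ε_pos n)] at h1
    show Pool.Agent.MP_ae5b4e_an_MT.stt (L n) (ε n)
      ((tr (ε n : ℂ) p).1 * (tr (ε n : ℂ) p).2, (tr (ε n : ℂ) p).2) = _
    rw [Lab_tr]
    exact h1
  · intro K hK hKc δ hδ
    have hδ2 : 0 < δ / 2 := by positivity
    filter_upwards [h.near (hKc.image hj) (hsub K hK) hδ2,
      Lab_unif h.ε_pos h.ε_lim h.DI_open h.LI_an (hKc.image hj) (hsub K hK) hδ2] with n h1 h2 p hp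
    obtain ⟨_, _, _, h3, _⟩ := h1 _ (mem_image_of_mem _ hp)
    have h4 := h2 _ (mem_image_of_mem _ hp)
    have h5 : ‖Pool.Agent.MP_ae5b4e_an_MT.stt LI (ε n) (p.1 * p.2, p.2) - zf LI p‖ ≤ δ / 2 := by
      have e : Pool.Agent.MP_ae5b4e_an_MT.stt LI (ε n) (p.1 * p.2, p.2) - zf LI p =
          (0, (LI (Pool.Agent.MP_ae5b4e_an_MT.Sh (ε n) (p.1 * p.2, p.2)) -
            LI (p.1 * p.2, p.2)) / (ε n : ℂ) - fderiv ℂ LI (p.1 * p.2, p.2) (p.2, 0)) := by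
        have h6 := Lab_deriv (q := (p.1 * p.2, p.2)) (h.LI_an _ (hK hp))
        rw [← h6]
        refine Prod.ext ?_ rfl
        show LI (p.1 * p.2, p.2) - LI (p.1 * p.2, p.2) = 0
        rw [sub_self]
      rw [e, Prod.norm_mk, norm_zero]
      exact max_le hδ2.le h4
    have h6 := norm_sub_le_norm_sub_add_norm_sub
      (Pool.Agent.MP_ae5b4e_an_MT.stt (L n) (ε n) (p.1 * p.2, p.2))
      (Pool.Agent.MP_ae5b4e_an_MT.stt LI (ε n) (p.1 * p.2, p.2)) (zf LI p)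
    show ‖Pool.Agent.MP_ae5b4e_an_MT.stt (L n) (ε n) (p.1 * p.2, p.2) - zf LI p‖ ≤ δ
    linarith

/-- Proof. If `Λ = LI` on the open set `S ∩ DI`, then `zf Λ p = zf LI p` for `(p.1 p.2, p.2) ∈ S ∩ DI`
(the derivative depends on a neighbourhood only); the fields `an`, `eq` do not contain `z`. -/
theorem lab_ex' {U : Ultrafilter ℕ} {Z : ℕ → Sys} {ε : ℕ → ℝ} {D : ℕ → Set (ℂ × ℂ)}
    {L : ℕ → ℂ × ℂ → ℂ} {DI : Set (ℂ × ℂ)} {LI : ℂ × ℂ → ℂ} (h : LS U Z ε D L DI LI)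
    {ξ : ℕ → ℂ × ℂ → ℂ} (hξ : XI U Z ε ξ) {S : Set (ℂ × ℂ)} (hS : IsOpen S) {Λ : ℂ × ℂ → ℂ}
    (hΛ : ∀ p ∈ S, p ∈ DI → Λ p = LI p) :
    Ex U ε (gx ε ξ) {p | (p.1 * p.2, p.2) ∈ S ∧ (p.1 * p.2, p.2) ∈ DI} (zf Λ) (lab ε L) := by
  have hex := lab_ex h hξ
  have hsub : {p : ℂ × ℂ | (p.1 * p.2, p.2) ∈ S ∧ (p.1 * p.2, p.2) ∈ DI} ⊆
      {p : ℂ × ℂ | (p.1 * p.2, p.2) ∈ DI} := fun p hp => hp.2
  refine ⟨fun K hK => hex.an K (hK.trans hsub), fun K hK => hex.eq K (hK.trans hsub), ?_⟩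
  intro K hK hKc δ hδ
  filter_upwards [hex.conv K (hK.trans hsub) hKc δ hδ] with n hn p hp
  have hz : zf Λ p = zf LI p := by
    obtain ⟨h1, h2⟩ := hK hp
    have h3 : (fun s => Λ (s, p.2)) =ᶠ[𝓝 (p.1 * p.2)] fun s => LI (s, p.2) := by
      have hc : Continuous (fun s : ℂ => ((s, p.2) : ℂ × ℂ)) := by fun_prop
      have h4 : ∀ᶠ s in 𝓝 (p.1 * p.2), ((s, p.2) : ℂ × ℂ) ∈ S ∩ DI :=
        hc.continuousAt.eventually ((hS.inter h.DI_open).mem_nhds ⟨h1, h2⟩)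
      filter_upwards [h4] with s hs
      exact hΛ _ hs.1 hs.2
    show (Λ (p.1 * p.2, p.2), p.2 * deriv (fun s => Λ (s, p.2)) (p.1 * p.2)) =
      (LI (p.1 * p.2, p.2), p.2 * deriv (fun s => LI (s, p.2)) (p.1 * p.2))
    rw [h3.deriv_eq, hΛ _ h1 h2]
  rw [hz]
  exact hn p hp

end Pool.Agent.MP_ae5b4e_an_A1
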