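import Pool.Agent.Lib.MP_ae5b4e_an_A1.Pe

/-! # A1: the relation between the deviations of neighbouring boxes -/

noncomputable section

namespace Pool.Agent.MP_ae5b4e_an_A1

open Complex Set Filter Topology Metric

/-- THE RELATION for the periodic deviations. `D0, D1, E` = periodic extensions of the deviations of
`F0` (at `a0`), `F1` (at `a1`), `G` (at `a1`).

Proof. Fix `η > 0`, `m n := ⌊(a1 - a0) / ε n⌋₊`: `0 ≤ (a1 - a0) - m ε < ε`. `Cr.dev` for `F0` (with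
`y₁, T0 - η, r`), `F1` (with `y₁, T1 - η, r`), `G` (with `y₂, Tp - η / 2, r'`): widths `w0, w1, wp`,
used with a `δ > 0` chosen small: `δ ≤ w1 / 4, wp / 4`, `δ < y₁ - y₂`, `δ < r' - r`, and
`|Tp γ - Tp γ'| < η / 4` for `γ, γ' ∈ closedBall g₀ r'`, `|γ - γ'| ≤ δ` (uniform continuity), `δ < η / 4`.
`K := cthickening w (Sg a1 y₁ (min (min T0 T1) Tp - η) g₀ r) ⊆ OR` for some `w > 0`, compact (`hR` on it).
Let `p ∈ Str y₁ (min .. - η) g₀ r`. Both sides are unchanged if `p` is replaced by `tr (k ε) p`, `k ∈ ℤ`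
(`pe_trz`; `tr (k ε) p + D = tr (k ε) (p + D)`), so by `pe_red` wlog `|Re p.1 - a1| ≤ ε / 2`; for
`n` large `p ∈ K`. `q := tr (- m ε) p`: `|Re q.1 - a0| ≤ 2 ε ≤ w0`, `q ∈ Str y₁ (T0 - η) g₀ r`, so
`F0 n q = q + D0 q` and `D0 q = D0 p` (`pe_trz`): `tr (m ε) (F0 n q) = p + D0 p =: p'`.
`F1 n p = p + D1 p`. `p' ∈ Str y₂ (Tp - η / 2) g₀ r'`, `|Re p'.1 - a1| ≤ ε / 2 + δ ≤ wp`, so
`G n p' = p' + E p'`. `hR`: `F1 n p = G n p'`, i.e. `p + D1 p = p + D0 p + E (p + D0 p)`. -/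
theorem rel_dev {U : Ultrafilter ℕ} {ε : ℕ → ℝ} (h0 : ∀ n, 0 < ε n) (h1 : Tendsto ε U (𝓝 0))
    {O0 O1 OP OR : Set (ℂ × ℂ)} (hO0 : IsOpen O0) (hO1 : IsOpen O1) (hOP : IsOpen OP)
    (hOR : IsOpen OR) {F0 F1 G : ℕ → ℂ × ℂ → ℂ × ℂ} (hF0 : Cr U ε O0 F0) (hF1 : Cr U ε O1 F1)
    (hG : Cr U ε OP G) {a0 a1 y₁ y₂ r r' : ℝ} (ha : a0 < a1) (hy : y₂ < y₁) (hr : r < r')
    {T0 T1 Tp : ℂ → ℝ} {g₀ : ℂ} (hT0 : ContinuousOn T0 (closedBall g₀ r'))
    (hT1 : ContinuousOn T1 (closedBall g₀ r')) (hTp : ContinuousOn Tp (closedBall g₀ r'))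
    (s0 : ∀ η : ℝ, 0 < η → Sg a0 y₂ (fun γ => T0 γ - η) g₀ r' ⊆ O0)
    (s1 : ∀ η : ℝ, 0 < η → Sg a1 y₂ (fun γ => T1 γ - η) g₀ r' ⊆ O1)
    (sp : ∀ η : ℝ, 0 < η → Sg a1 y₂ (fun γ => Tp γ - η) g₀ r' ⊆ OP)
    (sR : ∀ η : ℝ, 0 < η → Sg a1 y₂ (fun γ => min (min (T0 γ) (T1 γ)) (Tp γ) - η) g₀ r' ⊆ OR)
    (hR : ∀ K ⊆ OR, IsCompact K → ∀ᶠ n in (U : Filter ℕ), ∀ p ∈ K, F1 n p =
      G n (tr ((⌊(a1 - a0) / ε n⌋₊ * ε n : ℝ) : ℂ)
        (F0 n (tr (-((⌊(a1 - a0) / ε n⌋₊ * ε n : ℝ) : ℂ)) p)))) {η : ℝ} (hη : 0 < η) :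
    ∀ᶠ n in (U : Filter ℕ), ∀ p ∈ Str y₁ (fun γ => min (min (T0 γ) (T1 γ)) (Tp γ) - η) g₀ r,
      pe (ε n) a1 (fun p => F1 n p - p) p = pe (ε n) a0 (fun p => F0 n p - p) p +
        pe (ε n) a1 (fun p => G n p - p) (p + pe (ε n) a0 (fun p => F0 n p - p) p) := by
  have hε0 := h0
  have hrr : closedBall g₀ r ⊆ closedBall g₀ r' := closedBall_subset_closedBall hr.le
  -- monotonicity of the segments
  have hSg : ∀ (a : ℝ) (T : ℂ → ℝ), Sg a y₁ T g₀ r ⊆ Sg a y₂ T g₀ r' := by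
    rintro a T p ⟨p1, p2, p3, p4⟩
    exact ⟨hrr p1, p2, hy.le.trans p3, p4⟩
  obtain ⟨w0, hw0, d0⟩ := hF0.dev h0 h1 hO0 (a := a0) (y₁ := y₁) (T := fun γ => T0 γ - η)
    (g₀ := g₀) (r := r) ((hT0.mono hrr).sub continuousOn_const) ((hSg _ _).trans (s0 η hη))
  obtain ⟨w1, hw1, d1⟩ := hF1.dev h0 h1 hO1 (a := a1) (y₁ := y₁) (T := fun γ => T1 γ - η)
    (g₀ := g₀) (r := r) ((hT1.mono hrr).sub continuousOn_const) ((hSg _ _).trans (s1 η hη))
  obtain ⟨wp, hwp, dp⟩ := hG.dev h0 h1 hOP (a := a1) (y₁ := y₂) (T := fun γ => Tp γ - η / 2)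
    (g₀ := g₀) (r := r') (hTp.sub continuousOn_const) (sp (η / 2) (half_pos hη))
  -- uniform continuity of `Tp`
  have huc : UniformContinuousOn Tp (closedBall g₀ r') :=
    (isCompact_closedBall g₀ r').uniformContinuousOn_of_continuous hTp
  obtain ⟨δ₀, hδ₀, huc'⟩ := Metric.uniformContinuousOn_iff.1 huc (η / 4) (by positivity)
  obtain ⟨δ, hδ, e1, e2, e3, e4, e5⟩ : ∃ δ : ℝ, 0 < δ ∧ δ ≤ wp / 4 ∧ δ < y₁ - y₂ ∧ δ < r' - r ∧
      δ < δ₀ ∧ δ < η / 4 := by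
    refine ⟨min (min (wp / 4) ((y₁ - y₂) / 2)) (min (min ((r' - r) / 2) (δ₀ / 2)) (η / 8)), ?_, ?_,
      ?_, ?_, ?_, ?_⟩
    · refine lt_min (lt_min (by positivity) (by linarith)) (lt_min (lt_min (by linarith)
        (by positivity)) (by positivity))
    · exact (min_le_left _ _).trans (min_le_left _ _)
    · exact ((min_le_left _ _).trans (min_le_right _ _)).trans_lt (by linarith)
    · exact ((min_le_right _ _).trans ((min_le_left _ _).trans (min_le_left _ _))).trans_lt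
        (by linarith)
    · exact ((min_le_right _ _).trans ((min_le_left _ _).trans (min_le_right _ _))).trans_lt
        (by linarith)
    · exact ((min_le_right _ _).trans (min_le_right _ _)).trans_lt (by linarith)
  -- the compact set
  have hTm : ContinuousOn (fun γ => min (min (T0 γ) (T1 γ)) (Tp γ) - η) (closedBall g₀ r) :=
    (((hT0.mono hrr).inf (hT1.mono hrr)).inf (hTp.mono hrr)).sub continuousOn_const
  have hSc : IsCompact (Sg a1 y₁ (fun γ => min (min (T0 γ) (T1 γ)) (Tp γ) - η) g₀ r) :=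
    isCompact_Sg hTm
  obtain ⟨w, hw, hwO⟩ := hSc.exists_cthickening_subset_open hOR ((hSg _ _).trans (sR η hη))
  have hKc : IsCompact (cthickening w
      (Sg a1 y₁ (fun γ => min (min (T0 γ) (T1 γ)) (Tp γ) - η) g₀ r)) := hSc.cthickening
  have hmem : ∀ p : ℂ × ℂ, |p.1.re - a1| ≤ w →
      p ∈ Str y₁ (fun γ => min (min (T0 γ) (T1 γ)) (Tp γ) - η) g₀ r →
      p ∈ cthickening w (Sg a1 y₁ (fun γ => min (min (T0 γ) (T1 γ)) (Tp γ) - η) g₀ r) := by
    rintro p hp ⟨q1, q2, q3⟩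
    refine mem_cthickening_of_dist_le p ((⟨a1, p.1.im⟩ : ℂ), p.2) w _
      ⟨ball_subset_closedBall q1, rfl, q2.le, q3.le⟩ ?_
    rw [Prod.dist_eq, dist_self, max_eq_left dist_nonneg, dist_eq_norm]
    have e : p.1 - (⟨a1, p.1.im⟩ : ℂ) = ((p.1.re - a1 : ℝ) : ℂ) := by
      apply Complex.ext
      · simp
      · simp
    rw [e, norm_real]
    exact hp
  have hε : ∀ᶠ n in (U : Filter ℕ), ε n < min (min (w0 / 4) (w1 / 4)) (min (wp / 4) w) :=
    h1.eventually_lt_const (lt_min (lt_min (by positivity) (by positivity))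
      (lt_min (by positivity) hw))
  filter_upwards [hε, d0 δ hδ, d1 δ hδ, dp δ hδ, hR _ hwO hKc] with n n0 n1 n2 n3 n4
  obtain ⟨n01, n02⟩ := lt_min_iff.1 n0
  obtain ⟨n0a, n0b⟩ := lt_min_iff.1 n01
  obtain ⟨n0c, n0d⟩ := lt_min_iff.1 n02
  have hn := h0 n
  -- the number of steps
  obtain ⟨m, hm⟩ : ∃ m : ℕ, m = ⌊(a1 - a0) / ε n⌋₊ := ⟨_, rfl⟩
  rw [← hm] at n4
  have hm1 : (m : ℝ) * ε n ≤ a1 - a0 := by
    have h := Nat.floor_le (show 0 ≤ (a1 - a0) / ε n by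
      have : 0 < a1 - a0 := by linarith
      positivity)
    rw [← hm] at h
    rwa [le_div_iff₀ hn] at h
  have hm2 : a1 - a0 < ((m : ℝ) + 1) * ε n := by
    have h := Nat.lt_floor_add_one ((a1 - a0) / ε n)
    rw [← hm] at h
    rwa [div_lt_iff₀ hn] at h
  -- the reduced case
  have red : ∀ p ∈ Str y₁ (fun γ => min (min (T0 γ) (T1 γ)) (Tp γ) - η) g₀ r,
      |p.1.re - a1| ≤ ε n / 2 →
      pe (ε n) a1 (fun p => F1 n p - p) p = pe (ε n) a0 (fun p => F0 n p - p) p +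
        pe (ε n) a1 (fun p => G n p - p) (p + pe (ε n) a0 (fun p => F0 n p - p) p) := by
    rintro p hp hpa
    obtain ⟨p1, p2, p3⟩ := id hp
    simp only at p3
    obtain ⟨hpa1, hpa2⟩ := abs_le.1 hpa
    have hmin : min (min (T0 p.2) (T1 p.2)) (Tp p.2) ≤ T0 p.2 :=
      (min_le_left _ _).trans (min_le_left _ _)
    have hmin1 : min (min (T0 p.2) (T1 p.2)) (Tp p.2) ≤ T1 p.2 :=
      (min_le_left _ _).trans (min_le_right _ _)
    have hmin2 : min (min (T0 p.2) (T1 p.2)) (Tp p.2) ≤ Tp p.2 := min_le_right _ _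
    -- the shifted point
    have hq : tr (-((m * ε n : ℝ) : ℂ)) p = tr ((((-(m : ℤ) : ℤ) : ℝ) * ε n : ℝ) : ℂ) p := by
      congr 1
      push_cast
      ring
    have hqre : (tr (-((m * ε n : ℝ) : ℂ)) p).1.re = p.1.re - m * ε n := by
      rw [tr_fst, add_re, neg_re, ofReal_re]
      ring
    have hqim : (tr (-((m * ε n : ℝ) : ℂ)) p).1.im = p.1.im := by
      rw [tr_fst, add_im, neg_im, ofReal_im]
      ring
    have hqS : tr (-((m * ε n : ℝ) : ℂ)) p ∈ Str y₁ (fun γ => T0 γ - η) g₀ r := by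
      refine ⟨p1, ?_, ?_⟩
      · rw [hqim]
        exact p2
      · rw [hqim]
        simp only [tr_snd]
        linarith
    have hD0q : pe (ε n) a0 (fun p => F0 n p - p) (tr (-((m * ε n : ℝ) : ℂ)) p) =
        pe (ε n) a0 (fun p => F0 n p - p) p := by
      rw [hq]
      exact pe_trz hn _ _ _ _
    have hF0q := n1.2.2 _ hqS (by
      rw [hqre, abs_le]
      constructor <;> linarith)
    rw [hD0q] at hF0q
    have hF1p := n2.2.2 p ⟨p1, p2, by simp only; linarith⟩ (by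
      rw [abs_le]
      constructor <;> linarith)
    have hδ0 : ‖pe (ε n) a0 (fun p => F0 n p - p) p‖ ≤ δ :=
      n1.2.1 p ⟨p1, p2, by simp only; linarith⟩
    obtain ⟨D, hD⟩ : ∃ D, D = pe (ε n) a0 (fun p => F0 n p - p) p := ⟨_, rfl⟩
    rw [← hD] at hF0q hδ0 ⊢
    have hDa : ‖D.1‖ ≤ δ := (norm_fst_le D).trans hδ0
    have hDb : ‖D.2‖ ≤ δ := (norm_snd_le D).trans hδ0
    have hDre := (abs_re_le_norm D.1).trans hDa
    have hDim := (abs_im_le_norm D.1).trans hDa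
    obtain ⟨hDre1, hDre2⟩ := abs_le.1 hDre
    obtain ⟨hDim1, hDim2⟩ := abs_le.1 hDim
    have htr : tr ((m * ε n : ℝ) : ℂ) (F0 n (tr (-((m * ε n : ℝ) : ℂ)) p)) = p + D := by
      rw [hF0q]
      ext
      · simp only [tr_fst, Prod.fst_add]
        ring
      · simp only [tr_snd, Prod.snd_add]
    have hball : (p + D).2 ∈ ball g₀ r' := by
      rw [mem_ball, Prod.snd_add, dist_eq_norm]
      have h5 : p.2 + D.2 - g₀ = (p.2 - g₀) + D.2 := by ring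
      rw [h5]
      have h6 : ‖p.2 - g₀‖ < r := by
        rw [← dist_eq_norm]
        exact p1
      have := norm_add_le (p.2 - g₀) D.2
      linarith
    have hTT : |Tp (p + D).2 - Tp p.2| < η / 4 := by
      have h7 := huc' (p + D).2 (ball_subset_closedBall hball) p.2
        (hrr (ball_subset_closedBall p1)) (by
          rw [dist_eq_norm, Prod.snd_add, add_sub_cancel_left]
          linarith)
      rwa [Real.dist_eq] at h7
    obtain ⟨hTT1, hTT2⟩ := abs_lt.1 hTT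
    have hpS : p + D ∈ Str y₂ (fun γ => Tp γ - η / 2) g₀ r' := by
      refine ⟨hball, ?_, ?_⟩
      · rw [Prod.fst_add, add_im]
        linarith
      · rw [Prod.fst_add, add_im]
        simp only
        linarith
    have hGp := n3.2.2 _ hpS (by
      rw [Prod.fst_add, add_re, abs_le]
      constructor <;> linarith)
    have h8 := n4 p (hmem p (by
      rw [abs_le]
      constructor <;> linarith) hp)
    rw [htr, hF1p, hGp, add_assoc] at h8
    exact add_left_cancel h8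
  intro p hp
  obtain ⟨p1, p2, p3⟩ := id hp
  simp only at p3
  obtain ⟨k, hk⟩ : ∃ k : ℤ, k = round ((p.1.re - a1) / ε n) := ⟨_, rfl⟩
  have hkr := pe_red hn a1 p.1.re
  rw [← hk] at hkr
  have him : (tr ((((-k : ℤ) : ℝ) * ε n : ℝ) : ℂ) p).1.im = p.1.im := by
    rw [tr_fst, add_im, ofReal_im]
    ring
  have hre : (tr ((((-k : ℤ) : ℝ) * ε n : ℝ) : ℂ) p).1.re = p.1.re - k * ε n := by
    rw [tr_fst, add_re, ofReal_re]
    push_cast
    ring
  have h := red (tr ((((-k : ℤ) : ℝ) * ε n : ℝ) : ℂ) p) ⟨p1, by rw [him]; exact p2, by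
    rw [him]
    exact p3⟩ (by rw [hre]; exact hkr)
  rw [pe_trz hn, pe_trz hn] at h
  have h9 : tr ((((-k : ℤ) : ℝ) * ε n : ℝ) : ℂ) p + pe (ε n) a0 (fun p => F0 n p - p) p =
      tr ((((-k : ℤ) : ℝ) * ε n : ℝ) : ℂ) (p + pe (ε n) a0 (fun p => F0 n p - p) p) := by
    ext
    · simp only [tr_fst, Prod.fst_add]
      ring
    · simp only [tr_snd, Prod.snd_add]
  rw [h9, pe_trz hn] at h
  exact h

end Pool.Agent.MP_ae5b4e_an_A1
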