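import Pool.Agent.Lib.MP_ae5b4e_an_A1.PassF
import Pool.Agent.Lib.MP_ae5b4e_an_A1.Rel
import Pool.Agent.Lib.MP_ae5b4e_an_A1.Box

/-! # A1: boxes and passages, the geometry -/

noncomputable section

namespace Pool.Agent.MP_ae5b4e_an_A1

open Complex Set Filter Topology Metric
open Pool.Agent.MP_ae5b4e_an_BX (Rec)

variable {U : Ultrafilter ℕ} {ε : ℕ → ℝ} {M Ω OL : Set (ℂ × ℂ)} {g : ℂ × ℂ → ℂ × ℂ}
  {gn : ℕ → ℂ × ℂ → ℂ × ℂ} {z : ℂ × ℂ → ℂ × ℂ} {g₀ : ℂ} {r₀ y₀ y₁ : ℝ} {P : ℕ} {a : ℕ → ℝ}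
  {T Yb : ℕ → ℂ → ℝ}

/-- the box number `i` -/
def Bo (a : ℕ → ℝ) (y₀ w : ℝ) (g₀ : ℂ) (r : ℝ) (i : ℕ) : Set (ℂ × ℂ) :=
  Rec (a i - w) (a i + w) (y₀ - w) (y₀ + w) ×ˢ ball g₀ r

theorem isOpen_Bo (a : ℕ → ℝ) (y₀ w : ℝ) (g₀ : ℂ) (r : ℝ) (i : ℕ) : IsOpen (Bo a y₀ w g₀ r i) :=
  (Pool.Agent.MP_ae5b4e_an_BX.isOpen_Rec _ _ _ _).prod isOpen_ball

private theorem MainA_anti {O O' : Set (ℂ × ℂ)} (h : O' ⊆ O) {Z : ℕ → ℂ × ℂ → ℂ × ℂ}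
    (hE : Ex U ε gn O z Z) : Ex U ε gn O' z Z where
  an K hK hKc := hE.an K (hK.trans h) hKc
  eq K hK hKc := hE.eq K (hK.trans h) hKc
  conv K hK hKc := hE.conv K (hK.trans h) hKc

private theorem MainA_one (hV : VF U ε M g gn) (hz : Fw M g Ω z)
    (hG : Geo Ω OL g₀ r₀ y₀ y₁ P a T Yb) {i : ℕ} (hi : i ≤ P) :
    ∀ᶠ w in 𝓝[>] (0:ℝ), Bo a y₀ w g₀ r₀ i ⊆ Ω ∧ ∃ Z, Ex U ε gn (Bo a y₀ w g₀ r₀ i) z Z := by
  have hC : IsCompact (({(⟨a i, y₀⟩ : ℂ)} : Set ℂ) ×ˢ closedBall g₀ r₀) :=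
    isCompact_singleton.prod (isCompact_closedBall g₀ r₀)
  have hCΩ : ({(⟨a i, y₀⟩ : ℂ)} : Set ℂ) ×ˢ closedBall g₀ r₀ ⊆ Ω := by
    rintro p ⟨hp1, hp2⟩
    have h1 := hG.box i hi p.2 hp2
    have h2 : p = ((⟨a i, y₀⟩ : ℂ), p.2) := Prod.ext hp1 rfl
    rw [h2]
    exact h1
  obtain ⟨δ, hδ, hδΩ⟩ := hC.exists_cthickening_subset_open hz.Ω_open hCΩ
  obtain ⟨h₀, hh₀, hex⟩ := exists_ex hV hz (a₁ := a i - δ) (a₂ := a i + δ) (y := y₀)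
    (by linarith) (g₀ := g₀) (r := r₀) hG.r_pos (fun p h1 h2 h3 h4 => by
      refine hδΩ (mem_cthickening_of_dist_le p ((⟨a i, y₀⟩ : ℂ), p.2) δ _ ⟨rfl, h4⟩ ?_)
      rw [Prod.dist_eq, dist_self, max_eq_left dist_nonneg, dist_eq_norm]
      refine (Complex.norm_le_abs_re_add_abs_im _).trans ?_
      change |p.1.re - a i| + |p.1.im - y₀| ≤ δ
      rw [h3, sub_self, abs_zero, add_zero, abs_le]
      constructor <;> linarith)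
  filter_upwards [Ioo_mem_nhdsGT (lt_min hδ hh₀)] with w hw
  have hw1 : w ≤ δ := hw.2.le.trans (min_le_left _ _)
  have hw2 : w ≤ h₀ := hw.2.le.trans (min_le_right _ _)
  obtain ⟨h1, Z, h2⟩ := hex w hw.1 hw2
  have hsub : Bo a y₀ w g₀ r₀ i ⊆ Rec (a i - δ) (a i + δ) (y₀ - w) (y₀ + w) ×ˢ ball g₀ r₀ :=
    prod_mono_left (Pool.Agent.MP_ae5b4e_an_BX.Rec_mono (by linarith) (by linarith) le_rfl le_rfl)
  exact ⟨hsub.trans h1, Z, MainA_anti hsub h2⟩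

private theorem MainA_cont {f : ℂ → ℝ} {y w : ℝ} (hr₀ : 0 < r₀)
    (hf : ContinuousOn f (closedBall g₀ r₀)) (hfy : f g₀ ≤ y) (hw : 0 < w) :
    ∀ᶠ r in 𝓝[>] (0:ℝ), ∀ γ ∈ closedBall g₀ (2 * r), f γ < y + w / 4 := by
  have h1 : ContinuousAt f g₀ := hf.continuousAt (closedBall_mem_nhds g₀ hr₀)
  have h2 : ∀ᶠ γ in 𝓝 g₀, f γ < y + w / 4 := h1.eventually_lt_const (by linarith)
  obtain ⟨δ, hδ, h3⟩ := Metric.eventually_nhds_iff_ball.1 h2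
  filter_upwards [Ioo_mem_nhdsGT (show (0:ℝ) < δ / 2 by positivity)] with r hr γ hγ
  refine h3 γ ?_
  rw [mem_ball]
  rw [mem_closedBall] at hγ
  linarith [hr.2]

/-- CHOICE OF THE BOXES.

Proof. For `i ≤ P` the compact set `{((a i, y₀), γ) | γ ∈ closedBall g₀ r₀}` is contained in the open
`Ω`: `w_i > 0` with the `2 w_i`-thickening in `Ω`; so the hypothesis of `exists_ex` with
`a₁ = a i - w_i`, `a₂ = a i + w_i`, `y = y₀`, radius `r₀` holds: `h_i`, and for every `h ≤ h_i` a family.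
`w := min` of all `w_i, h_i, (y₀ - y₁) / 2` (finite minimum over `i ≤ P`; `w ≤ w_i`: restrict the family on
`Rec (a i - w_i) (a i + w_i) (y₀ - w) (y₀ + w)` to the smaller box: the fields of `Ex` are antitone in
`O`). `r` with `2 r ≤ r₀`, and `T i γ < y₀ + w / 4`, `Yb (i + 1) γ < y₀ + w / 4` for
`γ ∈ closedBall g₀ (2 r)`: continuity at `g₀` and `T i g₀ ≤ y₀`, `Yb (i + 1) g₀ ≤ y₀`. -/
theorem exists_boxes (hV : VF U ε M g gn) (hz : Fw M g Ω z) (hG : Geo Ω OL g₀ r₀ y₀ y₁ P a T Yb) :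
    ∃ w r : ℝ, 0 < w ∧ y₁ ≤ y₀ - w ∧ 0 < r ∧ 2 * r ≤ r₀ ∧
      (∀ i ≤ P, Bo a y₀ w g₀ (2 * r) i ⊆ Ω) ∧
      (∀ i ≤ P, ∀ γ ∈ closedBall g₀ (2 * r), T i γ < y₀ + w / 4) ∧
      (∀ i < P, ∀ γ ∈ closedBall g₀ (2 * r), Yb (i + 1) γ < y₀ + w / 4) ∧
      ∃ Z : ℕ → ℕ → ℂ × ℂ → ℂ × ℂ, ∀ i ≤ P, Ex U ε gn (Bo a y₀ w g₀ (2 * r) i) z (Z i) := by
  have hfin : {i : ℕ | i ≤ P}.Finite := Set.finite_Iic P
  have hfin' : {i : ℕ | i < P}.Finite := Set.finite_Iio P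
  have hr₀ := hG.r_pos
  have hy := hG.y_lt
  have e1 : ∀ᶠ w in 𝓝[>] (0:ℝ), ∀ i ∈ {i : ℕ | i ≤ P},
      (Bo a y₀ w g₀ r₀ i ⊆ Ω ∧ ∃ Z, Ex U ε gn (Bo a y₀ w g₀ r₀ i) z Z) :=
    (eventually_all_finite hfin).2 fun i hi => MainA_one hV hz hG hi
  obtain ⟨w, hwb, hw⟩ := (e1.and (Ioo_mem_nhdsGT (show (0:ℝ) < (y₀ - y₁) / 2 by linarith))).exists
  have hw0 : 0 < w := hw.1
  have hw1 : w < (y₀ - y₁) / 2 := hw.2
  have e2 : ∀ᶠ r in 𝓝[>] (0:ℝ), ∀ i ∈ {i : ℕ | i ≤ P},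
      ∀ γ ∈ closedBall g₀ (2 * r), T i γ < y₀ + w / 4 :=
    (eventually_all_finite hfin).2 fun i hi => MainA_cont hr₀ (hG.T_cont i hi) (hG.T_le i hi) hw0
  have e3 : ∀ᶠ r in 𝓝[>] (0:ℝ), ∀ i ∈ {i : ℕ | i < P},
      ∀ γ ∈ closedBall g₀ (2 * r), Yb (i + 1) γ < y₀ + w / 4 :=
    (eventually_all_finite hfin').2 fun i hi => MainA_cont hr₀ (hG.Y_cont i hi) (hG.Y_le i hi) hw0
  obtain ⟨r, hrb, hr2, hr3⟩ :=
    (e2.and (e3.and (Ioo_mem_nhdsGT (show (0:ℝ) < r₀ / 2 by linarith)))).exists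
  have hr0 : 0 < r := hr3.1
  have hr1 : r < r₀ / 2 := hr3.2
  have hsub : ∀ i, Bo a y₀ w g₀ (2 * r) i ⊆ Bo a y₀ w g₀ r₀ i := fun i =>
    prod_mono_right (ball_subset_ball (by linarith))
  have hZ : ∀ i, ∃ Z : ℕ → ℂ × ℂ → ℂ × ℂ, i ≤ P → Ex U ε gn (Bo a y₀ w g₀ (2 * r) i) z Z := by
    intro i
    by_cases hi : i ≤ P
    · obtain ⟨Z, hZ⟩ := (hwb i hi).2
      exact ⟨Z, fun _ => MainA_anti (hsub i) hZ⟩
    · exact ⟨fun _ p => p, fun h => absurd h hi⟩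
  choose Z hZ using hZ
  exact ⟨w, r, hw0, by linarith, hr0, by linarith, fun i hi => (hsub i).trans (hwb i hi).1,
    fun i hi => hrb i hi, fun i hi => hr2 i hi, Z, hZ⟩

/-- Proof. A point `p` of `Sg` has `Re p.1 = a i`, `y₀ - 3 w / 4 ≤ Im p.1 ≤ T i p.2 - η < y₀ + w / 4`,
`p.2 ∈ closedBall g₀ (3 r / 2) ⊆ ball g₀ (2 r)`; `p = (⟨a i, Im p.1⟩, p.2)` is in `OL` by `Geo.labs`. -/
theorem sub_lab (hG : Geo Ω OL g₀ r₀ y₀ y₁ P a T Yb) {w r : ℝ} (hw : 0 < w) (hw1 : y₁ ≤ y₀ - w)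
    (hr : 0 < r) (hr0 : 2 * r ≤ r₀) (hT : ∀ i ≤ P, ∀ γ ∈ closedBall g₀ (2 * r), T i γ < y₀ + w / 4)
    {i : ℕ} (hi : i ≤ P) {η : ℝ} (hη : 0 < η) :
    Sg (a i) (y₀ - 3 * w / 4) (fun γ => T i γ - η) g₀ (3 * r / 2) ⊆ Bo a y₀ w g₀ (2 * r) i ∩ OL := by
  rintro p ⟨h1, h2, h3, h4⟩
  rw [mem_closedBall] at h1
  have h5 : p.2 ∈ closedBall g₀ (2 * r) := by
    rw [mem_closedBall]
    linarith
  have h6 := hT i hi p.2 h5
  dsimp only at h4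
  refine ⟨⟨⟨?_, ?_, ?_, ?_⟩, ?_⟩, ?_⟩
  · rw [h2]
    linarith
  · rw [h2]
    linarith
  · linarith
  · linarith
  · rw [mem_ball]
    linarith
  · have h7 := hG.labs i hi p.2 (by rw [mem_closedBall]; linarith) p.1.im (by linarith)
      (by linarith)
    have h8 : p = ((⟨a i, p.1.im⟩ : ℂ), p.2) := by
      refine Prod.ext ?_ rfl
      exact Complex.ext h2 rfl
    rw [h8]
    exact h7

/-- Proof. As `sub_lab`; `tr (-(a (i + 1) - a i)) p` has real part `a i`, is in `Bo .. i`; for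
`0 ≤ s ≤ a (i + 1) - a i` `tr (-s) p = (⟨a (i + 1) - s, Im p.1⟩, p.2) ∈ Ω` by `Geo.pass`. -/
theorem sub_pas (hG : Geo Ω OL g₀ r₀ y₀ y₁ P a T Yb) {w r : ℝ} (hw : 0 < w) (hw1 : y₁ ≤ y₀ - w)
    (hr : 0 < r) (hr0 : 2 * r ≤ r₀)
    (hY : ∀ i < P, ∀ γ ∈ closedBall g₀ (2 * r), Yb (i + 1) γ < y₀ + w / 4)
    {i : ℕ} (hi : i < P) {η : ℝ} (hη : 0 < η) :
    Sg (a (i + 1)) (y₀ - 3 * w / 4) (fun γ => Yb (i + 1) γ - η) g₀ (3 * r / 2) ⊆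
      Bo a y₀ w g₀ (2 * r) (i + 1) ∩ PO Ω (Bo a y₀ w g₀ (2 * r) i) (a (i + 1) - a i) := by
  rintro p ⟨h1, h2, h3, h4⟩
  rw [mem_closedBall] at h1
  have h5 : p.2 ∈ closedBall g₀ (2 * r) := by
    rw [mem_closedBall]
    linarith
  have h6 := hY i hi p.2 h5
  dsimp only at h4
  have hb : p.2 ∈ ball g₀ (2 * r) := by
    rw [mem_ball]
    linarith
  refine ⟨⟨⟨?_, ?_, ?_, ?_⟩, hb⟩, ⟨⟨?_, ?_, ?_, ?_⟩, hb⟩, fun s hs => ?_⟩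
  · rw [h2]
    linarith
  · rw [h2]
    linarith
  · linarith
  · linarith
  · rw [tr_fst, Complex.add_re, Complex.neg_re, Complex.ofReal_re, h2]
    linarith
  · rw [tr_fst, Complex.add_re, Complex.neg_re, Complex.ofReal_re, h2]
    linarith
  · rw [tr_fst, Complex.add_im, Complex.neg_im, Complex.ofReal_im]
    linarith
  · rw [tr_fst, Complex.add_im, Complex.neg_im, Complex.ofReal_im]
    linarith
  · have h7 := hG.pass i hi p.2 (by rw [mem_closedBall]; linarith) p.1.im (by linarith)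
      (by linarith) (a (i + 1) - s) ⟨by linarith [hs.2], by linarith [hs.1]⟩
    have h8 : tr (-(s : ℂ)) p = ((⟨a (i + 1) - s, p.1.im⟩ : ℂ), p.2) := by
      refine Prod.ext ?_ rfl
      refine Complex.ext ?_ ?_
      · rw [tr_fst, Complex.add_re, Complex.neg_re, Complex.ofReal_re, h2]
        change a (i + 1) + -s = a (i + 1) - s
        ring
      · rw [tr_fst, Complex.add_im, Complex.neg_im, Complex.ofReal_im]
        change p.1.im + -0 = p.1.im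
        ring
    rw [h8]
    exact h7

/-- Proof. As before, with `Geo.labp`. -/
theorem sub_rel (hG : Geo Ω OL g₀ r₀ y₀ y₁ P a T Yb) {w r : ℝ} (hw : 0 < w) (hw1 : y₁ ≤ y₀ - w)
    (hr : 0 < r) (hr0 : 2 * r ≤ r₀) {i : ℕ} (hi : i < P) {η : ℝ} (hη : 0 < η) :
    Sg (a (i + 1)) (y₀ - 3 * w / 4)
      (fun γ => min (min (T i γ) (T (i + 1) γ)) (Yb (i + 1) γ) - η) g₀ (3 * r / 2) ⊆
      PO OL OL (a (i + 1) - a i) := by
  rintro p ⟨h1, h2, h3, h4⟩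
  rw [mem_closedBall] at h1
  dsimp only at h4
  have h5 : min (min (T i p.2) (T (i + 1) p.2)) (Yb (i + 1) p.2) ≤ T i p.2 :=
    (min_le_left _ _).trans (min_le_left _ _)
  have h6 : min (min (T i p.2) (T (i + 1) p.2)) (Yb (i + 1) p.2) ≤ T (i + 1) p.2 :=
    (min_le_left _ _).trans (min_le_right _ _)
  have key : ∀ s ∈ Icc (0:ℝ) (a (i + 1) - a i), tr (-(s : ℂ)) p ∈ OL := by
    intro s hs
    have h7 := hG.labp i hi p.2 (by rw [mem_closedBall]; linarith) p.1.im (by linarith)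
      (by linarith) (by linarith) (a (i + 1) - s) ⟨by linarith [hs.2], by linarith [hs.1]⟩
    have h8 : tr (-(s : ℂ)) p = ((⟨a (i + 1) - s, p.1.im⟩ : ℂ), p.2) := by
      refine Prod.ext ?_ rfl
      refine Complex.ext ?_ ?_
      · rw [tr_fst, Complex.add_re, Complex.neg_re, Complex.ofReal_re, h2]
        change a (i + 1) + -s = a (i + 1) - s
        ring
      · rw [tr_fst, Complex.add_im, Complex.neg_im, Complex.ofReal_im]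
        change p.1.im + -0 = p.1.im
        ring
    rw [h8]
    exact h7
  have hlt := hG.a_lt i hi
  exact ⟨key _ ⟨by linarith, le_rfl⟩, key⟩

end Pool.Agent.MP_ae5b4e_an_A1
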