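import Pool.Agent.Lib.MP_ae5b4e_an_A1.MainA

/-! # A1: the interface theorem -/

noncomputable section

namespace Pool.Agent.MP_ae5b4e_an_A1

open Complex Set Filter Topology Metric
open Pool.Agent.MP_ae5b4e_an_BX (Rec)

variable {U : Ultrafilter ℕ} {ε : ℕ → ℝ} {M Ω OL : Set (ℂ × ℂ)} {g : ℂ × ℂ → ℂ × ℂ}
  {gn : ℕ → ℂ × ℂ → ℂ × ℂ} {z : ℂ × ℂ → ℂ × ℂ} {g₀ : ℂ} {r₀ y₀ y₁ : ℝ} {P : ℕ} {a : ℕ → ℝ}
  {T Yb : ℕ → ℂ → ℝ}

private theorem MainB_mono {O O' : Set (ℂ × ℂ)} {W : ℕ → ℂ × ℂ → ℂ × ℂ} (h : Ex U ε gn O z W)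
    (hO : O' ⊆ O) : Ex U ε gn O' z W :=
  ⟨fun K hK => h.an K (hK.trans hO), fun K hK => h.eq K (hK.trans hO),
    fun K hK => h.conv K (hK.trans hO)⟩

private theorem MainB_str {T T' : ℂ → ℝ} {v v' s s' : ℝ} (hv : v' ≤ v) (hs : s ≤ s')
    (hT : ∀ γ, T γ ≤ T' γ) : Str v T g₀ s ⊆ Str v' T' g₀ s' := by
  rintro p ⟨h1, h2, h3⟩
  exact ⟨ball_subset_ball hs h1, hv.trans_lt h2, h3.trans_le (hT _)⟩

private theorem MainB_near (h0 : ∀ n, 0 < ε n) (h1 : Tendsto ε U (𝓝 0)) {O : Set (ℂ × ℂ)}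
    (hO : IsOpen O) {F : ℕ → ℂ × ℂ → ℂ × ℂ} (hF : Cr U ε O F) {b v v' s s' : ℝ} {S : ℂ → ℝ}
    (hv : v' ≤ v) (hs : s ≤ s') (hS : ContinuousOn S (closedBall g₀ s'))
    (hsub : Sg b v' S g₀ s' ⊆ O) {Q : ℕ → ℂ × ℂ → ℂ × ℂ → Prop}
    (hQ : ∀ K ⊆ O, IsCompact K → ∀ᶠ n in (U : Filter ℕ), ∀ p ∈ K, Q n p (F n p)) :
    ∀ᶠ n in (U : Filter ℕ), ∀ p ∈ Str v S g₀ s, |p.1.re - b| ≤ 4 * ε n →
      Q n p (p + pe (ε n) b (fun p => F n p - p) p) := by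
  obtain ⟨w, hw, hdev⟩ := Cr.dev h0 h1 hO hF hS hsub
  have hSc : IsCompact (Sg b v' S g₀ s') := isCompact_Sg hS
  obtain ⟨d, hd, hdO⟩ := hSc.exists_cthickening_subset_open hO hsub
  have hKc : IsCompact (cthickening d (Sg b v' S g₀ s')) := hSc.cthickening
  have hw4 : 0 < w / 4 := by positivity
  have hd4 : 0 < d / 4 := by positivity
  filter_upwards [hdev 1 one_pos, hQ _ hdO hKc, h1.eventually (gt_mem_nhds hw4),
    h1.eventually (gt_mem_nhds hd4)] with n e1 e2 e3 e4 p hp hpb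
  have hp' : p ∈ Str v' S g₀ s' := MainB_str hv hs (fun _ => le_rfl) hp
  have h3 : F n p = p + pe (ε n) b (fun p => F n p - p) p := e1.2.2 p hp' (by linarith)
  rw [← h3]
  refine e2 p ?_
  refine mem_cthickening_of_dist_le p ((⟨b, p.1.im⟩ : ℂ), p.2) d _ ?_ ?_
  · exact ⟨ball_subset_closedBall hp'.1, rfl, hp'.2.1.le, hp'.2.2.le⟩
  · have h4 : dist p.1 (⟨b, p.1.im⟩ : ℂ) ≤ d := by
      rw [dist_eq_norm]
      refine (Complex.norm_le_abs_re_add_abs_im _).trans ?_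
      show |p.1.re - b| + |p.1.im - p.1.im| ≤ d
      rw [sub_self, abs_zero]
      linarith
    rw [Prod.dist_eq, dist_self]
    exact max_le h4 hd.le

/-- **THE INTERFACE THEOREM OF BLOCK A1.**

Proof. `exists_boxes`: `w, r, Z`; `Bo i := Bo a y₀ w g₀ (2 r) i`, `y₁' := y₀ - w / 2`,
`y₂ := y₀ - 3 w / 4`, `r' := 3 r / 2`.
For `i ≤ P`: `coord` on `Bo i ∩ OL` (open) for `Z i` and `W` (restrict `Ex` to the smaller set: the
fields are antitone in `O`): `F i`. For `i < P`, `t := a (i + 1) - a i > 0`: `Ex.push` for `Z i`, `Bo i`: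
exact on `PO Ω (Bo i) t`; `coord` on `Bo (i + 1) ∩ PO Ω (Bo i) t` for `Z (i + 1)` and the pushed
family: `G (i + 1)`. Put (`n` arbitrary, total functions, `F i`, `G i` arbitrary outside the range, `G 0 := id`)
`g i n p := (pe (ε n) (a i) (fun p => F i n p - p) p).1`, `f i n p := (..).2`,
`A i n p := (pe (ε n) (a i) (fun p => G i n p - p) p).1`, `B i n p := (..).2`.
`per`: `pe_tr`. `box, box_lim`: `Cr.dev` with `T i - η`, radius `r` (`sub_lab`, monotone in the radius and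
in `y₁`); components of an analytic function are analytic, `‖p.1‖, ‖p.2‖ ≤ ‖p‖`. `pas, pas_lim`: the same
with `sub_pas`. `rel`: `rel_dev` with `O0 = Bo i ∩ OL`, `O1 = Bo (i + 1) ∩ OL`,
`OP = Bo (i + 1) ∩ PO Ω (Bo i) t`, `OR = OP ∩ PO OL OL t` (`sub_lab, sub_pas, sub_rel`; for `sR` use that
`min .. ≤ Yb (i + 1)`), `hR` = `pass_F`; then take components.
`BZ.ex`: `Z`; `BZ.T_lt`, `BZ.Y_lt`: from `exists_boxes`. `BZ.lab`: `W n p = Z i n (F i n p)` on a compact set (`cthickening` of `Sg`), and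
`F i n p = p + pe ..` by `Cr.dev` (`4 ε n ≤` the width). `BZ.pas`: the same. -/
theorem exists_BC (hV : VF U ε M g gn) (hz : Fw M g Ω z) (hOL : IsOpen OL) (hOΩ : OL ⊆ Ω)
    (hG : Geo Ω OL g₀ r₀ y₀ y₁ P a T Yb) {W : ℕ → ℂ × ℂ → ℂ × ℂ} (hW : Ex U ε gn OL z W) :
    ∃ w r : ℝ, 0 < w ∧ 0 < r ∧ 2 * r ≤ r₀ ∧ y₁ < y₀ - w / 2 ∧ (∀ i ≤ P, Bo a y₀ w g₀ (2 * r) i ⊆ Ω) ∧
      ∃ (Z : ℕ → ℕ → ℂ × ℂ → ℂ × ℂ) (f g A B : ℕ → ℕ → ℂ × ℂ → ℂ),
        BC U ε g₀ r (y₀ - w / 2) P T Yb f g A B ∧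
        BZ U ε gn z W g₀ r y₀ (y₀ - w / 2) w P a T Yb Z f g A B := by
  classical
  obtain ⟨w, r, hw, hw1, hr, hr0, hBΩ, hT, hY, Z, hZ⟩ := exists_boxes hV hz hG
  have hB : ∀ i, IsOpen (Bo a y₀ w g₀ (2 * r) i) := isOpen_Bo a y₀ w g₀ (2 * r)
  have hta : ∀ i < P, 0 ≤ a (i + 1) - a i := fun i hi => by
    have := hG.a_lt i hi
    linarith
  -- the coordinates
  have hF : ∀ i : ℕ, ∃ F : ℕ → ℂ × ℂ → ℂ × ℂ, i ≤ P →
      (Cr U ε (Bo a y₀ w g₀ (2 * r) i ∩ OL) F ∧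
        ∀ K ⊆ Bo a y₀ w g₀ (2 * r) i ∩ OL, IsCompact K → ∀ᶠ n in (U : Filter ℕ), ∀ p ∈ K,
          Z i n (F n p) = W n p) := by
    intro i
    by_cases hi : i ≤ P
    · obtain ⟨F, h1, h2⟩ := coord hV hz ((hB i).inter hOL)
        (inter_subset_left.trans (hBΩ i hi)) (MainB_mono (hZ i hi) inter_subset_left)
        (MainB_mono hW inter_subset_right)
      exact ⟨F, fun _ => ⟨h1, h2⟩⟩
    · exact ⟨fun _ p => p, fun h => absurd h hi⟩
  choose F hF using hF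
  have hGG : ∀ i : ℕ, ∃ G : ℕ → ℂ × ℂ → ℂ × ℂ, i < P →
      (Cr U ε (Bo a y₀ w g₀ (2 * r) (i + 1) ∩
          PO Ω (Bo a y₀ w g₀ (2 * r) i) (a (i + 1) - a i)) G ∧
        ∀ K ⊆ Bo a y₀ w g₀ (2 * r) (i + 1) ∩
          PO Ω (Bo a y₀ w g₀ (2 * r) i) (a (i + 1) - a i), IsCompact K →
          ∀ᶠ n in (U : Filter ℕ), ∀ p ∈ K,
            Z (i + 1) n (G n p) = push (ε n) (gn n) ⌊(a (i + 1) - a i) / ε n⌋₊ (Z i n) p) := by
    intro i
    by_cases hi : i < P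
    · obtain ⟨F, h1, h2⟩ := coord hV hz ((hB (i + 1)).inter
        (isOpen_PO hz.Ω_open (hB i) (a (i + 1) - a i)))
        (inter_subset_left.trans (hBΩ (i + 1) hi)) (MainB_mono (hZ (i + 1) hi) inter_subset_left)
        (MainB_mono (Ex.push hV hz (hB i) (hZ i hi.le) (hta i hi)) inter_subset_right)
      exact ⟨F, fun _ => ⟨h1, h2⟩⟩
    · exact ⟨fun _ p => p, fun h => absurd h hi⟩
  choose G hGG using hGG
  -- radii
  have hr1 : r ≤ 3 * r / 2 := by linarith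
  have hr2 : r < 3 * r / 2 := by linarith
  have hv1 : y₀ - 3 * w / 4 ≤ y₀ - w / 2 := by linarith
  have hv2 : y₀ - 3 * w / 4 < y₀ - w / 2 := by linarith
  have hcb : closedBall g₀ (3 * r / 2) ⊆ closedBall g₀ r₀ :=
    closedBall_subset_closedBall (by linarith)
  have cT : ∀ i ≤ P, ContinuousOn (T i) (closedBall g₀ (3 * r / 2)) := fun i hi =>
    (hG.T_cont i hi).mono hcb
  have cY : ∀ i < P, ContinuousOn (Yb (i + 1)) (closedBall g₀ (3 * r / 2)) := fun i hi =>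
    (hG.Y_cont i hi).mono hcb
  have sL : ∀ i ≤ P, ∀ η : ℝ, 0 < η →
      Sg (a i) (y₀ - 3 * w / 4) (fun γ => T i γ - η) g₀ (3 * r / 2) ⊆
        Bo a y₀ w g₀ (2 * r) i ∩ OL := fun i hi η hη => sub_lab hG hw hw1 hr hr0 hT hi hη
  have sP : ∀ i < P, ∀ η : ℝ, 0 < η →
      Sg (a (i + 1)) (y₀ - 3 * w / 4) (fun γ => Yb (i + 1) γ - η) g₀ (3 * r / 2) ⊆
        Bo a y₀ w g₀ (2 * r) (i + 1) ∩ PO Ω (Bo a y₀ w g₀ (2 * r) i) (a (i + 1) - a i) :=
    fun i hi η hη => sub_pas hG hw hw1 hr hr0 hY hi hη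
  have oP : ∀ i, IsOpen (Bo a y₀ w g₀ (2 * r) (i + 1) ∩
      PO Ω (Bo a y₀ w g₀ (2 * r) i) (a (i + 1) - a i)) := fun i =>
    (hB (i + 1)).inter (isOpen_PO hz.Ω_open (hB i) _)
  -- the deviations
  have dL : ∀ i ≤ P, ∀ η : ℝ, 0 < η → ∀ δ : ℝ, 0 < δ → ∀ᶠ n in (U : Filter ℕ),
      AnalyticOnNhd ℂ (pe (ε n) (a i) fun p => F i n p - p)
        (Str (y₀ - w / 2) (fun γ => T i γ - η) g₀ r) ∧
      ∀ p ∈ Str (y₀ - w / 2) (fun γ => T i γ - η) g₀ r,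
        ‖pe (ε n) (a i) (fun p => F i n p - p) p‖ ≤ δ := by
    intro i hi η hη δ hδ
    obtain ⟨w', _, h2⟩ := Cr.dev hV.ε_pos hV.ε_lim ((hB i).inter hOL) (hF i hi).1
      ((cT i hi).sub continuousOn_const) (sL i hi η hη)
    filter_upwards [h2 δ hδ] with n hn
    have hs := MainB_str (g₀ := g₀) hv1 hr1 (fun γ => le_refl (T i γ - η))
    exact ⟨hn.1.mono hs, fun p hp => hn.2.1 p (hs hp)⟩
  have dP : ∀ i < P, ∀ η : ℝ, 0 < η → ∀ δ : ℝ, 0 < δ → ∀ᶠ n in (U : Filter ℕ),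
      AnalyticOnNhd ℂ (pe (ε n) (a (i + 1)) fun p => G i n p - p)
        (Str (y₀ - w / 2) (fun γ => Yb (i + 1) γ - η) g₀ r) ∧
      ∀ p ∈ Str (y₀ - w / 2) (fun γ => Yb (i + 1) γ - η) g₀ r,
        ‖pe (ε n) (a (i + 1)) (fun p => G i n p - p) p‖ ≤ δ := by
    intro i hi η hη δ hδ
    obtain ⟨w', _, h2⟩ := Cr.dev hV.ε_pos hV.ε_lim (oP i) (hGG i hi).1
      ((cY i hi).sub continuousOn_const) (sP i hi η hη)
    filter_upwards [h2 δ hδ] with n hn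
    have hs := MainB_str (g₀ := g₀) hv1 hr1 (fun γ => le_refl (Yb (i + 1) γ - η))
    exact ⟨hn.1.mono hs, fun p hp => hn.2.1 p (hs hp)⟩
  have afst : ∀ {X : ℂ × ℂ → ℂ × ℂ} {S : Set (ℂ × ℂ)}, AnalyticOnNhd ℂ X S →
      AnalyticOnNhd ℂ (fun p => (X p).1) S := fun h p hp =>
    AnalyticAt.fun_comp (g := Prod.fst) analyticAt_fst (h p hp)
  have asnd : ∀ {X : ℂ × ℂ → ℂ × ℂ} {S : Set (ℂ × ℂ)}, AnalyticOnNhd ℂ X S →
      AnalyticOnNhd ℂ (fun p => (X p).2) S := fun h p hp =>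
    AnalyticAt.fun_comp (g := Prod.snd) analyticAt_snd (h p hp)
  refine ⟨w, r, hw, hr, hr0, by linarith, hBΩ, Z,
    fun i n p => (pe (ε n) (a i) (fun p => F i n p - p) p).2,
    fun i n p => (pe (ε n) (a i) (fun p => F i n p - p) p).1,
    fun i n p => (pe (ε n) (a i) (fun p => G (i - 1) n p - p) p).1,
    fun i n p => (pe (ε n) (a i) (fun p => G (i - 1) n p - p) p).2, ?_, ?_⟩
  · refine ⟨?_, ?_, ?_, ?_, ?_, ?_⟩
    · intro i n p
      simp only [pe_tr (hV.ε_pos n)]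
      exact ⟨trivial, trivial, trivial, trivial⟩
    · intro i hi η hη
      filter_upwards [dL i hi η hη 1 one_pos] with n hn
      exact ⟨asnd hn.1, afst hn.1⟩
    · intro i hi η hη δ hδ
      filter_upwards [dL i hi η hη δ hδ] with n hn p hp
      exact ⟨(norm_snd_le _).trans (hn.2 p hp), (norm_fst_le _).trans (hn.2 p hp)⟩
    · intro i hi η hη
      filter_upwards [dP i hi η hη 1 one_pos] with n hn
      exact ⟨afst hn.1, asnd hn.1⟩
    · intro i hi η hη δ hδ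
      filter_upwards [dP i hi η hη δ hδ] with n hn p hp
      exact ⟨(norm_fst_le _).trans (hn.2 p hp), (norm_snd_le _).trans (hn.2 p hp)⟩
    · intro i hi η hη
      have hrel := rel_dev hV.ε_pos hV.ε_lim ((hB i).inter hOL) ((hB (i + 1)).inter hOL) (oP i)
        ((oP i).inter (isOpen_PO hOL hOL (a (i + 1) - a i))) (hF i hi.le).1 (hF (i + 1) hi).1
        (hGG i hi).1 (hG.a_lt i hi) hv2 hr2 (cT i hi.le) (cT (i + 1) hi) (cY i hi)
        (sL i hi.le) (sL (i + 1) hi) (sP i hi) (fun η hη => by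
          refine subset_inter (Subset.trans ?_ (sP i hi η hη))
            (sub_rel hG hw hw1 hr hr0 hi hη)
          rintro p ⟨h1, h2, h3, h4⟩
          exact ⟨h1, h2, h3, h4.trans (sub_le_sub_right (min_le_right _ _) _)⟩)
        (fun K hK hKc => pass_F hV hz (hB i) (hB (i + 1)) hOL (hBΩ (i + 1) hi) (hZ (i + 1) hi) hW
          (hF i hi.le).1 (hF i hi.le).2 (hF (i + 1) hi).1 (hF (i + 1) hi).2 (hta i hi)
          (hGG i hi).1 (hGG i hi).2 hKc (hK.trans inter_subset_left)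
          (fun p hp s hs => (hK hp).2.2 s hs)) hη
      filter_upwards [hrel] with n hn p hp
      exact ⟨congrArg Prod.snd (hn p hp), congrArg Prod.fst (hn p hp)⟩
  · refine ⟨hw, hZ, by linarith, ?_, ?_, ?_, ?_⟩
    · intro i hi γ hγ
      have := hT i hi γ (ball_subset_closedBall hγ)
      linarith
    · intro i hi γ hγ
      have := hY i hi γ (ball_subset_closedBall hγ)
      linarith
    · intro i hi η hη
      filter_upwards [MainB_near hV.ε_pos hV.ε_lim ((hB i).inter hOL) (hF i hi).1 hv1 hr1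
        ((cT i hi).sub continuousOn_const) (sL i hi η hη) (Q := fun n p q => Z i n q = W n p)
        (hF i hi).2] with n hn p hp hpa
      exact (hn p hp hpa).symm
    · intro i hi η hη
      filter_upwards [MainB_near hV.ε_pos hV.ε_lim (oP i) (hGG i hi).1 hv1 hr1
        ((cY i hi).sub continuousOn_const) (sP i hi η hη)
        (Q := fun n p q => Z (i + 1) n q =
          push (ε n) (gn n) ⌊(a (i + 1) - a i) / ε n⌋₊ (Z i n) p)
        (hGG i hi).2] with n hn p hp hpa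
      exact hn p hp hpa

end Pool.Agent.MP_ae5b4e_an_A1
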