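import Pool.Agent.Lib.MP_ae5b4e_an_A1.Defs

/-! # A1: periodic extensions of the deviations -/

noncomputable section

namespace Pool.Agent.MP_ae5b4e_an_A1

open Complex Set Filter Topology Metric

private theorem Pe_re (t : ℝ) (p : ℂ × ℂ) : (tr (t : ℂ) p).1.re = p.1.re + t := by
  rw [tr_fst, add_re, ofReal_re]

private theorem Pe_im (t : ℝ) (p : ℂ × ℂ) : (tr (t : ℂ) p).1.im = p.1.im := by
  rw [tr_fst, add_im, ofReal_im, add_zero]

private theorem Pe_tr (s t u : ℝ) (h : s + t = u) (p : ℂ × ℂ) :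
    tr (s : ℂ) (tr (t : ℂ) p) = tr (u : ℂ) p := by
  rw [tr_tr, ← ofReal_add, h]

private theorem Pe_def (ε a : ℝ) (D : ℂ × ℂ → ℂ × ℂ) (p : ℂ × ℂ) :
    pe ε a D p = D (tr ((-((round ((p.1.re - a) / ε) : ℤ) * ε) : ℝ) : ℂ) p) := by
  rw [ofReal_neg]
  rfl

private theorem Pe_trz {ε : ℝ} (hε : 0 < ε) (a : ℝ) (D : ℂ × ℂ → ℂ × ℂ) (k : ℤ) (p : ℂ × ℂ) :
    pe ε a D (tr ((k * ε : ℝ) : ℂ) p) = pe ε a D p := by
  rw [Pe_def, Pe_def, Pe_re]
  have h : (p.1.re + k * ε - a) / ε = (p.1.re - a) / ε + k := by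
    field_simp
    ring
  rw [h, round_add_intCast]
  refine congrArg D (Pe_tr _ _ _ ?_ p)
  push_cast
  ring

/-- Proof. `round (x + 1) = round x + 1` (`round_add_one`), `(Re (p.1 + ε) - a) / ε = x + 1`. -/
theorem pe_tr {ε : ℝ} (hε : 0 < ε) (a : ℝ) (D : ℂ × ℂ → ℂ × ℂ) (p : ℂ × ℂ) :
    pe ε a D (tr ε p) = pe ε a D p := by
  have h := Pe_trz hε a D 1 p
  rwa [Int.cast_one, one_mul] at h

/-- Proof. Induction from `pe_tr` (`Int.induction_on`). -/
theorem pe_trz {ε : ℝ} (hε : 0 < ε) (a : ℝ) (D : ℂ × ℂ → ℂ × ℂ) (k : ℤ) (p : ℂ × ℂ) :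
    pe ε a D (tr ((k * ε : ℝ) : ℂ) p) = pe ε a D p :=
  Pe_trz hε a D k p

/-- The reduced point is within `ε / 2` of the line. Proof. `abs_sub_round`. -/
theorem pe_red {ε : ℝ} (hε : 0 < ε) (a x : ℝ) :
    |x - (round ((x - a) / ε) : ℤ) * ε - a| ≤ ε / 2 := by
  have h := abs_sub_round ((x - a) / ε)
  have e : x - (round ((x - a) / ε) : ℤ) * ε - a =
      ((x - a) / ε - (round ((x - a) / ε) : ℤ)) * ε := by
    field_simp
    ring
  rw [e, abs_mul, abs_of_pos hε]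
  have := mul_le_mul_of_nonneg_right h hε.le
  linarith

/-- Proof. Let `k := round ((Re p.1 - a) / ε)`, `q := tr (- k ε) p`, `|Re q.1 - a| ≤ ε / 2`. `D`
is analytic at `q`, so `D ∘ tr (- k ε)` is analytic at `p`, and it is equal to `pe ε a D` near
`p`: for `p'` near `p` (within `ε / 8`), `k' := round (..)` is `k` or `k ± 1`; the points `tr (- k
ε) p'`, `tr (- k' ε) p'` differ by `ε` and both have `|Re - a| ≤ ε`, and their imaginary part and
parameter are in the open set `T` if `p'` is near `p`, so the values of `D` are equal by `hper`.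
-/
theorem pe_an {ε a : ℝ} (hε : 0 < ε) {D : ℂ × ℂ → ℂ × ℂ} {T : Set (ℝ × ℂ)} (hT : IsOpen T)
    (han : ∀ p : ℂ × ℂ, |p.1.re - a| ≤ ε → (p.1.im, p.2) ∈ T → AnalyticAt ℂ D p)
    (hper : ∀ p : ℂ × ℂ, |p.1.re - a| ≤ ε → (p.1.im, p.2) ∈ T → D (tr ε p) = D p) :
    ∀ p : ℂ × ℂ, (p.1.im, p.2) ∈ T → AnalyticAt ℂ (pe ε a D) p := by
  intro p hp
  obtain ⟨k, hk⟩ : ∃ k : ℤ, k = round ((p.1.re - a) / ε) := ⟨_, rfl⟩
  have hr := pe_red hε a p.1.re
  rw [← hk] at hr
  obtain ⟨hr1, hr2⟩ := abs_le.mp hr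
  have hq : AnalyticAt ℂ D (tr ((-(k * ε) : ℝ) : ℂ) p) := by
    refine han _ ?_ ?_
    · rw [Pe_re, abs_le]
      constructor <;> linarith
    · rw [Pe_im]
      exact hp
  have hcomp : AnalyticAt ℂ (fun p' => D (tr ((-(k * ε) : ℝ) : ℂ) p')) p :=
    AnalyticAt.fun_comp (g := D) hq (analyticAt_tr _ p)
  refine hcomp.congr ?_
  have h1 : ∀ᶠ p' : ℂ × ℂ in 𝓝 p, |p'.1.re - p.1.re| < ε / 2 := by
    have hc : Continuous fun p' : ℂ × ℂ => |p'.1.re - p.1.re| := by fun_prop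
    refine hc.continuousAt.eventually_lt_const ?_
    change |p.1.re - p.1.re| < ε / 2
    rw [sub_self, abs_zero]
    linarith
  have h2 : ∀ᶠ p' : ℂ × ℂ in 𝓝 p, (p'.1.im, p'.2) ∈ T := by
    have hc : Continuous fun p' : ℂ × ℂ => (p'.1.im, p'.2) := by fun_prop
    exact hc.continuousAt.eventually (hT.mem_nhds hp)
  filter_upwards [h1, h2] with p' p1 p2
  obtain ⟨p3, p4⟩ := abs_lt.mp p1
  rw [Pe_def]
  obtain ⟨k', hk'⟩ : ∃ k' : ℤ, k' = round ((p'.1.re - a) / ε) := ⟨_, rfl⟩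
  have hr' := pe_red hε a p'.1.re
  rw [← hk'] at hr' ⊢
  obtain ⟨hr3, hr4⟩ := abs_le.mp hr'
  have hkk : |((k' - k : ℤ) : ℝ)| < 2 := by
    rw [abs_lt]
    push_cast
    constructor
    · have h3 : -(2 * ε) < ((k':ℝ) - k) * ε := by linarith
      by_contra h4
      have h5 := mul_le_mul_of_nonneg_right (not_lt.mp h4) hε.le
      linarith
    · have h3 : ((k':ℝ) - k) * ε < 2 * ε := by linarith
      exact lt_of_mul_lt_mul_right h3 hε.le
  have hkk' : |k' - k| < 2 := by exact_mod_cast hkk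
  obtain ⟨hk1, hk2⟩ := abs_lt.mp hkk'
  have h3 : k' = k ∨ k' = k + 1 ∨ k' = k - 1 := by omega
  rcases h3 with h3 | h3 | h3
  · rw [h3]
  · have h4 := hper (tr ((-(k' * ε) : ℝ) : ℂ) p') (by
      rw [Pe_re, abs_le]
      constructor <;> linarith) (by rw [Pe_im]; exact p2)
    rw [← h4]
    refine congrArg D (Pe_tr _ _ _ ?_ p').symm
    rw [h3]
    push_cast
    ring
  · have h5 : (k':ℝ) = k - 1 := by rw [h3]; push_cast; ring
    have h4 := hper (tr ((-(k * ε) : ℝ) : ℂ) p') (by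
      rw [Pe_re, abs_le]
      constructor <;> linarith) (by rw [Pe_im]; exact p2)
    rw [← h4]
    refine congrArg D (Pe_tr _ _ _ ?_ p')
    rw [h5]
    ring

/-- Proof. `pe ε a D p = D (tr (- k ε) p)`, `k = round ((Re p.1 - a) / ε)`; all the points `tr (-
j ε) p`, `j` between `0` and `k`, have `|Re - a| ≤ max |Re p.1 - a| (ε / 2) ≤ w`; induction with
`hper`. -/
theorem pe_eq {ε a w : ℝ} (hε : 0 < ε) (hw : ε ≤ w) {D : ℂ × ℂ → ℂ × ℂ} {p : ℂ × ℂ}
    (hp : |p.1.re - a| ≤ w)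
    (hper : ∀ q : ℂ × ℂ, |q.1.re - a| ≤ w → q.1.im = p.1.im → q.2 = p.2 → D (tr ε q) = D q) :
    pe ε a D p = D p := by
  rw [Pe_def]
  obtain ⟨k, hk⟩ : ∃ k : ℤ, k = round ((p.1.re - a) / ε) := ⟨_, rfl⟩
  have hr := pe_red hε a p.1.re
  rw [← hk] at hr ⊢
  obtain ⟨hr1, hr2⟩ := abs_le.mp hr
  obtain ⟨hp1, hp2⟩ := abs_le.mp hp
  rcases le_or_gt 0 k with h0 | h0
  · obtain ⟨m, rfl⟩ := Int.eq_ofNat_of_zero_le h0
    have key : ∀ j : ℕ, j ≤ m → D (tr ((-(j * ε) : ℝ) : ℂ) p) = D p := by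
      intro j
      induction j with
      | zero =>
        intro _
        rw [Nat.cast_zero, zero_mul, neg_zero, ofReal_zero, tr_zero]
      | succ j ih =>
        intro hj
        rw [← ih (by omega)]
        have hj' : ((j:ℝ) + 1) * ε ≤ m * ε := by
          refine mul_le_mul_of_nonneg_right ?_ hε.le
          exact_mod_cast hj
        have hj0 : 0 ≤ (j:ℝ) * ε := by positivity
        have h4 := hper (tr ((-(((j + 1 : ℕ) : ℝ) * ε) : ℝ) : ℂ) p) (by
          rw [Pe_re, abs_le]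
          push_cast at hr1 ⊢
          constructor <;> linarith) (Pe_im _ _) rfl
        rw [← h4]
        refine congrArg D (Pe_tr _ _ _ ?_ p)
        push_cast
        ring
    have h5 := key m le_rfl
    push_cast at h5 ⊢
    exact h5
  · obtain ⟨m, hm⟩ := Int.eq_ofNat_of_zero_le (show 0 ≤ -k by omega)
    have hkm : (k:ℝ) = -(m:ℝ) := by
      have : k = -(m:ℤ) := by omega
      rw [this]
      push_cast
      ring
    rw [hkm] at hr1 hr2 ⊢
    have key : ∀ j : ℕ, j ≤ m → D (tr (((j * ε) : ℝ) : ℂ) p) = D p := by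
      intro j
      induction j with
      | zero =>
        intro _
        rw [Nat.cast_zero, zero_mul, ofReal_zero, tr_zero]
      | succ j ih =>
        intro hj
        rw [← ih (by omega)]
        have hj' : ((j:ℝ) + 1) * ε ≤ m * ε := by
          refine mul_le_mul_of_nonneg_right ?_ hε.le
          exact_mod_cast hj
        have hj0 : 0 ≤ (j:ℝ) * ε := by positivity
        have h4 := hper (tr (((j * ε) : ℝ) : ℂ) p) (by
          rw [Pe_re, abs_le]
          constructor <;> linarith) (Pe_im _ _) rfl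
        rw [← h4]
        refine congrArg D (Pe_tr _ _ _ ?_ p).symm
        push_cast
        ring
    have h5 := key m le_rfl
    have e : -(-(m:ℝ) * ε) = m * ε := by ring
    rw [e]
    exact h5

/-- Proof. Closed and bounded: `closedBall` compact, `T` continuous on it, so bounded
(`IsCompact.exists_bound_of_continuousOn`); closedness:
`ContinuousOn.preimage_isClosed_of_isClosed` or sequences; or: `Sg` is the image of the compact
set `{(y, γ) | γ ∈ closedBall, y₁ ≤ y ≤ T γ}` under `(y, γ) ↦ (a + i y, γ)`. -/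
theorem isCompact_Sg {a y₁ : ℝ} {T : ℂ → ℝ} {g₀ : ℂ} {r : ℝ}
    (hT : ContinuousOn T (closedBall g₀ r)) : IsCompact (Sg a y₁ T g₀ r) := by
  obtain ⟨C, hC⟩ := (isCompact_closedBall g₀ r).exists_bound_of_continuousOn hT
  refine Metric.isCompact_of_isClosed_isBounded ?_ ?_
  · have h1 : IsClosed ((Prod.snd ⁻¹' closedBall g₀ r : Set (ℂ × ℂ)) ∩
        (fun p : ℂ × ℂ => T p.2 - p.1.im) ⁻¹' Ici 0) := by
      refine ContinuousOn.preimage_isClosed_of_isClosed ?_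
        (isClosed_closedBall.preimage continuous_snd) isClosed_Ici
      refine ContinuousOn.sub ?_ (by fun_prop)
      exact hT.comp continuous_snd.continuousOn (fun p hp => hp)
    have h2 : IsClosed {p : ℂ × ℂ | p.1.re = a ∧ y₁ ≤ p.1.im} :=
      (isClosed_eq (continuous_re.comp continuous_fst) continuous_const).inter
        (isClosed_le continuous_const (continuous_im.comp continuous_fst))
    have e : Sg a y₁ T g₀ r = ((Prod.snd ⁻¹' closedBall g₀ r : Set (ℂ × ℂ)) ∩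
        (fun p : ℂ × ℂ => T p.2 - p.1.im) ⁻¹' Ici 0) ∩ {p : ℂ × ℂ | p.1.re = a ∧ y₁ ≤ p.1.im} := by
      ext p
      simp only [Sg, Set.mem_ofPred_eq, mem_inter_iff, mem_preimage, mem_Ici, sub_nonneg]
      tauto
    rw [e]
    exact h1.inter h2
  · refine ((isBounded_closedBall (x := (0:ℂ)) (r := |a| + |y₁| + C)).prod
      (isBounded_closedBall (x := g₀) (r := r))).subset ?_
    rintro p ⟨h1, h2, h3, h4⟩
    refine ⟨?_, h1⟩
    rw [mem_closedBall_zero_iff]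
    refine (Complex.norm_le_abs_re_add_abs_im p.1).trans ?_
    have h5 := abs_le.mp (hC p.2 h1)
    have h6 : |p.1.im| ≤ |y₁| + C := by
      rw [abs_le]
      have h7 := neg_abs_le y₁
      have h8 := abs_nonneg y₁
      have h9 : 0 ≤ C := (norm_nonneg _).trans (hC p.2 h1)
      constructor <;> linarith
    rw [h2]
    linarith

/-- THE DEVIATION as a periodic function on the strip.

Proof. `Sg` is compact (`isCompact_Sg`), `⊆ O`: take `w > 0` with `K := cthickening (4 w) Sg ⊆ O`.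
For almost all `n`: `ε n ≤ w` and on the compact `K`: `F n` analytic, `Cr.eq`, `‖F n p - p‖ ≤ δ`.
`D := fun p => F n p - p` satisfies `D (tr ε p) = D p` on `K` (`tr_sub`). The points `p` with `(Im
p.1, p.2) ∈ T' := {(y, γ) | γ ∈ ball g₀ r, y₁ < y < T γ}` (open: `T` is continuous on the ball)
and `|Re p.1 - a| ≤ 2 w` are in `K`. `pe_an`, `pe_red` (bound), `pe_eq` with `w`. -/
theorem Cr.dev {U : Ultrafilter ℕ} {ε : ℕ → ℝ} (h0 : ∀ n, 0 < ε n) (h1 : Tendsto ε U (𝓝 0))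
    {O : Set (ℂ × ℂ)} (hO : IsOpen O) {F : ℕ → ℂ × ℂ → ℂ × ℂ} (hF : Cr U ε O F)
    {a y₁ : ℝ} {T : ℂ → ℝ} {g₀ : ℂ} {r : ℝ} (hT : ContinuousOn T (closedBall g₀ r))
    (hsub : Sg a y₁ T g₀ r ⊆ O) :
    ∃ w : ℝ, 0 < w ∧ ∀ δ : ℝ, 0 < δ → ∀ᶠ n in (U : Filter ℕ),
      AnalyticOnNhd ℂ (pe (ε n) a fun p => F n p - p) (Str y₁ T g₀ r) ∧
      (∀ p ∈ Str y₁ T g₀ r, ‖pe (ε n) a (fun p => F n p - p) p‖ ≤ δ) ∧
      ∀ p ∈ Str y₁ T g₀ r, |p.1.re - a| ≤ w →
        F n p = p + pe (ε n) a (fun p => F n p - p) p := by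
  have hSc : IsCompact (Sg a y₁ T g₀ r) := isCompact_Sg hT
  obtain ⟨d, hd, hdO⟩ := hSc.exists_cthickening_subset_open hO hsub
  have hKc : IsCompact (cthickening d (Sg a y₁ T g₀ r)) := hSc.cthickening
  have hT' : IsOpen {x : ℝ × ℂ | x.2 ∈ ball g₀ r ∧ y₁ < x.1 ∧ x.1 < T x.2} := by
    have h2 : IsOpen ((Prod.snd ⁻¹' ball g₀ r : Set (ℝ × ℂ)) ∩
        (fun x : ℝ × ℂ => T x.2 - x.1) ⁻¹' Ioi 0) := by
      refine ContinuousOn.isOpen_inter_preimage ?_ (isOpen_ball.preimage continuous_snd)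
        isOpen_Ioi
      refine ContinuousOn.sub ?_ (by fun_prop)
      exact (hT.mono ball_subset_closedBall).comp continuous_snd.continuousOn (fun p hp => hp)
    have h3 : IsOpen {x : ℝ × ℂ | y₁ < x.1} := isOpen_lt continuous_const continuous_fst
    have e : {x : ℝ × ℂ | x.2 ∈ ball g₀ r ∧ y₁ < x.1 ∧ x.1 < T x.2} =
        ((Prod.snd ⁻¹' ball g₀ r : Set (ℝ × ℂ)) ∩
        (fun x : ℝ × ℂ => T x.2 - x.1) ⁻¹' Ioi 0) ∩ {x : ℝ × ℂ | y₁ < x.1} := by
      ext x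
      simp only [Set.mem_ofPred_eq, mem_inter_iff, mem_preimage, mem_Ioi, sub_pos]
      tauto
    rw [e]
    exact h2.inter h3
  have hmem : ∀ p : ℂ × ℂ, |p.1.re - a| ≤ d →
      (p.1.im, p.2) ∈ {x : ℝ × ℂ | x.2 ∈ ball g₀ r ∧ y₁ < x.1 ∧ x.1 < T x.2} →
      p ∈ cthickening d (Sg a y₁ T g₀ r) := by
    rintro p hp ⟨q1, q2, q3⟩
    refine mem_cthickening_of_dist_le p ((⟨a, p.1.im⟩ : ℂ), p.2) d _
      ⟨ball_subset_closedBall q1, rfl, q2.le, q3.le⟩ ?_
    rw [Prod.dist_eq, dist_self, max_eq_left dist_nonneg, dist_eq_norm]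
    have e : p.1 - (⟨a, p.1.im⟩ : ℂ) = ((p.1.re - a : ℝ) : ℂ) := by
      apply Complex.ext
      · simp
      · simp
    rw [e, norm_real]
    exact hp
  refine ⟨d / 4, by positivity, fun δ hδ => ?_⟩
  have hε : ∀ᶠ n in (U : Filter ℕ), ε n < d / 4 := h1.eventually_lt_const (by positivity)
  filter_upwards [hε, hF.an _ hdO hKc, hF.eq _ hdO hKc, hF.lim _ hdO hKc δ hδ]
    with n n1 n2 n3 n4
  have hn := h0 n
  have hD : ∀ p ∈ cthickening d (Sg a y₁ T g₀ r),
      (fun p => F n p - p) (tr (ε n) p) = (fun p => F n p - p) p := by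
    intro p hp
    change F n (tr (ε n) p) - tr (ε n) p = F n p - p
    rw [n3 p hp, tr_sub]
  refine ⟨?_, ?_, ?_⟩
  · intro p hp
    refine pe_an hn hT' (fun q hq1 hq2 => ?_) (fun q hq1 hq2 => ?_) p hp
    · exact (n2 q (hmem q (by linarith) hq2)).sub analyticAt_id
    · exact hD q (hmem q (by linarith) hq2)
  · intro p hp
    rw [Pe_def]
    refine n4 _ (hmem _ ?_ ?_)
    · have h2 := pe_red hn a p.1.re
      rw [Pe_re]
      have e : p.1.re + -((round ((p.1.re - a) / ε n) : ℤ) * ε n) - a =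
          p.1.re - (round ((p.1.re - a) / ε n) : ℤ) * ε n - a := by ring
      rw [e]
      linarith
    · rw [Pe_im]
      exact hp
  · intro p hp hpw
    have h2 := pe_eq (D := fun p => F n p - p) hn n1.le hpw (fun q hq1 hq2 hq3 => by
      refine hD q (hmem q (by linarith) ?_)
      rw [hq2, hq3]
      exact hp)
    rw [h2]
    change F n p = p + (F n p - p)
    abel

end Pool.Agent.MP_ae5b4e_an_A1
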