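import Pool.Agent.Lib.MP_ae5b4e_an_A1.Push
import Pool.Agent.Lib.MP_ae5b4e_an_A1.Coord
import Pool.Agent.Lib.MP_ae5b4e_an_A1.Pe

/-! # A1: one passage -/

noncomputable section

namespace Pool.Agent.MP_ae5b4e_an_A1

open Complex Set Filter Topology Metric

variable {U : Ultrafilter ℕ} {ε : ℕ → ℝ} {M Ω : Set (ℂ × ℂ)} {g : ℂ × ℂ → ℂ × ℂ}
  {gn : ℕ → ℂ × ℂ → ℂ × ℂ} {z : ℂ × ℂ → ℂ × ℂ}

private theorem PassF_dist (a b : ℝ) (p : ℂ × ℂ) :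
    dist (tr (-(a : ℂ)) p) (tr (-(b : ℂ)) p) = |b - a| := by
  have h : dist (tr (-(a : ℂ)) p).1 (tr (-(b : ℂ)) p).1 = |b - a| := by
    rw [tr_fst, tr_fst, dist_eq_norm]
    have e : p.1 + -(a:ℂ) - (p.1 + -(b:ℂ)) = ((b - a : ℝ) : ℂ) := by
      push_cast
      ring
    rw [e, Complex.norm_real, Real.norm_eq_abs]
  rw [Prod.dist_eq, h, tr_snd, tr_snd, dist_self]
  exact max_eq_left (abs_nonneg _)

/-- ONE PASSAGE. `Z0, Z1` exact families on `O0, O1`, `W` the family of the true labels on `OL`,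
`F0, F1` the coordinates of `W` in `Z0, Z1`, `G` the coordinates of the pushed `Z0` in `Z1`.

Proof. `m n := ⌊t / ε n⌋₊`, `m ε ≤ t`, `m ε → t`. `Ex.uniq` for `Z1` and the compact `K ⊆ O1`: `r`. Let
`0 < δ < r / 4` with `K₁ := cthickening δ K ⊆ O1 ∩ PO Ω O0 t` (open: `isOpen_PO`), compact. The compact
`K₀ := tr (-t) '' K ⊆ O0 ∩ OL` (`h1`, `h2` with `s = t`), `K₀' := cthickening δ' K₀ ⊆ O0 ∩ OL`. For
almost all `n`: for `p ∈ K`, `q := tr (- m ε) p ∈ K₀'`; `‖F0 n q - q‖ ≤ δ`, `Z0 n (F0 n q) = W n q`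
(`eF0` on `K₀'`); `p' := tr (m ε) (F0 n q)` has `‖p' - p‖ = ‖F0 n q - q‖ ≤ δ`, so `p' ∈ K₁` and
`Z1 n (G n p') = push m (Z0 n) p' = Φ^[m] (Z0 n (F0 n q)) = Φ^[m] (W n q) = push m (W n) p = W n p`
(`Ex.iter` for `W`, `OL`, `K`, `j = m`) `= Z1 n (F1 n p)` (`eF1` on `K ⊆ O1 ∩ OL`, `h2` with `s = 0`).
`‖G n p' - p‖ ≤ 2 δ`, `‖F1 n p - p‖ ≤ δ`: `Ex.uniq` gives `F1 n p = G n p'`. -/
theorem pass_F (hV : VF U ε M g gn) (hz : Fw M g Ω z) {O0 O1 OL : Set (ℂ × ℂ)} (hO0 : IsOpen O0)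
    (hO1 : IsOpen O1) (hOL : IsOpen OL) (h1Ω : O1 ⊆ Ω) {Z0 Z1 W F0 F1 G : ℕ → ℂ × ℂ → ℂ × ℂ}
    (hZ1 : Ex U ε gn O1 z Z1) (hW : Ex U ε gn OL z W) (hF0 : Cr U ε (O0 ∩ OL) F0)
    (eF0 : ∀ K ⊆ O0 ∩ OL, IsCompact K → ∀ᶠ n in (U : Filter ℕ), ∀ p ∈ K, Z0 n (F0 n p) = W n p)
    (hF1 : Cr U ε (O1 ∩ OL) F1)
    (eF1 : ∀ K ⊆ O1 ∩ OL, IsCompact K → ∀ᶠ n in (U : Filter ℕ), ∀ p ∈ K, Z1 n (F1 n p) = W n p)
    {t : ℝ} (ht : 0 ≤ t) (hG : Cr U ε (O1 ∩ PO Ω O0 t) G)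
    (eG : ∀ K ⊆ O1 ∩ PO Ω O0 t, IsCompact K → ∀ᶠ n in (U : Filter ℕ), ∀ p ∈ K,
      Z1 n (G n p) = push (ε n) (gn n) ⌊t / ε n⌋₊ (Z0 n) p)
    {K : Set (ℂ × ℂ)} (hK : IsCompact K) (h1 : K ⊆ O1 ∩ PO Ω O0 t)
    (h2 : ∀ p ∈ K, ∀ s ∈ Icc 0 t, tr (-(s : ℂ)) p ∈ OL) :
    ∀ᶠ n in (U : Filter ℕ), ∀ p ∈ K, F1 n p =
      G n (tr ((⌊t / ε n⌋₊ * ε n : ℝ) : ℂ) (F0 n (tr (-((⌊t / ε n⌋₊ * ε n : ℝ) : ℂ)) p))) := by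
  obtain ⟨r, hr, huniq⟩ := Ex.uniq hz hO1 h1Ω hZ1 hK (fun p hp => (h1 hp).1)
  have hA : IsOpen (O1 ∩ PO Ω O0 t) := hO1.inter (isOpen_PO hz.Ω_open hO0 t)
  obtain ⟨δ₁, hδ₁, hsub₁⟩ := hK.exists_cthickening_subset_open hA h1
  have hK1c : IsCompact (cthickening δ₁ K) := hK.cthickening
  have hK0 : IsCompact (tr (-(t : ℂ)) '' K) := hK.image (continuous_tr _)
  have hK0s : tr (-(t : ℂ)) '' K ⊆ O0 ∩ OL := by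
    rintro _ ⟨p, hp, rfl⟩
    exact ⟨(h1 hp).2.1, h2 p hp t ⟨ht, le_rfl⟩⟩
  obtain ⟨δ₂, hδ₂, hsub₂⟩ := hK0.exists_cthickening_subset_open (hO0.inter hOL) hK0s
  have hK2c : IsCompact (cthickening δ₂ (tr (-(t : ℂ)) '' K)) := hK0.cthickening
  have hδ : 0 < min δ₁ (r / 4) := lt_min hδ₁ (by positivity)
  have hr4 : 0 < r / 4 := by positivity
  have hKOL : K ⊆ O1 ∩ OL := by
    intro p hp
    refine ⟨(h1 hp).1, ?_⟩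
    have h3 := h2 p hp 0 ⟨le_rfl, ht⟩
    rwa [Complex.ofReal_zero, neg_zero, tr_zero] at h3
  have hε : ∀ᶠ n in (U : Filter ℕ), ε n < δ₂ := hV.ε_lim.eventually (gt_mem_nhds hδ₂)
  filter_upwards [huniq, hε, hF0.lim _ hsub₂ hK2c _ hδ, eF0 _ hsub₂ hK2c,
    hG.lim _ hsub₁ hK1c _ hr4, eG _ hsub₁ hK1c, Ex.iter hV.ε_pos hW hK ht h2,
    eF1 K hKOL hK, hF1.lim K hKOL hK _ hr4] with n e1 e2 e3 e4 e5 e6 e7 e8 e9 p hp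
  have hn := hV.ε_pos n
  have hm1 : (⌊t / ε n⌋₊ : ℝ) * ε n ≤ t :=
    (le_div_iff₀ hn).1 (Nat.floor_le (div_nonneg ht hn.le))
  have hm2 : t ≤ (⌊t / ε n⌋₊ : ℝ) * ε n + ε n := by
    have h3 := (div_lt_iff₀ hn).1 (Nat.lt_floor_add_one (t / ε n))
    linarith
  have hq : tr (-((⌊t / ε n⌋₊ * ε n : ℝ) : ℂ)) p ∈ cthickening δ₂ (tr (-(t : ℂ)) '' K) := by
    refine mem_cthickening_of_dist_le _ (tr (-(t : ℂ)) p) _ _ (mem_image_of_mem _ hp) ?_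
    rw [PassF_dist, abs_of_nonneg (by linarith)]
    linarith
  obtain ⟨q, hqdef⟩ : ∃ q, q = tr (-((⌊t / ε n⌋₊ * ε n : ℝ) : ℂ)) p := ⟨_, rfl⟩
  rw [← hqdef] at hq ⊢
  have hpq : tr ((⌊t / ε n⌋₊ * ε n : ℝ) : ℂ) q = p := by
    rw [hqdef, tr_tr, add_neg_cancel, tr_zero]
  obtain ⟨p', hp'⟩ : ∃ p', p' = tr ((⌊t / ε n⌋₊ * ε n : ℝ) : ℂ) (F0 n q) := ⟨_, rfl⟩
  rw [← hp']
  have hpp : p' - p = F0 n q - q := by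
    have h := tr_sub ((⌊t / ε n⌋₊ * ε n : ℝ) : ℂ) (F0 n q) q
    rw [hpq] at h
    rw [hp']
    exact h
  have h3 : ‖p' - p‖ ≤ min δ₁ (r / 4) := by
    rw [hpp]
    exact e3 q hq
  have hp'1 : p' ∈ cthickening δ₁ K := by
    refine mem_cthickening_of_dist_le _ p _ _ hp ?_
    rw [dist_eq_norm]
    exact h3.trans (min_le_left _ _)
  have hback : tr (-((⌊t / ε n⌋₊ * ε n : ℝ) : ℂ)) p' = F0 n q := by
    rw [hp', tr_tr, neg_add_cancel, tr_zero]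
  refine e1 p hp _ _ ?_ ?_ ?_
  · exact (e9 p hp).trans_lt (by linarith)
  · have h4 := e5 p' hp'1
    have h5 : G n p' - p = (G n p' - p') + (p' - p) := by abel
    rw [h5]
    refine (norm_add_le _ _).trans_lt ?_
    have h6 := h3.trans (min_le_right _ _)
    linarith
  · rw [e8 p hp, e6 p' hp'1, ← e7 p hp _ hm1]
    unfold push
    rw [hback, e4 q hq, ← hqdef]

end Pool.Agent.MP_ae5b4e_an_A1
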