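import Pool.Agent.Lib.MP_ae5b4e_an_A1.Flow

/-! # A1: pushed families are exact families -/

noncomputable section

namespace Pool.Agent.MP_ae5b4e_an_A1

open Complex Set Filter Topology Metric

variable {U : Ultrafilter ℕ} {ε : ℕ → ℝ} {M Ω : Set (ℂ × ℂ)} {g : ℂ × ℂ → ℂ × ℂ}
  {gn : ℕ → ℂ × ℂ → ℂ × ℂ} {z : ℂ × ℂ → ℂ × ℂ}

private theorem Push_open (hΩ : IsOpen Ω) (t : ℝ) {φ : ℝ → ℂ} (hφ : Continuous φ) :
    IsOpen {p : ℂ × ℂ | ∀ s ∈ Icc (0:ℝ) t, tr (φ s) p ∈ Ω} := by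
  rw [isOpen_iff_eventually]
  intro p hp
  refine isCompact_Icc.eventually_forall_of_forall_eventually ?_
  intro s hs
  have hc : Continuous (fun y : (ℂ × ℂ) × ℝ => tr (φ y.2) y.1) := by
    unfold tr
    fun_prop
  exact hc.continuousAt.eventually (hΩ.mem_nhds (hp s hs))

private theorem Push_dist (a b : ℝ) (p : ℂ × ℂ) :
    dist (tr (-(a : ℂ)) p) (tr (-(b : ℂ)) p) = |b - a| := by
  have h : dist (tr (-(a : ℂ)) p).1 (tr (-(b : ℂ)) p).1 = |b - a| := by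
    rw [tr_fst, tr_fst, dist_eq_norm]
    have e : p.1 + -(a:ℂ) - (p.1 + -(b:ℂ)) = ((b - a : ℝ) : ℂ) := by
      push_cast
      ring
    rw [e, Complex.norm_real, Real.norm_eq_abs]
  rw [Prod.dist_eq, h, tr_snd, tr_snd, dist_self]
  exact max_eq_left (abs_nonneg _)

/-- the domain of the pushed family -/
def PO (Ω O : Set (ℂ × ℂ)) (t : ℝ) : Set (ℂ × ℂ) :=
  {p | tr (-(t : ℂ)) p ∈ O ∧ ∀ s ∈ Icc 0 t, tr (-(s : ℂ)) p ∈ Ω}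

/-- Proof. Let `p₀ ∈ PO`. `s ↦ tr (-s) p₀` maps the compact `Icc 0 t` into the open `Ω`; by the tube
lemma (`generalized_tube_lemma` or `IsCompact.exists_cthickening_subset_open` for the image segment)
there is `ρ > 0` with `tr (-s) p ∈ Ω` for `‖p - p₀‖ < ρ`, all `s` (`tr_sub`: translations are
isometries); same for `O`. -/
theorem isOpen_PO (hΩ : IsOpen Ω) {O : Set (ℂ × ℂ)} (hO : IsOpen O) (t : ℝ) : IsOpen (PO Ω O t) := by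
  have h1 : IsOpen {p : ℂ × ℂ | tr (-(t : ℂ)) p ∈ O} := hO.preimage (continuous_tr _)
  exact h1.inter (Push_open hΩ t (φ := fun s => -(s : ℂ)) Complex.continuous_ofReal.neg)

/-- PUSHED FAMILIES.

Proof. `m n := ⌊t / ε n⌋₊`, so `m ε ≤ t < (m + 1) ε` and `m ε → t`. Let `K ⊆ PO Ω O t` be compact.
`K₁ := tr (-t) '' K ⊆ O` is compact, and for `q ∈ K₁`, `0 ≤ s ≤ t`: `tr s q ∈ Ω`. Take `ρ > 0` such that
`K₂ := cthickening ρ K₁ ⊆ O ∩ {q | ∀ s ∈ Icc 0 t, tr s q ∈ Ω}` (thicken the compact set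
`{tr s q | q ∈ K₁, s ∈ Icc 0 t} ⊆ Ω` and `K₁ ⊆ O`). For almost all `n`, `q_n (p) := tr (- m ε) p` is in
`K₂` and `AnalyticOnNhd` of `W n` on `K₂`, `‖W n - z‖ ≤ κ` on `K₂`: `iter_close` for `K₂`, `t`, `δ / 2`,
`j = m`: `‖Φ^[m] (W n (q_n p)) - z (tr (m ε) (q_n p))‖ ≤ δ / 2` and `tr (m ε) (q_n p) = p`: so even
`≤ δ / 2`, no error. Analyticity: composition (`W n` analytic at `q_n p`, `Φ^[m]` analytic at
`W n (q_n p)`, `analyticAt_tr`). `eq`: `Ex.eq` for `W` on `K₂`: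
`W n (tr (- m ε) (tr ε p)) = W n (tr ε (q_n p)) = Φ (W n (q_n p))`, so
`push .. (tr ε p) = Φ^[m] (Φ ..) = Φ (Φ^[m] ..)` (`Function.iterate_succ_apply`,
`Function.iterate_succ_apply'`). -/
theorem Ex.push (hV : VF U ε M g gn) (hz : Fw M g Ω z) {O : Set (ℂ × ℂ)} (hO : IsOpen O)
    {W : ℕ → ℂ × ℂ → ℂ × ℂ} (hW : Ex U ε gn O z W) {t : ℝ} (ht : 0 ≤ t) :
    Ex U ε gn (PO Ω O t) z
      (fun n => Pool.Agent.MP_ae5b4e_an_A1.push (ε n) (gn n) ⌊t / ε n⌋₊ (W n)) := by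
  have hm : ∀ n, (⌊t / ε n⌋₊ : ℝ) * ε n ≤ t := by
    intro n
    have h0 := hV.ε_pos n
    have h1 : (⌊t / ε n⌋₊ : ℝ) ≤ t / ε n := Nat.floor_le (div_nonneg ht h0.le)
    exact (le_div_iff₀ h0).1 h1
  have hm2 : ∀ n, t ≤ (⌊t / ε n⌋₊ : ℝ) * ε n + ε n := by
    intro n
    have h0 := hV.ε_pos n
    have h1 : t / ε n < (⌊t / ε n⌋₊ : ℝ) + 1 := Nat.lt_floor_add_one _
    have h2 := (div_lt_iff₀ h0).1 h1
    linarith
  -- the key fact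
  have key : ∀ K ⊆ PO Ω O t, IsCompact K → ∀ δ : ℝ, 0 < δ → ∀ᶠ n in (U : Filter ℕ), ∀ p ∈ K,
      AnalyticAt ℂ (W n) (tr (-((⌊t / ε n⌋₊ * ε n : ℝ) : ℂ)) p) ∧
      AnalyticAt ℂ ((stp (ε n) (gn n))^[⌊t / ε n⌋₊]) (W n (tr (-((⌊t / ε n⌋₊ * ε n : ℝ) : ℂ)) p)) ∧
      W n (tr (ε n) (tr (-((⌊t / ε n⌋₊ * ε n : ℝ) : ℂ)) p)) =
        stp (ε n) (gn n) (W n (tr (-((⌊t / ε n⌋₊ * ε n : ℝ) : ℂ)) p)) ∧
      ‖(stp (ε n) (gn n))^[⌊t / ε n⌋₊] (W n (tr (-((⌊t / ε n⌋₊ * ε n : ℝ) : ℂ)) p)) - z p‖ ≤ δ := by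
    intro K hK hKc δ hδ
    have hopen : IsOpen (O ∩ {q : ℂ × ℂ | ∀ s ∈ Icc (0:ℝ) t, tr (s : ℂ) q ∈ Ω}) :=
      hO.inter (Push_open hz.Ω_open t (φ := fun s => (s : ℂ)) Complex.continuous_ofReal)
    have hK1c : IsCompact (tr (-(t : ℂ)) '' K) := hKc.image (continuous_tr _)
    have hK1 : tr (-(t : ℂ)) '' K ⊆ O ∩ {q : ℂ × ℂ | ∀ s ∈ Icc (0:ℝ) t, tr (s : ℂ) q ∈ Ω} := by
      rintro _ ⟨p, hp, rfl⟩
      refine ⟨(hK hp).1, fun s hs => ?_⟩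
      have h1 := (hK hp).2 (t - s) ⟨by linarith [hs.2], by linarith [hs.1]⟩
      rw [tr_tr]
      have e : (s : ℂ) + -(t : ℂ) = -((t - s : ℝ) : ℂ) := by
        push_cast
        ring
      rw [e]
      exact h1
    obtain ⟨ρ, hρ, hsub⟩ := hK1c.exists_cthickening_subset_open hopen hK1
    have hK2c : IsCompact (cthickening ρ (tr (-(t : ℂ)) '' K)) := hK1c.cthickening
    obtain ⟨κ, hκ, hev⟩ := iter_close hV hz hK2c ht (fun p hp => (hsub hp).2) hδ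
    have hK2O : cthickening ρ (tr (-(t : ℂ)) '' K) ⊆ O := fun p hp => (hsub hp).1
    have hε : ∀ᶠ n in (U : Filter ℕ), ε n < ρ := hV.ε_lim.eventually (gt_mem_nhds hρ)
    filter_upwards [hev, hε, hW.an _ hK2O hK2c, hW.eq _ hK2O hK2c, hW.conv _ hK2O hK2c κ hκ]
      with n h1 h2 h3 h4 h5 p hp
    have hq : tr (-((⌊t / ε n⌋₊ * ε n : ℝ) : ℂ)) p ∈ cthickening ρ (tr (-(t : ℂ)) '' K) := by
      refine mem_cthickening_of_dist_le _ (tr (-(t : ℂ)) p) _ _ (mem_image_of_mem _ hp) ?_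
      rw [Push_dist, abs_of_nonneg (by linarith [hm n])]
      linarith [hm2 n]
    have h6 := h1 _ hq _ (h5 _ hq) _ (hm n)
    refine ⟨h3 _ hq, h6.2, h4 _ hq, ?_⟩
    have e : tr ((⌊t / ε n⌋₊ * ε n : ℝ) : ℂ) (tr (-((⌊t / ε n⌋₊ * ε n : ℝ) : ℂ)) p) = p := by
      rw [tr_tr, add_neg_cancel, tr_zero]
    have h7 := h6.1
    rw [e] at h7
    exact h7
  refine ⟨?_, ?_, ?_⟩
  · intro K hK hKc
    filter_upwards [key K hK hKc 1 one_pos] with n hn p hp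
    obtain ⟨h1, h2, _, _⟩ := hn p hp
    have h3 : AnalyticAt ℂ (fun p => W n (tr (-((⌊t / ε n⌋₊ * ε n : ℝ) : ℂ)) p)) p :=
      AnalyticAt.comp (g := W n) (f := tr (-((⌊t / ε n⌋₊ * ε n : ℝ) : ℂ))) h1 (analyticAt_tr _ _)
    exact AnalyticAt.comp (g := (stp (ε n) (gn n))^[⌊t / ε n⌋₊])
      (f := fun p => W n (tr (-((⌊t / ε n⌋₊ * ε n : ℝ) : ℂ)) p)) h2 h3
  · intro K hK hKc
    filter_upwards [key K hK hKc 1 one_pos] with n hn p hp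
    obtain ⟨_, _, h3, _⟩ := hn p hp
    show (stp (ε n) (gn n))^[⌊t / ε n⌋₊] (W n (tr (-((⌊t / ε n⌋₊ * ε n : ℝ) : ℂ)) (tr (ε n) p))) =
      stp (ε n) (gn n) ((stp (ε n) (gn n))^[⌊t / ε n⌋₊]
        (W n (tr (-((⌊t / ε n⌋₊ * ε n : ℝ) : ℂ)) p)))
    rw [tr_tr, add_comm, ← tr_tr, h3, ← Function.iterate_succ_apply,
      Function.iterate_succ_apply']
  · intro K hK hKc δ hδ
    filter_upwards [key K hK hKc δ hδ] with n hn p hp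
    exact (hn p hp).2.2.2

end Pool.Agent.MP_ae5b4e_an_A1
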