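import Pool.Agent.Lib.MP_ae5b4e_an_A1.Defs

/-! # A1: diagonal choice along an ultrafilter -/

noncomputable section

namespace Pool.Agent.MP_ae5b4e_an_A1

open Complex Set Filter Topology Metric

/-- Proof. Otherwise (`U` ultrafilter) `∀ᶠ n in U, n < j`, so `U` contains a finite set, hence is
principal (`Ultrafilter.eq_pure_of_finite_mem` or: finite union of singletons, one of them is in
`U`):
`{n₀} ∈ U`, so `ε n₀ = lim ε = 0`, a contradiction. -/
theorem ev_ge {U : Ultrafilter ℕ} {ε : ℕ → ℝ} (h0 : ∀ n, 0 < ε n) (h1 : Tendsto ε U (𝓝 0)) (j : ℕ) :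
    ∀ᶠ n in (U : Filter ℕ), j ≤ n := by
  have key : ∃ δ : ℝ, 0 < δ ∧ ∀ n < j, δ ≤ ε n := by
    induction j with
    | zero => exact ⟨1, one_pos, fun n hn => absurd hn (Nat.not_lt_zero n)⟩
    | succ j ih =>
      obtain ⟨δ, hδ, h⟩ := ih
      refine ⟨min δ (ε j), lt_min hδ (h0 j), fun n hn => ?_⟩
      rcases Nat.lt_succ_iff_lt_or_eq.mp hn with h2 | h2
      · exact (min_le_left _ _).trans (h n h2)
      · rw [h2]
        exact min_le_right _ _
  obtain ⟨δ, hδ, h⟩ := key
  have h2 : ∀ᶠ n in (U : Filter ℕ), ε n < δ := h1.eventually (gt_mem_nhds hδ)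
  filter_upwards [h2] with n hn
  by_contra h3
  exact absurd (h n (not_le.mp h3)) (not_le.mpr hn)

/-- Proof. For `n` let `J n := {j ≤ n | ∃ x, P j n x}`; if it is not empty let `j n` be its
maximum and
`x n` with `P (j n) n (x n)`. For `j`: for almost all `n` we have `j ≤ n` and `∃ x, P j n x`, so
`j ∈ J n`, `j ≤ j n` and `P j n (x n)` by `anti`. -/
theorem slow {X : Type*} [Nonempty X] {U : Ultrafilter ℕ}
    (hU : ∀ j : ℕ, ∀ᶠ n in (U : Filter ℕ), j ≤ n) {P : ℕ → ℕ → X → Prop}
    (anti : ∀ j n x, P (j + 1) n x → P j n x)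
    (h : ∀ j, ∀ᶠ n in (U : Filter ℕ), ∃ x, P j n x) :
    ∃ x : ℕ → X, ∀ j, ∀ᶠ n in (U : Filter ℕ), P j n (x n) := by
  classical
  have anti' : ∀ j k n x, j ≤ k → P k n x → P j n x := by
    intro j k n x hjk
    induction k, hjk using Nat.le_induction with
    | base => exact id
    | succ k _ ih => exact fun hk => ih (anti k n x hk)
  let g : ℕ → ℕ := fun n => Nat.findGreatest (fun j => ∃ x, P j n x) n
  refine ⟨fun n => if h : ∃ x, P (g n) n x then h.choose else Classical.arbitrary X, fun j => ?_⟩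
  filter_upwards [hU j, h j] with n h1 h2
  have h3 : ∃ x, P (g n) n x :=
    Nat.findGreatest_spec (P := fun j => ∃ x, P j n x) h1 h2
  have h4 : j ≤ g n := Nat.le_findGreatest h1 h2
  simp only [dif_pos h3]
  exact anti' _ _ _ _ h4 h3.choose_spec

/-- Compact exhaustion of an open set. Proof. `K j := {p | dist to the complement ≥ 1 / (j + 1)} ∩
closedBall 0 j`; or `CompactExhaustion.choice` of the locally compact σ-compact space `O` mapped by
`Subtype.val` (a compact `K ⊆ O` is covered by the interiors, so contained in one of them). -/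
theorem exhaust {O : Set (ℂ × ℂ)} (hO : IsOpen O) :
    ∃ K : ℕ → Set (ℂ × ℂ), (∀ j, IsCompact (K j)) ∧ (∀ j, K j ⊆ O) ∧ (∀ j, K j ⊆ interior (K (j +
    1))) ∧
      ∀ S ⊆ O, IsCompact S → ∃ j, S ⊆ K j := by
  haveI : LocallyCompactSpace O := hO.locallyCompactSpace
  let E : CompactExhaustion O := CompactExhaustion.choice O
  refine ⟨fun j => Subtype.val '' (E j), fun j => (E.isCompact j).image continuous_subtype_val,
    fun j => ?_, fun j => ?_, fun S hS hc => ?_⟩
  · rintro _ ⟨x, _, rfl⟩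
    exact x.2
  · have h1 : Subtype.val '' (interior (E (j + 1))) ⊆ interior (Subtype.val '' (E (j + 1))) :=
      interior_maximal (image_mono interior_subset)
        (hO.isOpenMap_subtype_val _ isOpen_interior)
    exact (image_mono (E.subset_interior_succ j)).trans h1
  · have h1 : IsCompact ((Subtype.val : O → ℂ × ℂ) ⁻¹' S) := by
      rw [Subtype.isCompact_iff, Subtype.image_preimage_coe, inter_eq_right.mpr hS]
      exact hc
    obtain ⟨j, hj⟩ := E.exists_superset_of_isCompact h1
    refine ⟨j, fun x hx => ⟨⟨x, hS hx⟩, hj hx, rfl⟩⟩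

end Pool.Agent.MP_ae5b4e_an_A1
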