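import Pool.Agent.Lib.MP_ae5b4e_an_A1.Defs
import Pool.Agent.Lib.MP_ae5b4e_an_M.FnC
import Pool.Agent.Lib.MP_ae5b4e_an_M.EqA

/-! # A1: the limit flow on a slit box -/

noncomputable section

namespace Pool.Agent.MP_ae5b4e_an_A1

open Complex Set Filter Topology Metric
open Pool.Agent.MP_ae5b4e_an_NB2 (Sys)
open Pool.Agent.MP_ae5b4e_an_PB
open Pool.Agent.MP_ae5b4e_an_M
open PorTR (Hm)

/-- `Λ` is an analytic continuation of the limit label on the set `S` of points `(τ, γ)` -/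
structure Slt (DI : Set (ℂ × ℂ)) (LI Λ : ℂ × ℂ → ℂ) (S : Set (ℂ × ℂ)) : Prop where
  S_open : IsOpen S
  an : AnalyticOnNhd ℂ Λ S
  im : ∀ p ∈ S, (Λ p).im < 0
  ne : ∀ p ∈ S, p.2 ≠ 0
  conn : ∀ γ : ℂ, IsPreconnected {τ : ℂ | (τ, γ) ∈ S}
  meet : ∀ p ∈ S, ∃ τ : ℂ, (τ, p.2) ∈ S ∧ (τ, p.2) ∈ DI
  eq : ∀ p ∈ S, p ∈ DI → Λ p = LI p

variable {Y : Sys} {h R C0 : ℝ} {v : ℂ → ℝ} {G L : ℂ × ℂ → ℂ} {U : Ultrafilter ℕ} {β C1 : ℝ}
  {c V : ℕ → ℝ}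

private theorem Slt_line (γ s : ℂ) : AnalyticAt ℂ (fun s : ℂ => (s, γ)) s :=
  analyticAt_id.prod analyticAt_const

private theorem Slt_fib_open {S : Set (ℂ × ℂ)} (hS : IsOpen S) (γ : ℂ) :
    IsOpen {s : ℂ | (s, γ) ∈ S} :=
  hS.preimage (by fun_prop : Continuous fun s : ℂ => (s, γ))

private theorem Slt_fib_an {S : Set (ℂ × ℂ)} {Λ : ℂ × ℂ → ℂ} (h : AnalyticOnNhd ℂ Λ S) (γ : ℂ) :
    AnalyticOnNhd ℂ (fun s => Λ (s, γ)) {s : ℂ | (s, γ) ∈ S} := fun s hs =>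
  AnalyticAt.fun_comp (h (s, γ) hs) (Slt_line γ s)

/-- all facts on one fibre -/
private theorem Slt_key (hB : Base Y h R C0 v G L) (HW : Win v U β C1 c V) (x : ℕ → ℝ)
    {Λ : ℂ × ℂ → ℂ} {S : Set (ℂ × ℂ)} (hS : Slt (DI v U c V) (LI L h U x c V) Λ S) {τ γ : ℂ}
    (hp : (τ, γ) ∈ S) :
    γ ^ 2 * deriv (deriv fun s => Λ (s, γ)) τ =
        bb (qI Y h U x c V) (Λ (τ, γ)) (γ * deriv (fun s => Λ (s, γ)) τ) ∧
      S1 (qI Y h U x c V (Λ (τ, γ)) * (γ * deriv (fun s => Λ (s, γ)) τ) ^ 2) ≠ 0 ∧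
      Gf (qI Y h U x c V) (Λ (τ, γ)) (γ * deriv (fun s => Λ (s, γ)) τ) = γ ∧
      γ * deriv (fun s => Λ (s, γ)) τ ≠ 0 := by
  have hγ : γ ≠ 0 := hS.ne _ hp
  obtain ⟨τ₁, hτS, hτD⟩ := hS.meet _ hp
  dsimp only at hτS hτD
  obtain ⟨q, hq⟩ : ∃ q : ℂ → ℂ, q = qI Y h U x c V := ⟨_, rfl⟩
  have hqh : DifferentiableOn ℂ q Hm := by
    rw [hq]
    exact qI_hol hB HW x
  obtain ⟨l, hl⟩ : ∃ l : ℂ → ℂ, l = fun s => Λ (s, γ) := ⟨_, rfl⟩
  obtain ⟨F, hF⟩ : ∃ F : Set ℂ, F = {s : ℂ | (s, γ) ∈ S} := ⟨_, rfl⟩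
  have hFo : IsOpen F := by
    rw [hF]
    exact Slt_fib_open hS.S_open γ
  have hFc : IsPreconnected F := by
    rw [hF]
    exact hS.conn γ
  have hlan : AnalyticOnNhd ℂ l F := by
    rw [hl, hF]
    exact Slt_fib_an hS.an γ
  have hlm : MapsTo l F Hm := by
    intro s hs
    rw [hF] at hs
    rw [hl]
    exact hS.im _ hs
  have h1F : τ₁ ∈ F := by
    rw [hF]
    exact hτS
  have hτF : τ ∈ F := by
    rw [hF]
    exact hp
  -- near `τ₁` the function is the limit label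
  have hO : IsOpen {s : ℂ | (s, γ) ∈ S ∧ (s, γ) ∈ DI v U c V} :=
    (Slt_fib_open hS.S_open γ).inter (Slt_fib_open (DI_open hB.nv hB.R_pos HW) γ)
  have hev : ∀ s ∈ {s : ℂ | (s, γ) ∈ S ∧ (s, γ) ∈ DI v U c V},
      l =ᶠ[𝓝 s] fun s => LI L h U x c V (s, γ) := by
    intro s hs
    filter_upwards [hO.mem_nhds hs] with s' hs'
    rw [hl]
    exact hS.eq _ hs'.1 hs'.2
  have hnear : (fun s => γ ^ 2 * deriv (deriv l) s) =ᶠ[𝓝 τ₁]
      fun s => bb q (l s) (γ * deriv l s) := by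
    filter_upwards [hO.mem_nhds ⟨hτS, hτD⟩] with s hs
    have e1 := hev s hs
    have e2 := LI_eq hB HW x hs.2
    unfold al at e2
    rw [e1.deriv.deriv_eq, e1.deriv_eq, e1.eq_of_nhds, hq]
    exact e2
  have hql : AnalyticOnNhd ℂ (fun s => bb q (l s) (γ * deriv l s)) F := by
    intro s hs
    have e1 : AnalyticAt ℂ (fun s => (l s, γ * deriv l s)) s :=
      (hlan s hs).prod (analyticAt_const.mul (hlan s hs).deriv)
    exact AnalyticAt.fun_comp (g := fun p : ℂ × ℂ => bb q p.1 p.2)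
      (f := fun s => (l s, γ * deriv l s))
      (bb_an hqh (l s, γ * deriv l s) ⟨hlm hs, mem_univ _⟩) e1
  have hll : AnalyticOnNhd ℂ (fun s => γ ^ 2 * deriv (deriv l) s) F := fun s hs =>
    analyticAt_const.mul (hlan s hs).deriv.deriv
  have heq : ∀ s ∈ F, γ ^ 2 * deriv (deriv l) s = bb q (l s) (γ * deriv l s) := fun s hs =>
    hll.eqOn_of_preconnected_of_eventuallyEq hql hFc h1F hnear hs
  obtain ⟨g1, g2, -⟩ := LI_G hB HW x hτD hγ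
  unfold al at g1 g2
  have e1 := hev τ₁ ⟨hτS, hτD⟩
  have k1 : S1 (q (l τ₁) * (γ * deriv l τ₁) ^ 2) ≠ 0 := by
    rw [e1.deriv_eq, e1.eq_of_nhds, hq]
    exact g1
  have k2 : Gf q (l τ₁) (γ * deriv l τ₁) = γ := by
    rw [e1.deriv_eq, e1.eq_of_nhds, hq]
    exact g2
  obtain ⟨m1, m2⟩ := Gf_prop hqh hγ hFo hFc hlan hlm heq h1F k1 k2 τ hτF
  have m3 := heq τ hτF
  have m4 : γ * deriv l τ ≠ 0 := by
    intro h0
    rw [h0] at m2
    unfold Gf at m2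
    rw [zero_mul, zero_mul] at m2
    exact hγ m2.symm
  rw [hq, hl] at m1 m2 m3
  rw [hl] at m4
  exact ⟨m3, m1, m2, m4⟩

/-- The continued label satisfies the limit equation and the first integral.

Proof. Fix `γ` with nonempty fibre `S_γ = {τ | (τ, γ) ∈ S}` (open, preconnected),
`l := fun s => Λ (s, γ)`.
Near the point `τ₁` of `meet` (`S ∩ DI` is open: `DI_open`) `Λ = LI`, so `LI_eq` gives the equation
on a neighbourhood of `τ₁`; both sides of the equation are analytic functions of `s ∈ S_γ` (`bb_an`,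
`qI_hol`), so it holds on `S_γ` (`AnalyticOnNhd.eqOn_of_preconnected_of_eventuallyEq`). `LI_G` at
`τ₁` and
`Gf_prop`. `α ≠ 0` because `Gf q l 0 = 0 ≠ γ`. -/
theorem Slt.eqs (hB : Base Y h R C0 v G L) (HW : Win v U β C1 c V) (x : ℕ → ℝ) {Λ : ℂ × ℂ → ℂ}
    {S : Set (ℂ × ℂ)} (hS : Slt (DI v U c V) (LI L h U x c V) Λ S) {p : ℂ × ℂ} (hp : p ∈ S) :
    p.2 ^ 2 * deriv (deriv fun s => Λ (s, p.2)) p.1 =
        bb (qI Y h U x c V) (Λ p) (p.2 * deriv (fun s => Λ (s, p.2)) p.1) ∧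
      S1 (qI Y h U x c V (Λ p) * (p.2 * deriv (fun s => Λ (s, p.2)) p.1) ^ 2) ≠ 0 ∧
      Gf (qI Y h U x c V) (Λ p) (p.2 * deriv (fun s => Λ (s, p.2)) p.1) = p.2 ∧
      p.2 * deriv (fun s => Λ (s, p.2)) p.1 ≠ 0 := by
  obtain ⟨τ, γ⟩ := p
  exact Slt_key hB HW x hS hp

private theorem Slt_part {S : Set (ℂ × ℂ)} (hSo : IsOpen S) {Λ : ℂ × ℂ → ℂ}
    (h : AnalyticOnNhd ℂ Λ S) :
    AnalyticOnNhd ℂ (fun p : ℂ × ℂ => deriv (fun s => Λ (s, p.2)) p.1) S := by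
  intro p hp
  have h1 : AnalyticAt ℂ (fun p : ℂ × ℂ => fderiv ℂ Λ p (1, 0)) p := by
    have e1 : AnalyticAt ℂ (fderiv ℂ Λ) p := (h p hp).fderiv
    have e2 := ((ContinuousLinearMap.apply ℂ ℂ ((1 : ℂ), (0 : ℂ))).analyticAt
      (fderiv ℂ Λ p)).fun_comp (f := fderiv ℂ Λ) (x := p) e1
    exact e2
  refine h1.congr ?_
  filter_upwards [hSo.mem_nhds hp] with p' hp'
  have e1 : HasFDerivAt Λ (fderiv ℂ Λ p') (p'.1, p'.2) :=
    (h p' hp').differentiableAt.hasFDerivAt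
  have e2 : HasDerivAt (fun s : ℂ => (s, p'.2)) ((1 : ℂ), (0 : ℂ)) p'.1 :=
    (hasDerivAt_id p'.1).prodMk (hasDerivAt_const p'.1 p'.2)
  exact ((e1.comp_hasDerivAt p'.1 e2).deriv).symm

private theorem Slt_mul_an (p : ℂ × ℂ) : AnalyticAt ℂ (fun p : ℂ × ℂ => (p.1 * p.2, p.2)) p :=
  (analyticAt_fst.mul analyticAt_snd).prod analyticAt_snd

/-- THE LIMIT FLOW on a slit box.

Proof. `Ω := {p | (p.1 p.2, p.2) ∈ S}` open; `z := zf Λ` analytic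
(`(s, γ) ↦ deriv (fun s => Λ (s, γ)) s` is
`fderiv ℂ Λ (s, γ) (1, 0)` on `S`); `maps`: `Slt.im`. `ode`: chain rule, `d/dθ Λ (θ γ, γ) = γ ∂₁ Λ`,
`d/dθ (γ ∂₁ Λ (θ γ, γ)) = γ² ∂₁² Λ = bb q Λ α` (`Slt.eqs`). `inj`: `H (u) := Gf q u.1 u.2` is
analytic near
`z p` (`S1 ≠ 0`, division) and `H (z p') = p'.2` for `p'` near `p` (`Slt.eqs`). If
`fderiv z p (a, b) = 0`
then, differentiating `H ∘ z = Prod.snd`, `b = 0`; and `fderiv z p (a, 0) = a • gI q (z p)`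
(`ode`), whose first
component is `a α`, `α ≠ 0`: `a = 0`. -/
theorem fw_slit (hB : Base Y h R C0 v G L) (HW : Win v U β C1 c V) (x : ℕ → ℝ) {Λ : ℂ × ℂ → ℂ}
    {S : Set (ℂ × ℂ)} (hS : Slt (DI v U c V) (LI L h U x c V) Λ S) :
    Fw (Hm ×ˢ univ) (gI (qI Y h U x c V)) {p | (p.1 * p.2, p.2) ∈ S} (zf Λ) := by
  have hqh : DifferentiableOn ℂ (qI Y h U x c V) Hm := qI_hol hB HW x
  have hHo : IsOpen Hm := isOpen_lt Complex.continuous_im continuous_const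
  have hΩo : IsOpen {p : ℂ × ℂ | (p.1 * p.2, p.2) ∈ S} :=
    hS.S_open.preimage (by fun_prop : Continuous fun p : ℂ × ℂ => (p.1 * p.2, p.2))
  have hz : AnalyticOnNhd ℂ (zf Λ) {p | (p.1 * p.2, p.2) ∈ S} := by
    intro p hp
    have e1 : AnalyticAt ℂ (fun p : ℂ × ℂ => Λ (p.1 * p.2, p.2)) p :=
      AnalyticAt.fun_comp (g := Λ) (f := fun p : ℂ × ℂ => (p.1 * p.2, p.2)) (hS.an _ hp)
        (Slt_mul_an p)
    have e2 : AnalyticAt ℂ (fun p : ℂ × ℂ => deriv (fun s => Λ (s, p.2)) (p.1 * p.2)) p :=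
      AnalyticAt.fun_comp (g := fun p : ℂ × ℂ => deriv (fun s => Λ (s, p.2)) p.1)
        (f := fun p : ℂ × ℂ => (p.1 * p.2, p.2)) (Slt_part hS.S_open hS.an _ hp) (Slt_mul_an p)
    exact e1.prod (analyticAt_snd.mul e2)
  have hode : ∀ p ∈ {p : ℂ × ℂ | (p.1 * p.2, p.2) ∈ S},
      HasDerivAt (fun θ => zf Λ (θ, p.2)) (gI (qI Y h U x c V) (zf Λ p)) p.1 := by
    rintro ⟨θ, γ⟩ hp
    have hp' : (θ * γ, γ) ∈ S := hp
    have hfa := Slt_fib_an hS.an γ (θ * γ) hp'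
    have hmul : HasDerivAt (fun θ : ℂ => θ * γ) γ θ := by
      simpa using (hasDerivAt_id θ).mul_const γ
    have e1 : HasDerivAt (fun θ => Λ (θ * γ, γ)) (deriv (fun s => Λ (s, γ)) (θ * γ) * γ) θ :=
      HasDerivAt.comp (h₂ := fun s => Λ (s, γ)) (h := fun θ : ℂ => θ * γ) θ
        hfa.differentiableAt.hasDerivAt hmul
    have e2 : HasDerivAt (fun θ => deriv (fun s => Λ (s, γ)) (θ * γ))
        (deriv (deriv fun s => Λ (s, γ)) (θ * γ) * γ) θ :=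
      HasDerivAt.comp (h₂ := deriv fun s => Λ (s, γ)) (h := fun θ : ℂ => θ * γ) θ
        hfa.deriv.differentiableAt.hasDerivAt hmul
    have e3 := e1.prodMk (e2.const_mul γ)
    refine e3.congr_deriv ?_
    obtain ⟨m1, -, -, -⟩ := Slt_key hB HW x hS hp'
    unfold gI zf
    dsimp only
    rw [← m1]
    ext
    · simp only
      ring
    · simp only
      ring
  refine ⟨hΩo, hz, fun p hp => ⟨hS.im _ hp, mem_univ _⟩, hode, ?_⟩
  rintro p hp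
  have hp' : (p.1 * p.2, p.2) ∈ S := hp
  obtain ⟨m1, m2, m3, m4⟩ := Slt_key hB HW x hS hp'
  obtain ⟨D, hD⟩ : ∃ D, D = fderiv ℂ (zf Λ) p := ⟨_, rfl⟩
  have hDd : HasFDerivAt (zf Λ) D p := by
    rw [hD]
    exact (hz p hp).differentiableAt.hasFDerivAt
  -- the first integral
  have hH : AnalyticAt ℂ (fun u : ℂ × ℂ => Gf (qI Y h U x c V) u.1 u.2) (zf Λ p) := by
    have a1 : AnalyticAt ℂ (fun u : ℂ × ℂ => qI Y h U x c V u.1) (zf Λ p) :=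
      AnalyticAt.fun_comp (g := qI Y h U x c V) (f := fun u : ℂ × ℂ => u.1)
        (hqh.analyticOnNhd hHo _ (hS.im _ hp')) analyticAt_fst
    have a2 : AnalyticAt ℂ (fun u : ℂ × ℂ => qI Y h U x c V u.1 * u.2 ^ 2) (zf Λ p) :=
      a1.mul (analyticAt_snd.pow 2)
    have a3 : AnalyticAt ℂ (fun u : ℂ × ℂ => S1 (qI Y h U x c V u.1 * u.2 ^ 2)) (zf Λ p) :=
      AnalyticAt.fun_comp (S1_diff.analyticAt _) a2
    have a4 : AnalyticAt ℂ (fun u : ℂ × ℂ => C1f (qI Y h U x c V u.1 * u.2 ^ 2)) (zf Λ p) :=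
      AnalyticAt.fun_comp (C1f_diff.analyticAt _) a2
    exact (analyticAt_snd.mul a3).mul (analyticAt_const.sub (a4.div a3 m2)).cexp
  have hcomp : (fun p' => Gf (qI Y h U x c V) (zf Λ p').1 (zf Λ p').2) =ᶠ[𝓝 p] Prod.snd := by
    filter_upwards [hΩo.mem_nhds hp] with p' hp''
    exact (Slt_key hB HW x hS hp'').2.2.1
  have hsnd : HasFDerivAt (fun p' => Gf (qI Y h U x c V) (zf Λ p').1 (zf Λ p').2)
      ((fderiv ℂ (fun u : ℂ × ℂ => Gf (qI Y h U x c V) u.1 u.2) (zf Λ p)).comp D) p :=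
    HasFDerivAt.comp (g := fun u : ℂ × ℂ => Gf (qI Y h U x c V) u.1 u.2) (f := zf Λ) p
      hH.differentiableAt.hasFDerivAt hDd
  have hsnd' : (fderiv ℂ (fun u : ℂ × ℂ => Gf (qI Y h U x c V) u.1 u.2) (zf Λ p)).comp D =
      ContinuousLinearMap.snd ℂ ℂ ℂ :=
    (hsnd.congr_of_eventuallyEq hcomp.symm).unique hasFDerivAt_snd
  -- the derivative in the first direction
  have hfst : D (1, 0) = gI (qI Y h U x c V) (zf Λ p) := by
    have e1 : HasFDerivAt (zf Λ) D ((fun s : ℂ => (s, p.2)) p.1) := hDd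
    have e2 : HasDerivAt (fun s : ℂ => (s, p.2)) ((1 : ℂ), (0 : ℂ)) p.1 :=
      (hasDerivAt_id p.1).prodMk (hasDerivAt_const p.1 p.2)
    have e3 := HasFDerivAt.comp_hasDerivAt (f := fun s : ℂ => (s, p.2)) (l := zf Λ) p.1 e1 e2
    exact e3.unique (hode p hp)
  rw [← hD]
  rw [injective_iff_map_eq_zero]
  rintro ⟨a, b⟩ hab
  have hb : b = 0 := by
    have e1 := congrArg (fun T : (ℂ × ℂ) →L[ℂ] ℂ => T (a, b)) hsnd'
    simp only [ContinuousLinearMap.comp_apply, hab, map_zero, ContinuousLinearMap.coe_snd'] at e1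
    exact e1.symm
  subst hb
  have ha : a = 0 := by
    have e1 : D (a, 0) = a • D (1, 0) := by
      rw [← map_smul]
      congr 1
      ext <;> simp
    rw [e1, hfst] at hab
    have e2 := congrArg Prod.fst hab
    have e3 : a * (p.2 * deriv (fun s => Λ (s, p.2)) (p.1 * p.2)) = 0 := e2
    rcases mul_eq_zero.1 e3 with h0 | h0
    · exact h0
    · exact absurd h0 m4
  rw [ha]
  rfl

end Pool.Agent.MP_ae5b4e_an_A1
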