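import Pool.Agent.Lib.MP_ae5b4e_an_A1.MainB
import Pool.Agent.Lib.MP_ae5b4e_an_A1.Lab
import Pool.Agent.Lib.MP_ae5b4e_an_A1.Slt
import Pool.Agent.Lib.MP_ae5b4e_an_A1.Geom

/-! # A1: the interface in the windows -/

noncomputable section

namespace Pool.Agent.MP_ae5b4e_an_A1

open Complex Set Filter Topology Metric
open Pool.Agent.MP_ae5b4e_an_NB2 (Sys)
open Pool.Agent.MP_ae5b4e_an_PB
open Pool.Agent.MP_ae5b4e_an_M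
open PorTR (Hm)

variable {Y : Sys} {h R C0 : ℝ} {v : ℂ → ℝ} {G L : ℂ × ℂ → ℂ} {U : Ultrafilter ℕ} {β C1 : ℝ}
  {c V : ℕ → ℝ}

/-- **BLOCK A1 IN THE WINDOWS.** Proof. `ls_win`, `vf_win`, `fw_slit`, `lab_ex'` (`Slt.eq`,
`Slt.S_open`), `geo_slit` (`DI v U c V = {p | p.1.im < - vI v U c V p.2}` by definition),
`exists_BC`; `OL` is open
(`DI_open`, `Slt.S_open`, continuity of `p ↦ (p.1 p.2, p.2)`). -/
theorem win_BC (hB : Base Y h R C0 v G L) (HW : Win v U β C1 c V) (x : ℕ → ℝ)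
    {ξ : ℕ → ℂ × ℂ → ℂ} (hξ : XI U (fun n => Zn Y h x V n) (fun n => c n / V n) ξ)
    {Vm : ℂ → ℝ} {g₀ r₀ x₁ x₂ v₀ b : ℝ} {P : ℕ} {Tb : ℕ → ℂ → ℂ} {X : ℕ → ℝ}
    (hSd : Sd (vI v U c V) Vm g₀ r₀ x₁ x₂ v₀ b P Tb X) {Λ : ℂ × ℂ → ℂ}
    (hS : Slt (DI v U c V) (LI L h U x c V) Λ (SB g₀ r₀ x₁ x₂ v₀ b P Tb)) :
    ∃ w r : ℝ, 0 < w ∧ 0 < r ∧ 2 * r < r₀ ∧
      (∀ i ≤ P, Bo (fun i => X i / g₀) (-v₀ / g₀) w g₀ (2 * r) i ⊆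
        {p | (p.1 * p.2, p.2) ∈ SB g₀ r₀ x₁ x₂ v₀ b P Tb}) ∧
      ∃ (Z : ℕ → ℕ → ℂ × ℂ → ℂ × ℂ) (f g A B : ℕ → ℕ → ℂ × ℂ → ℂ),
        BC U (fun n => c n / V n) g₀ r (-v₀ / g₀ - w / 2) P (TX Vm g₀ X) (YB Tb) f g A B ∧
        BZ U (fun n => c n / V n) (gx (fun n => c n / V n) ξ) (zf Λ)
          (lab (fun n => c n / V n) (fun n => Ln L h x c V n)) g₀ r (-v₀ / g₀) (-v₀ / g₀ - w / 2)
          w P
          (fun i => X i / g₀) (TX Vm g₀ X) (YB Tb) Z f g A B := by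
  obtain ⟨r', y₁, hr', hG⟩ := geo_slit hSd
  have hEx := lab_ex' (Pool.Agent.MP_ae5b4e_an_MT.ls_win hB HW x) hξ hS.S_open hS.eq
  have hj : Continuous fun p : ℂ × ℂ => (p.1 * p.2, p.2) := by fun_prop
  have hOL : IsOpen {p : ℂ × ℂ | (p.1 * p.2, p.2) ∈ SB g₀ r₀ x₁ x₂ v₀ b P Tb ∧
      (p.1 * p.2, p.2) ∈ DI v U c V} :=
    (hS.S_open.preimage hj).inter ((DI_open hB.nv hB.R_pos HW).preimage hj)
  obtain ⟨w, r, hw, hr, h2r, _, hBo, Z, f, g, A, B, hBC, hBZ⟩ :=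
    exists_BC (vf_win hB HW x hξ) (fw_slit hB HW x hS) hOL (fun p hp => hp.1) hG hEx
  exact ⟨w, r, hw, hr, by linarith, hBo, Z, f, g, A, B, hBC, hBZ⟩

end Pool.Agent.MP_ae5b4e_an_A1
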